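import Mathlib

/-!
# Polyhedral surfaces in Euclidean three-space (`S_g`-polytopes)

An `S_g`-polytope is a finite set of convex polygons in `ℝ³` which fit together, edge to edge, to
an embedded closed orientable surface of genus `g`, two polygons with a common side never being
coplanar.
-/

namespace Pool.Agent.Lib.MP_93b2dd_co

/-- Euclidean three-space. -/
abbrev E3 := EuclideanSpace ℝ (Fin 3)

/-- The determinant of three vectors of `ℝ³`. -/
def det3 (u v w : E3) : ℝ :=
  Matrix.det !![u 0, u 1, u 2; v 0, v 1, v 2; w 0, w 1, w 2]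

/-- A convex polygon in `ℝ³`: the convex hull of finitely many points, of dimension two. -/
def IsConvexPolygon (f : Set E3) : Prop :=
  (∃ S : Set E3, S.Finite ∧ f = convexHull ℝ S) ∧ Module.finrank ℝ (vectorSpan ℝ f) = 2

/-- The corners of a polygon are its extreme points. -/
def IsCorner (v : E3) (f : Set E3) : Prop := v ∈ f.extremePoints ℝ

/-- The sides of a polygon are its exposed faces which are non-degenerate segments. -/
def IsSide (e f : Set E3) : Prop :=
  IsExposed ℝ f e ∧ ∃ a b : E3, a ≠ b ∧ e = segment ℝ a b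

/-- Two distinct polygons are adjacent if they have a common side. -/
def Adjacent (f f' : Set E3) : Prop := f ≠ f' ∧ ∃ e, IsSide e f ∧ IsSide e f'

/-- Two polygons with a common side, both with a chosen normal vector, are coherently oriented
along the side: if the side is traversed from `a` to `b` then, with respect to the chosen normals,
one polygon lies to the left of the side and the other one to the right. -/
def Coherent (n n' : E3) (f f' : Set E3) : Prop :=
  ∀ a b : E3, a ≠ b → IsSide (segment ℝ a b) f → IsSide (segment ℝ a b) f' →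
    ∀ x ∈ f, x ∉ segment ℝ a b → ∀ x' ∈ f', x' ∉ segment ℝ a b →
      det3 n (b - a) (x - a) * det3 n' (b - a) (x' - a) < 0

/-- `F` is (the set of faces of) an `S_g`-polytope. -/
structure IsPolytope (g : ℕ) (F : Set (Set E3)) : Prop where
  /-- there are finitely many faces -/
  finite : F.Finite
  /-- there is a face -/
  nonempty : F.Nonempty
  /-- every face is a convex polygon -/
  polygon : ∀ f ∈ F, IsConvexPolygon f
  /-- the surface is embedded: two faces are disjoint, or meet exactly in a common corner, or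
  meet exactly in a common side -/
  meet : ∀ f ∈ F, ∀ f' ∈ F, f ≠ f' → f ∩ f' = ∅ ∨
    (∃ v, f ∩ f' = {v} ∧ IsCorner v f ∧ IsCorner v f') ∨
    (IsSide (f ∩ f') f ∧ IsSide (f ∩ f') f')
  /-- every side of a face is a side of exactly one other face -/
  closed : ∀ f ∈ F, ∀ e, IsSide e f → ∃! f', f' ∈ F ∧ f' ≠ f ∧ IsSide e f'
  /-- the faces around a corner form a single cycle: any two of them are joined by a chain in
  which consecutive faces share a side through the corner -/
  link : ∀ v, ∀ f ∈ F, ∀ f' ∈ F, IsCorner v f → IsCorner v f' →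
    Relation.ReflTransGen
      (fun p q => p ∈ F ∧ q ∈ F ∧ p ≠ q ∧ ∃ e, v ∈ e ∧ IsSide e p ∧ IsSide e q) f f'
  /-- the surface is connected -/
  connected : ∀ f ∈ F, ∀ f' ∈ F,
    Relation.ReflTransGen (fun p q => p ∈ F ∧ q ∈ F ∧ Adjacent p q) f f'
  /-- the surface is orientable: the faces can be given coherent normals -/
  orientable : ∃ n : Set E3 → E3,
    (∀ f ∈ F, n f ≠ 0 ∧ ∀ x ∈ f, ∀ y ∈ f, inner ℝ (n f) (y - x) = 0) ∧
    (∀ f ∈ F, ∀ f' ∈ F, Adjacent f f' → Coherent (n f) (n f') f f')
  /-- adjacent faces are not coplanar -/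
  bent : ∀ f ∈ F, ∀ f' ∈ F, Adjacent f f' → ¬ Coplanar ℝ (f ∪ f')
  /-- the genus is `g`: Euler's formula -/
  euler : (({v | ∃ f ∈ F, IsCorner v f} : Set E3).ncard : ℤ)
    - (({e | ∃ f ∈ F, IsSide e f} : Set (Set E3)).ncard : ℤ) + (F.ncard : ℤ) = 2 - 2 * (g : ℤ)

/-- The dual graph: one vertex for each face, adjacency is sharing a side. -/
def dualGraph (F : Set (Set E3)) : SimpleGraph F where
  Adj f f' := Adjacent f.1 f'.1
  symm := ⟨fun _ _ h => ⟨h.1.symm, h.2.imp fun _ he => ⟨he.2, he.1⟩⟩⟩
  loopless := ⟨fun _ h => h.1 rfl⟩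

end Pool.Agent.Lib.MP_93b2dd_co
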