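import Mathlib
import Pool.Agent.Lib.MP_93b2dd_co.Defs

/-!
# From a system of directed sides to a polyhedral surface
-/

namespace Pool.Agent.Lib.MP_93b2dd_co

theorem det3_eq (u v w : E3) : det3 u v w =
    u 0 * v 1 * w 2 - u 0 * v 2 * w 1 - u 1 * v 0 * w 2 + u 1 * v 2 * w 0
      + u 2 * v 0 * w 1 - u 2 * v 1 * w 0 := by
  unfold det3
  rw [Matrix.det_fin_three]
  simp

theorem inner3_eq (u v : E3) : inner ℝ u v = u 0 * v 0 + u 1 * v 1 + u 2 * v 2 := by
  rw [PiLp.inner_apply, Fin.sum_univ_three]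
  simp
  ring

/-- `det3 n u` as a linear form. -/
def detL (n u : E3) : E3 →ₗ[ℝ] ℝ where
  toFun v := det3 n u v
  map_add' v w := by
    simp only [det3_eq, PiLp.add_apply]
    ring
  map_smul' c v := by
    simp only [det3_eq, PiLp.smul_apply, smul_eq_mul, RingHom.id_apply]
    ring

theorem detL_apply (n u v : E3) : detL n u v = det3 n u v := rfl

theorem det3_self (n u : E3) : det3 n u u = 0 := by
  rw [det3_eq]
  ring

theorem det3_swap (n u v : E3) : det3 n u v = - det3 n v u := by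
  rw [det3_eq, det3_eq]
  ring

theorem det3_neg_mid (n u v : E3) : det3 n (-u) v = - det3 n u v := by
  simp only [det3_eq, PiLp.neg_apply]
  ring

theorem det3_zero_right (n u : E3) : det3 n u 0 = 0 := by
  simp [det3_eq]

theorem det3_zero_mid (n u : E3) : det3 n 0 u = 0 := by
  simp [det3_eq]

theorem det3_zero_left (n u : E3) : det3 0 n u = 0 := by
  simp [det3_eq]

/-- Three vectors orthogonal to a nonzero vector have determinant zero. -/
theorem det3_of_orth {n u v w : E3} (hn : n ≠ 0) (hu : inner ℝ n u = 0) (hv : inner ℝ n v = 0)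
    (hw : inner ℝ n w = 0) : det3 u v w = 0 := by
  rw [inner3_eq] at hu hv hw
  by_contra h
  apply hn
  have h0 : det3 u v w * n 0 = 0 := by
    rw [det3_eq]
    linear_combination (v 1 * w 2 - v 2 * w 1) * hu + (w 1 * u 2 - w 2 * u 1) * hv +
      (u 1 * v 2 - u 2 * v 1) * hw
  have h1 : det3 u v w * n 1 = 0 := by
    rw [det3_eq]
    linear_combination (v 2 * w 0 - v 0 * w 2) * hu + (w 2 * u 0 - w 0 * u 2) * hv +
      (u 2 * v 0 - u 0 * v 2) * hw
  have h2 : det3 u v w * n 2 = 0 := by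
    rw [det3_eq]
    linear_combination (v 0 * w 1 - v 1 * w 0) * hu + (w 0 * u 1 - w 1 * u 0) * hv +
      (u 0 * v 1 - u 1 * v 0) * hw
  ext k
  fin_cases k
  · simpa [h] using h0
  · simpa [h] using h1
  · simpa [h] using h2

/-- Cramer's rule in the plane orthogonal to `n`. -/
theorem cramer {n u v w : E3} (hn : n ≠ 0) (hu : inner ℝ n u = 0) (hv : inner ℝ n v = 0)
    (hw : inner ℝ n w = 0) : det3 n u v • w = det3 n w v • u + det3 n u w • v := by
  have h := det3_of_orth hn hu hv hw
  rw [det3_eq] at h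
  ext k
  fin_cases k
  · simp only [det3_eq, PiLp.add_apply, PiLp.smul_apply, smul_eq_mul]
    simp
    linear_combination (n 0) * h
  · simp only [det3_eq, PiLp.add_apply, PiLp.smul_apply, smul_eq_mul]
    simp
    linear_combination (n 1) * h
  · simp only [det3_eq, PiLp.add_apply, PiLp.smul_apply, smul_eq_mul]
    simp
    linear_combination (n 2) * h

/-- The points of a convex hull at which a linear form takes its greatest value. -/
theorem hull_max {T : Set E3} (l : E3 →ₗ[ℝ] ℝ) (m : ℝ) (hm : ∀ p ∈ T, l p ≤ m) :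
    {x | x ∈ convexHull ℝ T ∧ l x = m} = convexHull ℝ {p | p ∈ T ∧ l p = m} := by
  apply Set.Subset.antisymm
  · rintro x ⟨hx, hlx⟩
    obtain ⟨κ, _, w, z, hw0, hw1, hz, rfl⟩ := mem_convexHull_iff_exists_fintype.1 hx
    rw [map_sum] at hlx
    simp only [map_smul, smul_eq_mul] at hlx
    have h0 : ∑ i, w i * (m - l (z i)) = 0 := by
      simp only [mul_sub, Finset.sum_sub_distrib, ← Finset.sum_mul, hw1, hlx]
      ring
    have h1 : ∀ i ∈ Finset.univ, w i * (m - l (z i)) = 0 :=
      (Finset.sum_eq_zero_iff_of_nonneg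
        (fun i _ => mul_nonneg (hw0 i) (sub_nonneg.2 (hm _ (hz i))))).1 h0
    rw [← Fintype.sum_subset (s := Finset.univ.filter (fun i => w i ≠ 0))
      (fun i hi => Finset.mem_filter.2 ⟨Finset.mem_univ _, left_ne_zero_of_smul hi⟩)]
    refine (convex_convexHull ℝ _).sum_mem (fun i _ => hw0 _)
      (by rwa [Finset.sum_filter_ne_zero]) (fun i hi => subset_convexHull _ _ ⟨hz i, ?_⟩)
    have h2 := h1 i (Finset.mem_univ i)
    rcases mul_eq_zero.1 h2 with h3 | h3
    · exact absurd h3 (Finset.mem_filter.1 hi).2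
    · linarith
  · apply convexHull_min
    · rintro p ⟨hp, hlp⟩
      exact ⟨subset_convexHull _ _ hp, hlp⟩
    · exact (convex_convexHull ℝ T).inter (convex_hyperplane l.isLinear m)

theorem hull_le {T : Set E3} (l : E3 →ₗ[ℝ] ℝ) (m : ℝ) (hm : ∀ p ∈ T, l p ≤ m) {x : E3}
    (hx : x ∈ convexHull ℝ T) : l x ≤ m :=
  convexHull_min (t := {x | l x ≤ m}) hm (convex_halfSpace_le l.isLinear m) hx

/-- Equal segments have the same end points. -/
theorem segment_ends {a b c d : E3} (h : segment ℝ a b = segment ℝ c d) :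
    (a = c ∧ b = d) ∨ (a = d ∧ b = c) := by
  have ha : a ∈ segment ℝ c d := h ▸ left_mem_segment ℝ a b
  have hb : b ∈ segment ℝ c d := h ▸ right_mem_segment ℝ a b
  have hc : c ∈ segment ℝ a b := h ▸ left_mem_segment ℝ c d
  have hd : d ∈ segment ℝ a b := h ▸ right_mem_segment ℝ c d
  rw [segment_eq_image'] at ha hb hc hd
  obtain ⟨s, ⟨hs0, hs1⟩, rfl⟩ := ha
  obtain ⟨t, ⟨ht0, ht1⟩, rfl⟩ := hb
  obtain ⟨p, ⟨hp0, hp1⟩, hp⟩ := hc
  obtain ⟨q, ⟨hq0, hq1⟩, hq⟩ := hd
  by_cases hcd : d - c = 0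
  · have : d = c := sub_eq_zero.1 hcd
    subst this
    left
    simp
  · have e1 : (s + p * (t - s)) • (d - c) = 0 := by
      have : c + (s + p * (t - s)) • (d - c) = c := by
        conv_rhs => rw [← hp]
        module
      simpa using this
    have e2 : (s + q * (t - s) - 1) • (d - c) = 0 := by
      have : c + (s + q * (t - s)) • (d - c) = d := by
        conv_rhs => rw [← hq]
        module
      have h3 : (s + q * (t - s) - 1) • (d - c) = (c + (s + q * (t - s)) • (d - c)) - d := by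
        module
      rw [h3, this, sub_self]
    have f1 : s + p * (t - s) = 0 := (smul_eq_zero.1 e1).resolve_right hcd
    have f2 : s + q * (t - s) - 1 = 0 := (smul_eq_zero.1 e2).resolve_right hcd
    rcases le_total s t with hst | hst
    · left
      have g1 : s = 0 := by nlinarith
      have g2 : t = 1 := by nlinarith
      subst g1 g2
      simp
    · right
      have g1 : s = 1 := by nlinarith
      have g2 : t = 0 := by nlinarith
      subst g1 g2
      simp

theorem max_set {T : Set E3} (l : E3 →ₗ[ℝ] ℝ) (m : ℝ) (hm : ∀ p ∈ T, l p ≤ m)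
    (hat : ∃ p ∈ T, l p = m) :
    {x | x ∈ convexHull ℝ T ∧ ∀ y ∈ convexHull ℝ T, l y ≤ l x} =
      {x | x ∈ convexHull ℝ T ∧ l x = m} := by
  obtain ⟨p, hp, hlp⟩ := hat
  ext x
  constructor
  · rintro ⟨hx, h⟩
    refine ⟨hx, le_antisymm (hull_le l m hm hx) ?_⟩
    rw [← hlp]
    exact h p (subset_convexHull _ _ hp)
  · rintro ⟨hx, h⟩
    refine ⟨hx, fun y hy => ?_⟩
    rw [h]
    exact hull_le l m hm hy

/-- A closed polyhedral surface given by its directed sides (`darts`).  `nx` goes to the next side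
of the same face, `op` to the same side seen from the neighbouring face. -/
structure DartSurface (g : ℕ) where
  ι : Type
  D : Type
  V : Type
  [fι : Fintype ι]
  [fD : Fintype D]
  [fV : Fintype V]
  fc : D → ι
  nx : Equiv.Perm D
  op : D → D
  src : D → V
  pos : V → E3
  nrm : ι → E3
  fc_nx : ∀ d, fc (nx d) = fc d
  nx_nx : ∀ d, nx (nx d) ≠ d
  nx_ne : ∀ d, nx d ≠ d
  op_op : ∀ d, op (op d) = d
  src_op : ∀ d, src (op d) = src (nx d)
  fc_op : ∀ d, fc (op d) ≠ fc d
  fc_surj : Function.Surjective fc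
  src_surj : Function.Surjective src
  nonempty : Nonempty D
  dart_inj : ∀ d d', src d = src d' → src (nx d) = src (nx d') → d = d'
  pos_inj : Function.Injective pos
  plane : ∀ d d', fc d = fc d' → inner ℝ (nrm (fc d)) (pos (src d') - pos (src d)) = 0
  convex : ∀ d d', fc d = fc d' → d' ≠ d → d' ≠ nx d →
    0 < det3 (nrm (fc d)) (pos (src (nx d)) - pos (src d)) (pos (src d') - pos (src d))
  inter : ∀ i j, i ≠ j →
    (convexHull ℝ {p | ∃ d, fc d = i ∧ pos (src d) = p} ∩
      convexHull ℝ {p | ∃ d, fc d = j ∧ pos (src d) = p} = ∅) ∨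
    (∃ d d', fc d = i ∧ fc d' = j ∧ src d = src d' ∧
      convexHull ℝ {p | ∃ d, fc d = i ∧ pos (src d) = p} ∩
        convexHull ℝ {p | ∃ d, fc d = j ∧ pos (src d) = p} = {pos (src d)}) ∨
    (∃ d, fc d = i ∧ fc (op d) = j ∧
      convexHull ℝ {p | ∃ d, fc d = i ∧ pos (src d) = p} ∩
        convexHull ℝ {p | ∃ d, fc d = j ∧ pos (src d) = p} =
          segment ℝ (pos (src d)) (pos (src (nx d))))
  link : ∀ d d', src d = src d' → Relation.ReflTransGen (fun x y => y = nx (op x)) d d'
  conn : ∀ i j, Relation.ReflTransGen (fun a b => ∃ d, fc d = a ∧ fc (op d) = b) i j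
  bent : ∀ d, ∃ d', fc d' = fc (op d) ∧
    inner ℝ (nrm (fc d)) (pos (src d') - pos (src d)) ≠ 0
  euler : 2 * Fintype.card V + 2 * Fintype.card ι + 4 * g = 4 + Fintype.card D

namespace DartSurface

attribute [instance] fι fD fV

variable {g : ℕ} (S : DartSurface g)

/-- The face with index `i`, as a subset of `ℝ³`. -/
def face (i : S.ι) : Set E3 := convexHull ℝ {p | ∃ d, S.fc d = i ∧ S.pos (S.src d) = p}

/-- The side belonging to a dart. -/
def side (d : S.D) : Set E3 := segment ℝ (S.pos (S.src d)) (S.pos (S.src (S.nx d)))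


/-- The starting point of a dart. -/
def P (d : S.D) : E3 := S.pos (S.src d)

/-- The direction of a dart. -/
def U (d : S.D) : E3 := S.P (S.nx d) - S.P d

theorem pos3 (d : S.D) :
    0 < det3 (S.nrm (S.fc d)) (S.U d) (S.P (S.nx (S.nx d)) - S.P d) :=
  S.convex d (S.nx (S.nx d)) (by rw [S.fc_nx, S.fc_nx]) (S.nx_nx d) (S.nx_ne _)

theorem nrm_ne (i : S.ι) : S.nrm i ≠ 0 := by
  obtain ⟨d, rfl⟩ := S.fc_surj i
  intro h
  have := S.pos3 d
  rw [h, det3_zero_left] at this
  exact lt_irrefl _ this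

theorem U_ne (d : S.D) : S.U d ≠ 0 := by
  intro h
  have := S.pos3 d
  rw [h, det3_zero_mid] at this
  exact lt_irrefl _ this

theorem P_ne (d : S.D) : S.P (S.nx d) ≠ S.P d := fun h => S.U_ne d (sub_eq_zero.2 h)

theorem P_inj_face {d d' : S.D} (h : S.fc d = S.fc d') (hP : S.P d = S.P d') : d = d' := by
  by_contra hne
  by_cases h2 : d' = S.nx d
  · subst h2
    exact S.P_ne d hP.symm
  · have := S.convex d d' h (Ne.symm hne) h2
    change 0 < det3 _ _ (S.P d' - S.P d) at this
    rw [hP, sub_self, det3_zero_right] at this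
    exact lt_irrefl _ this

theorem L_self (d : S.D) : det3 (S.nrm (S.fc d)) (S.U d) (S.P d - S.P d) = 0 := by
  rw [sub_self, det3_zero_right]

theorem L_nx (d : S.D) : det3 (S.nrm (S.fc d)) (S.U d) (S.P (S.nx d) - S.P d) = 0 :=
  det3_self _ _

theorem L_nonneg {d d' : S.D} (h : S.fc d = S.fc d') :
    0 ≤ det3 (S.nrm (S.fc d)) (S.U d) (S.P d' - S.P d) := by
  by_cases h1 : d' = d
  · subst h1
    rw [S.L_self]
  · by_cases h2 : d' = S.nx d
    · subst h2
      rw [S.L_nx]
    · exact (S.convex d d' h h1 h2).le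

theorem L_zero {d d' : S.D} (h : S.fc d = S.fc d')
    (h0 : det3 (S.nrm (S.fc d)) (S.U d) (S.P d' - S.P d) = 0) : d' = d ∨ d' = S.nx d := by
  by_contra hc
  push Not at hc
  exact absurd h0 (S.convex d d' h hc.1 hc.2).ne'

/-- The set of corners of a face. -/
def T (i : S.ι) : Set E3 := {p | ∃ d, S.fc d = i ∧ S.pos (S.src d) = p}

theorem face_def (i : S.ι) : S.face i = convexHull ℝ (S.T i) := rfl

theorem P_mem_T (d : S.D) : S.P d ∈ S.T (S.fc d) := ⟨d, rfl, rfl⟩

theorem P_mem_T' {d d' : S.D} (h : S.fc d' = S.fc d) : S.P d' ∈ S.T (S.fc d) := ⟨d', h, rfl⟩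

theorem P_mem_face (d : S.D) : S.P d ∈ S.face (S.fc d) := subset_convexHull _ _ (S.P_mem_T d)

theorem P_nx_mem_face (d : S.D) : S.P (S.nx d) ∈ S.face (S.fc d) :=
  subset_convexHull _ _ (S.P_mem_T' (S.fc_nx d))

theorem side_def (d : S.D) : S.side d = segment ℝ (S.P d) (S.P (S.nx d)) := rfl

/-- The linear form defining a side: it is at most its value at the start of the dart. -/
theorem form_le (d : S.D) : ∀ p ∈ S.T (S.fc d), (-(detL (S.nrm (S.fc d)) (S.U d))) p ≤
    (-(detL (S.nrm (S.fc d)) (S.U d))) (S.P d) := by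
  rintro p ⟨d', h, rfl⟩
  have := S.L_nonneg h.symm
  rw [← detL_apply, map_sub] at this
  rw [LinearMap.neg_apply, LinearMap.neg_apply]
  change - detL _ _ (S.P d') ≤ _
  linarith

theorem side_eq (d : S.D) : {x | x ∈ S.face (S.fc d) ∧
    (-(detL (S.nrm (S.fc d)) (S.U d))) x = (-(detL (S.nrm (S.fc d)) (S.U d))) (S.P d)} =
      S.side d := by
  rw [S.face_def, hull_max _ _ (S.form_le d), S.side_def, ← convexHull_pair]
  congr 1
  ext p
  constructor
  · rintro ⟨⟨d', h, rfl⟩, h2⟩
    rw [LinearMap.neg_apply, LinearMap.neg_apply] at h2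
    have h3 : det3 (S.nrm (S.fc d)) (S.U d) (S.P d' - S.P d) = 0 := by
      rw [← detL_apply, map_sub]
      change - detL _ _ (S.P d') = _ at h2
      linarith
    rcases S.L_zero h.symm h3 with h4 | h4
    · subst h4
      exact Set.mem_insert _ _
    · subst h4
      exact Set.mem_insert_of_mem _ rfl
  · rintro (h | h)
    · subst h
      exact ⟨S.P_mem_T d, rfl⟩
    · rw [Set.mem_singleton_iff] at h
      subst h
      refine ⟨S.P_mem_T' (S.fc_nx d), ?_⟩
      have := S.L_nx d
      rw [← detL_apply, map_sub] at this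
      rw [LinearMap.neg_apply, LinearMap.neg_apply]
      linarith

theorem mem_side_iff (d : S.D) (x : E3) : x ∈ S.side d ↔
    x ∈ S.face (S.fc d) ∧ det3 (S.nrm (S.fc d)) (S.U d) (x - S.P d) = 0 := by
  rw [← S.side_eq, Set.mem_ofPred_eq, ← detL_apply, map_sub, LinearMap.neg_apply,
    LinearMap.neg_apply, neg_inj, sub_eq_zero]

theorem L_face_nonneg {d : S.D} {x : E3} (hx : x ∈ S.face (S.fc d)) :
    0 ≤ det3 (S.nrm (S.fc d)) (S.U d) (x - S.P d) := by
  have := hull_le _ _ (S.form_le d) hx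
  rw [LinearMap.neg_apply, LinearMap.neg_apply] at this
  rw [← detL_apply, map_sub]
  linarith

theorem side_exposed (d : S.D) : IsExposed ℝ (S.face (S.fc d)) (S.side d) := by
  intro _
  refine ⟨LinearMap.toContinuousLinearMap (-(detL (S.nrm (S.fc d)) (S.U d))), ?_⟩
  rw [← S.side_eq]
  exact (max_set _ _ (S.form_le d) ⟨_, S.P_mem_T d, rfl⟩).symm

theorem isSide_side (d : S.D) : IsSide (S.side d) (S.face (S.fc d)) :=
  ⟨S.side_exposed d, _, _, (S.P_ne d).symm, rfl⟩

theorem side_op (d : S.D) : S.side (S.op d) = S.side d := by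
  have h1 : S.P (S.op d) = S.P (S.nx d) := by
    unfold P
    rw [S.src_op]
  have h2 : S.P (S.nx (S.op d)) = S.P d := by
    unfold P
    rw [← S.src_op (S.op d), S.op_op]
  rw [S.side_def, S.side_def, h1, h2, segment_symm]

theorem isSide_op (d : S.D) : IsSide (S.side d) (S.face (S.fc (S.op d))) := by
  rw [← S.side_op]
  exact S.isSide_side _

theorem side_unique {d d' : S.D} (h : S.side d = S.side d') : d' = d ∨ d' = S.op d := by
  rw [S.side_def, S.side_def] at h
  rcases segment_ends h with ⟨h1, h2⟩ | ⟨h1, h2⟩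
  · left
    exact (S.dart_inj d d' (S.pos_inj h1) (S.pos_inj h2)).symm
  · right
    have h3 : S.src d = S.src (S.op d') := by
      rw [S.src_op]
      exact S.pos_inj h1
    have h4 : S.src (S.nx d) = S.src (S.nx (S.op d')) := by
      rw [← S.src_op (S.op d'), S.op_op]
      exact S.pos_inj h2
    have := S.dart_inj d (S.op d') h3 h4
    rw [this, S.op_op]

theorem orth_P {d d' : S.D} (h : S.fc d = S.fc d') :
    inner ℝ (S.nrm (S.fc d)) (S.P d' - S.P d) = 0 := S.plane d d' h

theorem orth_U (d : S.D) : inner ℝ (S.nrm (S.fc d)) (S.U d) = 0 :=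
  S.orth_P (S.fc_nx d).symm

theorem face_plane {d : S.D} {x : E3} (hx : x ∈ S.face (S.fc d)) :
    inner ℝ (S.nrm (S.fc d)) (x - S.P d) = 0 := by
  rw [inner_sub_right, sub_eq_zero]
  refine convexHull_min (t := {x | inner ℝ (S.nrm (S.fc d)) x =
    inner ℝ (S.nrm (S.fc d)) (S.P d)}) ?_ ?_ hx
  · rintro p ⟨d', h, rfl⟩
    have := S.orth_P h.symm
    rw [inner_sub_right, sub_eq_zero] at this
    exact this
  · exact convex_hyperplane (f := fun x => inner ℝ (S.nrm (S.fc d)) x)
      ⟨fun x y => inner_add_right _ _ _, fun c x => real_inner_smul_right _ _ _⟩ _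

/-- A face is not contained in a segment. -/
theorem face_not_segment (d : S.D) (a b : E3) (h : S.face (S.fc d) ⊆ segment ℝ a b) : False := by
  have h0 := h (S.P_mem_face d)
  have h1 := h (S.P_nx_mem_face d)
  have h2 : S.P (S.nx (S.nx d)) ∈ segment ℝ a b :=
    h (subset_convexHull _ _ (S.P_mem_T' (by rw [S.fc_nx, S.fc_nx])))
  rw [segment_eq_image'] at h0 h1 h2
  obtain ⟨r, -, hr⟩ := h0
  obtain ⟨s, -, hs⟩ := h1
  obtain ⟨t, -, ht⟩ := h2
  have h3 := S.pos3 d
  have e1 : S.U d = (s - r) • (b - a) := by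
    unfold U
    rw [← hr, ← hs]
    module
  have e2 : S.P (S.nx (S.nx d)) - S.P d = (t - r) • (b - a) := by
    rw [← hr, ← ht]
    module
  rw [e1, e2] at h3
  have e3 : det3 (S.nrm (S.fc d)) ((s - r) • (b - a)) ((t - r) • (b - a)) = 0 := by
    simp only [det3_eq, PiLp.smul_apply, smul_eq_mul]
    ring
  rw [e3] at h3
  exact lt_irrefl _ h3

/-- The dart before `d` sees a positive determinant. -/
theorem pos_prev {d e : S.D} (h : S.nx e = d) :
    0 < det3 (S.nrm (S.fc d)) (S.U d) (S.P e - S.P d) := by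
  have hf : S.fc d = S.fc e := by rw [← h, S.fc_nx]
  refine S.convex d e hf ?_ ?_
  · intro he
    exact S.nx_ne e (h.trans he.symm)
  · intro he
    exact S.nx_nx d (by rw [← he, h])

theorem side_inter {d e : S.D} (h : S.nx e = d) : S.side d ∩ S.side e = {S.P d} := by
  have hf : S.fc e = S.fc d := by rw [← h, S.fc_nx]
  ext x
  rw [Set.mem_inter_iff, Set.mem_singleton_iff, S.mem_side_iff, S.mem_side_iff]
  constructor
  · rintro ⟨⟨h1, h2⟩, ⟨h3, h4⟩⟩
    have hU : S.U e = S.P d - S.P e := by rw [← h]; rfl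
    have h5 : det3 (S.nrm (S.fc d)) (S.U e) (x - S.P d) = 0 := by
      have e1 : x - S.P d = (x - S.P e) - S.U e := by rw [hU]; abel
      rw [e1, ← detL_apply, map_sub, detL_apply, detL_apply, det3_self, sub_zero, ← hf]
      exact h4
    have hp := S.pos_prev h
    have h6 : det3 (S.nrm (S.fc d)) (S.U d) (S.U e) ≠ 0 := by
      have : S.U e = - (S.P e - S.P d) := by rw [hU]; abel
      rw [this, ← detL_apply, map_neg, detL_apply]
      linarith
    have hUe : inner ℝ (S.nrm (S.fc d)) (S.U e) = 0 := by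
      rw [← hf]
      exact S.orth_U e
    have h7 := cramer (S.nrm_ne (S.fc d)) (S.orth_U d) hUe (S.face_plane h1)
    rw [h2, zero_smul, add_zero, det3_swap _ (x - S.P d), h5, neg_zero, zero_smul] at h7
    exact sub_eq_zero.1 ((smul_eq_zero.1 h7).resolve_left h6)
  · rintro rfl
    refine ⟨⟨S.P_mem_face d, S.L_self d⟩, ⟨?_, ?_⟩⟩
    · rw [hf]
      exact S.P_mem_face d
    · rw [← h]
      exact S.L_nx e

/-- The corners of the face `i` are the starting points of its darts. -/
theorem isCorner_iff (i : S.ι) (v : E3) :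
    IsCorner v (S.face i) ↔ ∃ d, S.fc d = i ∧ S.pos (S.src d) = v := by
  constructor
  · intro h
    have h2 : v ∈ S.T i := extremePoints_convexHull_subset h
    exact h2
  · rintro ⟨d, rfl, rfl⟩
    obtain ⟨e, he⟩ := S.nx.surjective d
    have hf : S.fc e = S.fc d := by rw [← he, S.fc_nx]
    have h1 := (S.side_exposed d).isExtreme
    have h2 := (S.side_exposed e).isExtreme
    rw [hf] at h2
    have h3 := h1.inter h2
    rw [S.side_inter he] at h3
    exact isExtreme_singleton.1 h3

theorem vectorSpan_face (i : S.ι) :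
    vectorSpan ℝ (S.face i) = (Submodule.span ℝ {S.nrm i})ᗮ := by
  obtain ⟨d, rfl⟩ := S.fc_surj i
  apply le_antisymm
  · rw [vectorSpan_def, Submodule.span_le]
    rintro _ ⟨x, hx, y, hy, rfl⟩
    rw [SetLike.mem_coe, Submodule.mem_orthogonal_singleton_iff_inner_right]
    have e1 : x -ᵥ y = (x - S.P d) - (y - S.P d) := by
      rw [vsub_eq_sub]
      abel
    change inner ℝ (S.nrm (S.fc d)) (x -ᵥ y) = 0
    rw [e1, inner_sub_right, S.face_plane hx, S.face_plane hy, sub_zero]
  · intro w hw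
    rw [Submodule.mem_orthogonal_singleton_iff_inner_right] at hw
    have hv : inner ℝ (S.nrm (S.fc d)) (S.P (S.nx (S.nx d)) - S.P d) = 0 :=
      S.orth_P (by rw [S.fc_nx, S.fc_nx])
    have h7 := cramer (S.nrm_ne (S.fc d)) (S.orth_U d) hv hw
    have hp := S.pos3 d
    have m1 : S.U d ∈ vectorSpan ℝ (S.face (S.fc d)) :=
      vsub_mem_vectorSpan ℝ (S.P_nx_mem_face d) (S.P_mem_face d)
    have m2 : S.P (S.nx (S.nx d)) - S.P d ∈ vectorSpan ℝ (S.face (S.fc d)) :=
      vsub_mem_vectorSpan ℝ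
        (subset_convexHull _ _ (S.P_mem_T' (by rw [S.fc_nx, S.fc_nx]))) (S.P_mem_face d)
    rw [← inv_smul_smul₀ hp.ne' w, h7]
    exact Submodule.smul_mem _ _ (Submodule.add_mem _ (Submodule.smul_mem _ _ m1)
      (Submodule.smul_mem _ _ m2))

theorem finrank_face (i : S.ι) : Module.finrank ℝ (vectorSpan ℝ (S.face i)) = 2 := by
  rw [S.vectorSpan_face]
  have : Fact (Module.finrank ℝ E3 = 2 + 1) := ⟨by simp⟩
  exact Submodule.finrank_orthogonal_span_singleton (S.nrm_ne i)

theorem isSide_iff_mp (i : S.ι) (e : Set E3) (h : IsSide e (S.face i)) :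
    ∃ d, S.fc d = i ∧ S.side d = e := by
  classical
  obtain ⟨hexp, a, b, hab, rfl⟩ := h
  obtain ⟨l0, hl0⟩ := hexp ⟨a, left_mem_segment ℝ a b⟩
  let l : E3 →ₗ[ℝ] ℝ := l0.toLinearMap
  have hne : (Finset.univ.filter (fun d => S.fc d = i)).Nonempty := by
    obtain ⟨d, hd⟩ := S.fc_surj i
    exact ⟨d, by simp [hd]⟩
  obtain ⟨d0, hd0, hmax⟩ := Finset.exists_max_image _ (fun d => l (S.P d)) hne
  obtain ⟨m, hm⟩ : ∃ m, m = l (S.P d0) := ⟨_, rfl⟩
  have hd0 : S.fc d0 = i := by simpa using hd0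
  have hle : ∀ d, S.fc d = i → l (S.P d) ≤ m := by
    intro d hd
    rw [hm]
    exact hmax d (by simp [hd])
  have hT : ∀ p ∈ S.T i, l p ≤ m := by
    rintro p ⟨d, hd, rfl⟩
    exact hle d hd
  have hset : segment ℝ a b = {x | x ∈ S.face i ∧ l x = m} := by
    rw [hl0]
    exact max_set l m hT ⟨S.P d0, ⟨d0, hd0, rfl⟩, hm.symm⟩
  have hset2 : segment ℝ a b = convexHull ℝ {p | p ∈ S.T i ∧ l p = m} := by
    rw [hset]
    exact hull_max l m hT
  -- the form is not constant on the face
  have hnc : ¬ ∀ d, S.fc d = i → l (S.P d) = m := by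
    intro hc
    apply S.face_not_segment d0 a b
    rw [hd0, hset2, S.face_def]
    apply convexHull_mono
    rintro p ⟨d, hd, rfl⟩
    exact ⟨⟨d, hd, rfl⟩, hc d hd⟩
  -- there are two consecutive darts at which the form is greatest
  have hcons : ∃ d, S.fc d = i ∧ l (S.P d) = m ∧ l (S.P (S.nx d)) = m := by
    by_contra hcon
    push Not at hcon
    obtain ⟨e, he⟩ := S.nx.surjective d0
    have hfe : S.fc e = i := by rw [← S.fc_nx, he, hd0]
    have h1 : l (S.P (S.nx d0)) < m :=
      lt_of_le_of_ne (hle _ (by rw [S.fc_nx, hd0])) (hcon d0 hd0 hm.symm)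
    have h2 : l (S.P e) < m := by
      refine lt_of_le_of_ne (hle _ hfe) (fun h => ?_)
      apply hcon e hfe h
      rw [he, hm]
    have huniq : ∀ d, S.fc d = i → l (S.P d) = m → d = d0 := by
      intro d hd hdm
      have hu : l (S.U d0) < 0 := by
        unfold U
        rw [map_sub]
        linarith
      have hv : l (S.P e - S.P d0) < 0 := by
        rw [map_sub]
        linarith
      have hw : l (S.P d - S.P d0) = 0 := by
        rw [map_sub]
        linarith
      have hp := S.pos_prev he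
      have c1 := S.L_nonneg (d := d0) (d' := d) (by rw [hd0, hd])
      have c2 := S.L_nonneg (d := e) (d' := d) (by rw [hfe, hd])
      have hUe : S.U e = S.P d0 - S.P e := by rw [← he]; rfl
      have e1 : S.P d - S.P e = (S.P d - S.P d0) + S.U e := by rw [hUe]; abel
      rw [e1, ← detL_apply, map_add, detL_apply, detL_apply, det3_self, add_zero, hfe, ← hd0] at c2
      have e2 : S.P e - S.P d0 = - S.U e := by rw [hUe]; abel
      have c3 : det3 (S.nrm (S.fc d0)) (S.P d - S.P d0) (S.P e - S.P d0) =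
          det3 (S.nrm (S.fc d0)) (S.U e) (S.P d - S.P d0) := by
        rw [e2, det3_swap, det3_neg_mid, neg_neg]
      have hcr := cramer (S.nrm_ne (S.fc d0)) (S.orth_U d0)
        (S.orth_P (d := d0) (d' := e) (by rw [hd0, hfe]))
        (S.orth_P (d := d0) (d' := d) (by rw [hd0, hd]))
      rw [c3] at hcr
      have hcrl := congrArg l hcr
      rw [map_add, map_smul, map_smul, map_smul, hw, smul_zero, smul_eq_mul, smul_eq_mul] at hcrl
      have z1 : det3 (S.nrm (S.fc d0)) (S.U e) (S.P d - S.P d0) = 0 := by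
        by_contra hz
        have : 0 < det3 (S.nrm (S.fc d0)) (S.U e) (S.P d - S.P d0) := lt_of_le_of_ne c2 (Ne.symm hz)
        nlinarith
      have z2 : det3 (S.nrm (S.fc d0)) (S.U d0) (S.P d - S.P d0) = 0 := by
        by_contra hz
        have : 0 < det3 (S.nrm (S.fc d0)) (S.U d0) (S.P d - S.P d0) :=
          lt_of_le_of_ne c1 (Ne.symm hz)
        nlinarith
      rw [z1, z2, zero_smul, zero_smul, add_zero] at hcr
      exact S.P_inj_face (by rw [hd, hd0]) (sub_eq_zero.1 ((smul_eq_zero.1 hcr).resolve_left hp.ne'))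
    have hsing : {p | p ∈ S.T i ∧ l p = m} = {S.P d0} := by
      ext p
      constructor
      · rintro ⟨⟨d, hd, rfl⟩, hlp⟩
        rw [huniq d hd hlp]
        rfl
      · intro hp
        rw [Set.mem_singleton_iff] at hp
        subst hp
        exact ⟨⟨d0, hd0, rfl⟩, hm.symm⟩
    rw [hsing, convexHull_singleton] at hset2
    have ha : a ∈ segment ℝ a b := left_mem_segment ℝ a b
    have hb : b ∈ segment ℝ a b := right_mem_segment ℝ a b
    rw [hset2, Set.mem_singleton_iff] at ha hb
    exact hab (ha.trans hb.symm)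
  obtain ⟨d, hd, hd1, hd2⟩ := hcons
  refine ⟨d, hd, ?_⟩
  subst hd
  rw [hset]
  have hu : l (S.U d) = 0 := by
    unfold U
    rw [map_sub]
    linarith
  have hp := S.pos3 d
  have hcr : ∀ x ∈ S.face (S.fc d), det3 (S.nrm (S.fc d)) (S.U d)
      (S.P (S.nx (S.nx d)) - S.P d) * (l x - m) =
      det3 (S.nrm (S.fc d)) (S.U d) (x - S.P d) * l (S.P (S.nx (S.nx d)) - S.P d) := by
    intro x hx
    have hcr := cramer (S.nrm_ne (S.fc d)) (S.orth_U d)
        (S.orth_P (d := d) (d' := S.nx (S.nx d)) (by rw [S.fc_nx, S.fc_nx]))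
        (S.face_plane hx)
    have hcrl := congrArg l hcr
    rw [map_add, map_smul, map_smul, map_smul, hu, smul_zero, zero_add, smul_eq_mul,
      smul_eq_mul, map_sub l x, hd1] at hcrl
    exact hcrl
  have hv : l (S.P (S.nx (S.nx d)) - S.P d) ≠ 0 := by
    intro h0
    apply hnc
    intro d' hd'
    have := hcr (S.P d') (by rw [← hd']; exact S.P_mem_face d')
    rw [h0, mul_zero] at this
    have := (mul_eq_zero.1 this).resolve_left hp.ne'
    linarith
  ext x
  rw [S.mem_side_iff, Set.mem_ofPred_eq]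
  constructor
  · rintro ⟨h1, h2⟩
    refine ⟨h1, ?_⟩
    have := hcr x h1
    rw [h2, zero_mul] at this
    have := (mul_eq_zero.1 this).resolve_left hp.ne'
    linarith
  · rintro ⟨h1, h2⟩
    refine ⟨h1, ?_⟩
    have := hcr x h1
    rw [h2, sub_self, mul_zero] at this
    exact (mul_eq_zero.1 this.symm).resolve_right hv

/-- The sides of the face `i` are the sides of its darts. -/
theorem isSide_iff (i : S.ι) (e : Set E3) :
    IsSide e (S.face i) ↔ ∃ d, S.fc d = i ∧ S.side d = e := by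
  constructor
  · exact S.isSide_iff_mp i e
  · rintro ⟨d, rfl, rfl⟩
    exact S.isSide_side d

theorem face_injective : Function.Injective S.face := by
  intro i j hij
  by_contra hne
  obtain ⟨d, rfl⟩ := S.fc_surj i
  have hsub : ∃ a b, S.face (S.fc d) ⊆ segment ℝ a b := by
    have hi : S.face (S.fc d) = S.face (S.fc d) ∩ S.face j := by rw [← hij, Set.inter_self]
    rcases S.inter (S.fc d) j hne with h | ⟨d1, d2, -, -, -, h⟩ | ⟨d1, -, -, h⟩
    · refine ⟨0, 0, ?_⟩
      rw [hi]
      change S.face (S.fc d) ∩ S.face j = ∅ at h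
      rw [h]
      exact Set.empty_subset _
    · refine ⟨S.pos (S.src d1), S.pos (S.src d1), ?_⟩
      rw [hi]
      change S.face (S.fc d) ∩ S.face j = _ at h
      rw [h, segment_same]
    · refine ⟨S.pos (S.src d1), S.pos (S.src (S.nx d1)), ?_⟩
      rw [hi]
      change S.face (S.fc d) ∩ S.face j = _ at h
      rw [h]
  obtain ⟨a, b, hab⟩ := hsub
  exact S.face_not_segment d a b hab

theorem adjacent_of_dart (d : S.D) : Adjacent (S.face (S.fc d)) (S.face (S.fc (S.op d))) :=
  ⟨fun h => S.fc_op d (S.face_injective h).symm, S.side d, S.isSide_side d, S.isSide_op d⟩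

/-- A common side of two different faces comes from a dart and its opposite. -/
theorem common_side {i j : S.ι} (hij : i ≠ j) {e : Set E3} (h1 : IsSide e (S.face i))
    (h2 : IsSide e (S.face j)) : ∃ d, S.fc d = i ∧ S.fc (S.op d) = j ∧ S.side d = e := by
  obtain ⟨d, hd, rfl⟩ := (S.isSide_iff i e).1 h1
  obtain ⟨d', hd', h⟩ := (S.isSide_iff j _).1 h2
  rcases S.side_unique h.symm with h3 | h3
  · exact absurd (hd.symm.trans ((congrArg S.fc h3).symm.trans hd')) hij
  · exact ⟨d, hd, by rw [← h3, hd'], rfl⟩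

theorem src_chain (x : S.D) : S.src (S.nx (S.op x)) = S.src x := by
  rw [← S.src_op, S.op_op]

theorem coherent_aux (d : S.D) : Coherent (S.nrm (S.fc d)) (S.nrm (S.fc (S.op d)))
    (S.face (S.fc d)) (S.face (S.fc (S.op d))) := by
  intro a b hab h1 h2 x hx hxs x' hx' hxs'
  have hne : S.fc d ≠ S.fc (S.op d) := (S.fc_op d).symm
  obtain ⟨d1, hd1, hd2, hside⟩ := S.common_side hne h1 h2
  have p1 : 0 < det3 (S.nrm (S.fc d)) (S.U d1) (x - S.P d1) := by
    rw [← hd1]
    rw [← hd1] at hx
    refine lt_of_le_of_ne (S.L_face_nonneg hx) (fun h0 => hxs ?_)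
    rw [← hside, S.mem_side_iff]
    exact ⟨hx, h0.symm⟩
  have p2 : 0 < det3 (S.nrm (S.fc (S.op d))) (S.U (S.op d1)) (x' - S.P (S.op d1)) := by
    rw [← hd2]
    rw [← hd2] at hx'
    refine lt_of_le_of_ne (S.L_face_nonneg hx') (fun h0 => hxs' ?_)
    rw [← hside, ← S.side_op, S.mem_side_iff]
    exact ⟨hx', h0.symm⟩
  have e1 : S.P (S.op d1) = S.P (S.nx d1) := by
    unfold P
    rw [S.src_op]
  have e2 : S.P (S.nx (S.op d1)) = S.P d1 := by
    unfold P
    rw [S.src_chain]
  have e3 : S.U (S.op d1) = -(S.U d1) := by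
    unfold U
    rw [e1, e2]
    abel
  have e4 : x' - S.P (S.op d1) = (x' - S.P d1) - S.U d1 := by
    rw [e1]
    unfold U
    abel
  rw [e3, e4, det3_neg_mid, ← detL_apply, map_sub, detL_apply, detL_apply, det3_self, sub_zero]
    at p2
  rw [S.side_def] at hside
  rcases segment_ends hside with ⟨q1, q2⟩ | ⟨q1, q2⟩
  · have e5 : b - a = S.U d1 := by rw [← q1, ← q2]; rfl
    rw [e5, ← q1]
    exact mul_neg_of_pos_of_neg p1 (by linarith)
  · have e5 : b - a = -(S.U d1) := by
      rw [← q1, ← q2]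
      unfold U
      abel
    have e6 : ∀ y, y - a = (y - S.P d1) - S.U d1 := by
      intro y
      rw [← q2]
      unfold U
      abel
    rw [e5, e6, e6, det3_neg_mid, det3_neg_mid, ← detL_apply, map_sub, detL_apply, detL_apply,
      det3_self, sub_zero, ← detL_apply (S.nrm (S.fc (S.op d))), map_sub, detL_apply, detL_apply,
      det3_self, sub_zero]
    exact mul_neg_of_neg_of_pos (by linarith) (by linarith)

theorem card_sides : 2 * (Set.range S.side).ncard = Fintype.card S.D := by
  classical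
  have h1 : (Set.range S.side).ncard = (Finset.univ.image S.side).card := by
    rw [← Set.ncard_coe_finset]
    simp
  rw [h1, ← Finset.card_univ, Finset.card_eq_sum_card_fiberwise
    (f := S.side) (t := Finset.univ.image S.side)
    (fun x _ => by simp)]
  rw [Finset.sum_const_nat (m := 2), mul_comm]
  intro e he
  obtain ⟨d, -, rfl⟩ := Finset.mem_image.1 he
  have : (Finset.univ.filter (fun x => S.side x = S.side d)) = {d, S.op d} := by
    ext x
    simp only [Finset.mem_filter, Finset.mem_univ, true_and, Finset.mem_insert,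
      Finset.mem_singleton]
    constructor
    · intro h
      exact S.side_unique h.symm
    · rintro (rfl | rfl)
      · rfl
      · exact S.side_op d
  rw [this, Finset.card_pair]
  intro h
  exact S.fc_op d (congrArg S.fc h).symm

theorem isPolytope : IsPolytope g (Set.range S.face) := by
  classical
  refine ⟨Set.finite_range _, ?_, ?_, ?_, ?_, ?_, ?_, ?_, ?_, ?_⟩
  · obtain ⟨d⟩ := S.nonempty
    exact ⟨_, S.fc d, rfl⟩
  · rintro _ ⟨i, rfl⟩
    refine ⟨⟨S.T i, ?_, rfl⟩, S.finrank_face i⟩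
    refine (Set.finite_range S.P).subset ?_
    rintro p ⟨d, -, rfl⟩
    exact ⟨d, rfl⟩
  · rintro _ ⟨i, rfl⟩ _ ⟨j, rfl⟩ hne
    have hij : i ≠ j := fun h => hne (by rw [h])
    rcases S.inter i j hij with h | ⟨d1, d2, h1, h2, h3, h⟩ | ⟨d, h1, h2, h⟩
    · left
      exact h
    · right; left
      refine ⟨S.P d1, h, (S.isCorner_iff _ _).2 ⟨d1, h1, rfl⟩, (S.isCorner_iff _ _).2
        ⟨d2, h2, ?_⟩⟩
      rw [← h3]
      rfl
    · right; right
      change S.face i ∩ S.face j = S.side d at h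
      rw [h]
      exact ⟨(S.isSide_iff _ _).2 ⟨d, h1, rfl⟩, (S.isSide_iff _ _).2 ⟨S.op d, h2, S.side_op d⟩⟩
  · rintro _ ⟨i, rfl⟩ e he
    obtain ⟨d, rfl, rfl⟩ := (S.isSide_iff i e).1 he
    refine ⟨S.face (S.fc (S.op d)), ⟨⟨_, rfl⟩, fun h => S.fc_op d (S.face_injective h),
      S.isSide_op d⟩, ?_⟩
    rintro _ ⟨⟨j, rfl⟩, h1, h2⟩
    have hij : S.fc d ≠ j := fun h => h1 (by rw [h])
    obtain ⟨d1, h3, h4, h5⟩ := S.common_side hij he h2
    rcases S.side_unique h5.symm with h6 | h6
    · rw [← h4, h6]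
    · exfalso
      apply S.fc_op d
      rw [← h6, h3]
  · rintro v _ ⟨i, rfl⟩ _ ⟨j, rfl⟩ h1 h2
    obtain ⟨d, rfl, hd⟩ := (S.isCorner_iff i v).1 h1
    obtain ⟨d', rfl, hd'⟩ := (S.isCorner_iff j v).1 h2
    have hs : S.src d = S.src d' := S.pos_inj (hd.trans hd'.symm)
    have hc := S.link d d' hs
    clear h1 h2 hs hd'
    induction hc with
    | refl => exact Relation.ReflTransGen.refl
    | @tail x y hx hxy ih =>
      refine ih.tail ?_
      have hsrc : S.src x = S.src d := by
        clear ih hxy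
        induction hx with
        | refl => rfl
        | @tail p q hp hpq ih2 =>
          rw [hpq, S.src_chain]
          exact ih2
      have hfy : S.fc y = S.fc (S.op x) := by rw [hxy, S.fc_nx]
      rw [hfy]
      refine ⟨⟨_, rfl⟩, ⟨_, rfl⟩, fun h => S.fc_op x (S.face_injective h).symm, S.side x, ?_,
        S.isSide_side x, S.isSide_op x⟩
      rw [← hd, ← hsrc]
      exact left_mem_segment ℝ _ _
  · rintro _ ⟨i, rfl⟩ _ ⟨j, rfl⟩
    have hc := S.conn i j
    induction hc with
    | refl => exact Relation.ReflTransGen.refl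
    | @tail a b ha hab ih =>
      refine ih.tail ?_
      obtain ⟨d, rfl, rfl⟩ := hab
      exact ⟨⟨_, rfl⟩, ⟨_, rfl⟩, S.adjacent_of_dart d⟩
  · refine ⟨fun f => if h : ∃ i, S.face i = f then S.nrm h.choose else 0, ?_, ?_⟩
    · rintro _ ⟨i, rfl⟩
      have h : ∃ j, S.face j = S.face i := ⟨i, rfl⟩
      have hi : h.choose = i := S.face_injective h.choose_spec
      simp only [dif_pos h, hi]
      refine ⟨S.nrm_ne i, ?_⟩
      obtain ⟨d, rfl⟩ := S.fc_surj i
      intro x hx y hy
      have e1 : y - x = (y - S.P d) - (x - S.P d) := by abel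
      rw [e1, inner_sub_right, S.face_plane hx, S.face_plane hy, sub_zero]
    · rintro _ ⟨i, rfl⟩ _ ⟨j, rfl⟩ hadj
      have h : ∃ k, S.face k = S.face i := ⟨i, rfl⟩
      have hi : h.choose = i := S.face_injective h.choose_spec
      have h' : ∃ k, S.face k = S.face j := ⟨j, rfl⟩
      have hj : h'.choose = j := S.face_injective h'.choose_spec
      simp only [dif_pos h, dif_pos h', hi, hj]
      obtain ⟨hne, e, he1, he2⟩ := hadj
      have hij : i ≠ j := fun h => hne (by rw [h])
      obtain ⟨d, rfl, rfl, -⟩ := S.common_side hij he1 he2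
      exact S.coherent_aux d
  · rintro _ ⟨i, rfl⟩ _ ⟨j, rfl⟩ ⟨hne, e, he1, he2⟩ hcop
    have hij : i ≠ j := fun h => hne (by rw [h])
    obtain ⟨d, rfl, rfl, -⟩ := S.common_side hij he1 he2
    obtain ⟨d', hd', hb⟩ := S.bent d
    rw [coplanar_iff_finrank_le_two] at hcop
    have hle : vectorSpan ℝ (S.face (S.fc d)) ≤
        vectorSpan ℝ (S.face (S.fc d) ∪ S.face (S.fc (S.op d))) :=
      vectorSpan_mono ℝ Set.subset_union_left
    have heq := Submodule.eq_of_le_of_finrank_le hle (by rw [S.finrank_face]; exact hcop)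
    have hmem : S.P d' - S.P d ∈ vectorSpan ℝ (S.face (S.fc d)) := by
      rw [heq]
      refine vsub_mem_vectorSpan ℝ (Or.inr ?_) (Or.inl (S.P_mem_face d))
      rw [← hd']
      exact S.P_mem_face d'
    rw [S.vectorSpan_face, Submodule.mem_orthogonal_singleton_iff_inner_right] at hmem
    exact hb hmem
  · have h1 : ({v | ∃ f ∈ Set.range S.face, IsCorner v f} : Set E3) = Set.range S.pos := by
      ext v
      constructor
      · rintro ⟨_, ⟨i, rfl⟩, h⟩
        obtain ⟨d, -, hd⟩ := (S.isCorner_iff i v).1 h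
        exact ⟨_, hd⟩
      · rintro ⟨w, rfl⟩
        obtain ⟨d, rfl⟩ := S.src_surj w
        exact ⟨_, ⟨S.fc d, rfl⟩, (S.isCorner_iff _ _).2 ⟨d, rfl, rfl⟩⟩
    have h2 : ({e | ∃ f ∈ Set.range S.face, IsSide e f} : Set (Set E3)) = Set.range S.side := by
      ext e
      constructor
      · rintro ⟨_, ⟨i, rfl⟩, h⟩
        obtain ⟨d, -, hd⟩ := (S.isSide_iff i e).1 h
        exact ⟨_, hd⟩
      · rintro ⟨d, rfl⟩
        exact ⟨_, ⟨S.fc d, rfl⟩, S.isSide_side d⟩
    have h3 : (Set.range S.pos).ncard = Fintype.card S.V := by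
      rw [← Set.image_univ, Set.ncard_image_of_injective _ S.pos_inj, Set.ncard_univ,
        Nat.card_eq_fintype_card]
    have h4 : (Set.range S.face).ncard = Fintype.card S.ι := by
      rw [← Set.image_univ, Set.ncard_image_of_injective _ S.face_injective, Set.ncard_univ,
        Nat.card_eq_fintype_card]
    have h5 := S.card_sides
    have h6 := S.euler
    rw [h1, h2, h3, h4]
    omega

end DartSurface

end Pool.Agent.Lib.MP_93b2dd_co
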