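import Mathlib
import Pool.Agent.Lib.MP_93b2dd_co.Defs
import Pool.Agent.Lib.MP_93b2dd_co.Dart

/-!
# From a system of prisms over convex polygons to a closed polyhedral surface
-/

namespace Pool.Agent.Lib.MP_93b2dd_co

/-- Determinant of two plane vectors. -/
def det2 (u v : ℝ × ℝ) : ℝ := u.1 * v.2 - u.2 * v.1

/-- A system of prisms indexed by the vertices of a graph `G`.  The prism `w` lies over the convex
polygon with the vertices `q d`, `q d.symm` (`d.fst = w`), between the graph of the affine function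
`A w * x + B w * z + C w` and its translate by `-h`.  The prisms `w`, `w'` with `G.Adj w w'` share
the vertical rectangle over the segment `[q d.symm, q d]`, `d = (w, w')`. -/
structure PrismSystem (W : Type) (G : SimpleGraph W) where
  A : W → ℝ
  B : W → ℝ
  C : W → ℝ
  q : G.Dart → ℝ × ℝ
  nu : Equiv.Perm G.Dart
  h : ℝ
  h_pos : 0 < h
  nu_fst : ∀ d : G.Dart, (nu d).fst = d.fst
  nu_ne : ∀ d : G.Dart, nu d ≠ d
  touch : ∀ d : G.Dart, A d.fst * (q d).1 + B d.fst * (q d).2 + C d.fst =
    A d.snd * (q d).1 + B d.snd * (q d).2 + C d.snd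
  dir : ∀ d : G.Dart, ∃ k : ℝ, 0 < k ∧ q d - q d.symm = k • (B d.fst - B d.snd, -(A d.fst - A d.snd))
  above1 : ∀ d d' : G.Dart, d'.fst = d.fst → d' ≠ d →
    A d.snd * (q d').1 + B d.snd * (q d').2 + C d.snd <
      A d.fst * (q d').1 + B d.fst * (q d').2 + C d.fst
  above2 : ∀ d d' : G.Dart, d'.fst = d.fst → d' ≠ d →
    A d.snd * (q d'.symm).1 + B d.snd * (q d'.symm).2 + C d.snd <
      A d.fst * (q d'.symm).1 + B d.fst * (q d'.symm).2 + C d.fst
  gap1 : ∀ d d' : G.Dart, d'.fst = d.fst → d' ≠ d → 0 < det2 (q (nu d).symm - q d) (q d' - q d)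
  gap2 : ∀ d d' : G.Dart, d'.fst = d.fst → d' ≠ nu d → 0 < det2 (q (nu d).symm - q d) (q d'.symm - q d)
  sep : ∀ w w', w ≠ w' → ¬ G.Adj w w' → ∃ a b c e : ℝ,
    (∀ d : G.Dart, d.fst = w → ∀ t : ℝ, 0 ≤ t → t ≤ h →
      0 < a * (q d).1 + b * (q d).2 + c * (A w * (q d).1 + B w * (q d).2 + C w - t) + e ∧
      0 < a * (q d.symm).1 + b * (q d.symm).2 +
        c * (A w * (q d.symm).1 + B w * (q d.symm).2 + C w - t) + e) ∧
    (∀ d : G.Dart, d.fst = w' → ∀ t : ℝ, 0 ≤ t → t ≤ h →
      a * (q d).1 + b * (q d).2 + c * (A w' * (q d).1 + B w' * (q d).2 + C w' - t) + e < 0 ∧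
      a * (q d.symm).1 + b * (q d.symm).2 +
        c * (A w' * (q d.symm).1 + B w' * (q d.symm).2 + C w' - t) + e < 0)
  corner : ∀ d : G.Dart, det2 (q (nu.symm d.symm) - q d) (q (nu d).symm - q d) ≠ 0

/-! ### Affine functions on the convex hull -/

/-- affine function on `ℝ³` -/
def IsAff (f : E3 → ℝ) : Prop :=
  ∀ x y : E3, ∀ a b : ℝ, a + b = 1 → f (a • x + b • y) = a * f x + b * f y

theorem isAff_lin (a b c e : ℝ) : IsAff (fun x => a * x 0 + b * x 1 + c * x 2 + e) := by
  intro x y s t hst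
  have ht : t = 1 - s := by linarith
  subst ht
  simp only [PiLp.add_apply, PiLp.smul_apply, smul_eq_mul]
  ring

theorem IsAff.nonneg {f : E3 → ℝ} (hf : IsAff f) {S : Set E3} (h0 : ∀ x ∈ S, 0 ≤ f x) {x : E3}
    (hx : x ∈ convexHull ℝ S) : 0 ≤ f x := by
  have hsub : convexHull ℝ S ⊆ {x | 0 ≤ f x} := by
    refine convexHull_min h0 ?_
    intro y hy z hz a b ha hb hab
    simp only [Set.mem_ofPred_eq] at hy hz ⊢
    rw [hf y z a b hab]
    positivity
  exact hsub hx

theorem IsAff.pos {f : E3 → ℝ} (hf : IsAff f) {S : Set E3} (h0 : ∀ x ∈ S, 0 < f x) {x : E3}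
    (hx : x ∈ convexHull ℝ S) : 0 < f x := by
  have hsub : convexHull ℝ S ⊆ {x | 0 < f x} := by
    refine convexHull_min h0 ?_
    intro y hy z hz a b ha hb hab
    simp only [Set.mem_ofPred_eq] at hy hz ⊢
    rw [hf y z a b hab]
    rcases ha.lt_or_eq with ha' | ha'
    · nlinarith [mul_nonneg hb hz.le, mul_pos ha' hy]
    · rw [← ha'] at hab ⊢
      have : b = 1 := by linarith
      rw [this]; linarith
  exact hsub hx

theorem IsAff.neg {f : E3 → ℝ} (hf : IsAff f) : IsAff (fun x => - f x) := by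
  intro x y a b hab
  show - f (a • x + b • y) = a * (- f x) + b * (- f y)
  rw [hf x y a b hab]
  ring

theorem IsAff.sub_const {f : E3 → ℝ} (hf : IsAff f) (c : ℝ) : IsAff (fun x => f x - c) := by
  intro x y a b hab
  show f (a • x + b • y) - c = a * (f x - c) + b * (f y - c)
  rw [hf x y a b hab]
  have : b = 1 - a := by linarith
  rw [this]; ring

theorem IsAff.const_sub {f : E3 → ℝ} (hf : IsAff f) (c : ℝ) : IsAff (fun x => c - f x) := by
  intro x y a b hab
  show c - f (a • x + b • y) = a * (c - f x) + b * (c - f y)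
  rw [hf x y a b hab]
  have : b = 1 - a := by linarith
  rw [this]; ring

theorem IsAff.eq_const {f : E3 → ℝ} (hf : IsAff f) {S : Set E3} {c : ℝ} (h0 : ∀ x ∈ S, f x = c)
    {x : E3} (hx : x ∈ convexHull ℝ S) : f x = c := by
  have h1 := (hf.sub_const c).nonneg (S := S) (fun y hy => by rw [h0 y hy]; simp) hx
  have h2 := (hf.const_sub c).nonneg (S := S) (fun y hy => by rw [h0 y hy]; simp) hx
  linarith

/-- the zero set of a nonnegative affine function on a convex hull -/
theorem IsAff.mem_zero {f : E3 → ℝ} (hf : IsAff f) {S : Set E3} (h0 : ∀ x ∈ S, 0 ≤ f x) {x : E3}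
    (hx : x ∈ convexHull ℝ S) (hfx : f x = 0) : x ∈ convexHull ℝ {y | y ∈ S ∧ f y = 0} := by
  have hsub : convexHull ℝ S
      ⊆ {x | 0 ≤ f x ∧ (f x = 0 → x ∈ convexHull ℝ {y | y ∈ S ∧ f y = 0})} := by
    refine convexHull_min ?_ ?_
    · intro y hy
      exact ⟨h0 y hy, fun h => subset_convexHull ℝ _ ⟨hy, h⟩⟩
    · intro y hy z hz a b ha hb hab
      obtain ⟨hy1, hy2⟩ := hy
      obtain ⟨hz1, hz2⟩ := hz
      refine ⟨?_, ?_⟩
      · rw [hf y z a b hab]; positivity
      · intro h
        rw [hf y z a b hab] at h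
        have p1 : 0 ≤ a * f y := mul_nonneg ha hy1
        have p2 : 0 ≤ b * f z := mul_nonneg hb hz1
        have q1 : a * f y = 0 := by linarith
        have q2 : b * f z = 0 := by linarith
        rcases ha.lt_or_eq with ha' | ha'
        · rcases hb.lt_or_eq with hb' | hb'
          · have r1 : f y = 0 := by
              rcases mul_eq_zero.1 q1 with h | h
              · exact absurd h ha'.ne'
              · exact h
            have r2 : f z = 0 := by
              rcases mul_eq_zero.1 q2 with h | h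
              · exact absurd h hb'.ne'
              · exact h
            exact (convex_convexHull ℝ _) (hy2 r1) (hz2 r2) ha hb hab
          · have ha1 : a = 1 := by linarith
            rw [← hb', ha1, one_smul, zero_smul, add_zero]
            rw [ha1, one_mul] at q1
            exact hy2 q1
        · have hb1 : b = 1 := by linarith
          rw [← ha', hb1, one_smul, zero_smul, zero_add]
          rw [hb1, one_mul] at q2
          exact hz2 q2
  exact (hsub hx).2 hfx

theorem mem_segment_of_subset_pair {S : Set E3} {a b x : E3} (hS : ∀ y ∈ S, y = a ∨ y = b)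
    (hx : x ∈ convexHull ℝ S) : x ∈ segment ℝ a b := by
  rw [← convexHull_pair]
  refine convexHull_mono ?_ hx
  intro y hy
  rcases hS y hy with h | h
  · rw [h]; exact Set.mem_insert _ _
  · rw [h]; exact Set.mem_insert_of_mem _ rfl

namespace PrismSystem

variable {W : Type} {G : SimpleGraph W} (K : PrismSystem W G)

/-- height function of the wall `w` -/
def Y (w : W) (p : ℝ × ℝ) : ℝ := K.A w * p.1 + K.B w * p.2 + K.C w

/-- the vertex `(d, β)` in space -/
noncomputable def pos (v : G.Dart × Bool) : E3 :=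
  !₂[(K.q v.1).1, (K.q v.1).2, K.Y v.1.fst (K.q v.1) - (if v.2 then K.h else 0)]

/-- depth below the wall `w` -/
def H (w : W) (x : E3) : ℝ := K.A w * x 0 + K.B w * x 1 + K.C w - x 2

/-- difference of two walls -/
def L (d : G.Dart) (x : E3) : ℝ :=
  (K.A d.fst - K.A d.snd) * x 0 + (K.B d.fst - K.B d.snd) * x 1 + (K.C d.fst - K.C d.snd)

/-- the functional of the gap `d` -/
def Gf (d : G.Dart) (x : E3) : ℝ :=
  det2 (K.q (K.nu d).symm - K.q d) ((x 0, x 1) - K.q d)

theorem isAff_H (w : W) : IsAff (K.H w) := by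
  have := isAff_lin (K.A w) (K.B w) (-1) (K.C w)
  convert this using 2
  unfold H; ring

theorem isAff_L (d : G.Dart) : IsAff (K.L d) := by
  have := isAff_lin (K.A d.fst - K.A d.snd) (K.B d.fst - K.B d.snd) 0 (K.C d.fst - K.C d.snd)
  convert this using 2
  unfold L; ring

theorem isAff_Gf (d : G.Dart) : IsAff (K.Gf d) := by
  have := isAff_lin (-(K.q (K.nu d).symm - K.q d).2) ((K.q (K.nu d).symm - K.q d).1) 0
    ((K.q (K.nu d).symm - K.q d).2 * (K.q d).1 - (K.q (K.nu d).symm - K.q d).1 * (K.q d).2)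
  convert this using 2
  unfold Gf det2
  simp only [Prod.fst_sub, Prod.snd_sub]
  ring

@[simp] theorem pos_zero (v : G.Dart × Bool) : K.pos v 0 = (K.q v.1).1 := by
  simp [pos]

@[simp] theorem pos_one (v : G.Dart × Bool) : K.pos v 1 = (K.q v.1).2 := by
  simp [pos]

@[simp] theorem pos_two (v : G.Dart × Bool) :
    K.pos v 2 = K.Y v.1.fst (K.q v.1) - (if v.2 then K.h else 0) := by
  simp [pos]

theorem Y_symm (d : G.Dart) : K.Y d.snd (K.q d) = K.Y d.fst (K.q d) := (K.touch d).symm

theorem Y_symm' (d : G.Dart) : K.Y d.fst (K.q d.symm) = K.Y d.snd (K.q d.symm) := by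
  have := K.touch d.symm
  simpa [Y] using this.symm

/-- `H` at a vertex of the wall -/
theorem H_pos_fst {w : W} {d : G.Dart} (hd : d.fst = w) (β : Bool) :
    K.H w (K.pos (d, β)) = if β then K.h else 0 := by
  subst hd
  unfold H
  rw [pos_zero, pos_one, pos_two]
  unfold Y
  ring

theorem H_pos_snd {w : W} {d : G.Dart} (hd : d.fst = w) (β : Bool) :
    K.H w (K.pos (d.symm, β)) = if β then K.h else 0 := by
  subst hd
  unfold H
  rw [pos_zero, pos_one, pos_two]
  have h := K.Y_symm' d
  have e : d.symm.fst = d.snd := rfl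
  simp only [e]
  rw [← h]
  unfold Y
  ring

theorem L_pos (d : G.Dart) (v : G.Dart × Bool) :
    K.L d (K.pos v) = K.Y d.fst (K.q v.1) - K.Y d.snd (K.q v.1) := by
  unfold L Y
  rw [pos_zero, pos_one]
  ring

theorem L_self (d : G.Dart) (β : Bool) : K.L d (K.pos (d, β)) = 0 := by
  rw [L_pos]
  have := K.Y_symm d
  simp only
  linarith

theorem L_self_symm (d : G.Dart) (β : Bool) : K.L d (K.pos (d.symm, β)) = 0 := by
  rw [L_pos]
  have := K.Y_symm' d
  simp only
  linarith

theorem L_other (d d' : G.Dart) (h : d'.fst = d.fst) (hne : d' ≠ d) (β : Bool) :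
    0 < K.L d (K.pos (d', β)) := by
  rw [L_pos]
  have := K.above1 d d' h hne
  unfold Y
  simp only
  linarith

theorem L_other_symm (d d' : G.Dart) (h : d'.fst = d.fst) (hne : d' ≠ d) (β : Bool) :
    0 < K.L d (K.pos (d'.symm, β)) := by
  rw [L_pos]
  have := K.above2 d d' h hne
  unfold Y
  simp only
  linarith

theorem L_symm (d : G.Dart) (x : E3) : K.L d.symm x = - K.L d x := by
  unfold L
  have e1 : d.symm.fst = d.snd := rfl
  have e2 : d.symm.snd = d.fst := rfl
  rw [e1, e2]; ring

theorem H_sub_H (d : G.Dart) (x : E3) : K.H d.fst x - K.H d.snd x = K.L d x := by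
  unfold H L; ring

theorem Gf_pos (d : G.Dart) (v : G.Dart × Bool) :
    K.Gf d (K.pos v) = det2 (K.q (K.nu d).symm - K.q d) (K.q v.1 - K.q d) := by
  unfold Gf
  rw [pos_zero, pos_one]

theorem Gf_self (d : G.Dart) (β : Bool) : K.Gf d (K.pos (d, β)) = 0 := by
  rw [Gf_pos]; unfold det2; simp

theorem Gf_self_symm (d : G.Dart) (β : Bool) : K.Gf d (K.pos ((K.nu d).symm, β)) = 0 := by
  rw [Gf_pos]; unfold det2; simp; ring

theorem Gf_other (d d' : G.Dart) (h : d'.fst = d.fst) (hne : d' ≠ d) (β : Bool) :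
    0 < K.Gf d (K.pos (d', β)) := by
  rw [Gf_pos]
  exact K.gap1 d d' h hne

theorem Gf_other_symm (d d' : G.Dart) (h : d'.fst = d.fst) (hne : d' ≠ K.nu d) (β : Bool) :
    0 < K.Gf d (K.pos (d'.symm, β)) := by
  rw [Gf_pos]
  exact K.gap2 d d' h hne

end PrismSystem

/-- The directed sides of the surface over a prism system. -/
inductive PD {W : Type} (G : SimpleGraph W) : Type
  | tc (d : G.Dart) | tg (d : G.Dart) | bc (d : G.Dart) | bg (d : G.Dart)
  | gt (d : G.Dart) | gl (d : G.Dart) | gb (d : G.Dart) | gr (d : G.Dart)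

namespace PD

variable {W : Type} {G : SimpleGraph W}

/-- coding of the directed sides -/
def code : PD G → G.Dart × Fin 8
  | tc d => (d, 0) | tg d => (d, 1) | bc d => (d, 2) | bg d => (d, 3)
  | gt d => (d, 4) | gl d => (d, 5) | gb d => (d, 6) | gr d => (d, 7)

/-- decoding of the directed sides -/
def decode : G.Dart × Fin 8 → PD G
  | (d, 0) => tc d | (d, 1) => tg d | (d, 2) => bc d | (d, 3) => bg d
  | (d, 4) => gt d | (d, 5) => gl d | (d, 6) => gb d | (d, 7) => gr d

/-- the directed sides as a product -/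
def equiv : PD G ≃ G.Dart × Fin 8 where
  toFun := code
  invFun := decode
  left_inv := by intro x; cases x <;> rfl
  right_inv := by
    rintro ⟨d, i⟩
    fin_cases i <;> rfl

end PD

namespace PrismSystem

variable {W : Type} {G : SimpleGraph W} (K : PrismSystem W G)

open PD

/-- the face of a side -/
def fc : PD G → (W × Bool) ⊕ G.Dart
  | tc d => .inl (d.fst, false) | tg d => .inl (d.fst, false)
  | bc d => .inl (d.fst, true) | bg d => .inl (d.fst, true)
  | gt d => .inr d | gl d => .inr d | gb d => .inr d | gr d => .inr d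

/-- the next side -/
def nxF : PD G → PD G
  | tc d => tg d | tg d => tc (K.nu d) | bc d => bg (K.nu.symm d) | bg d => bc d
  | gt d => gl d | gl d => gb d | gb d => gr d | gr d => gt d

/-- the previous side -/
def nxI : PD G → PD G
  | tg d => tc d | tc d => tg (K.nu.symm d) | bg d => bc (K.nu d) | bc d => bg d
  | gl d => gt d | gb d => gl d | gr d => gb d | gt d => gr d

/-- the permutation `next side` -/
def nx : Equiv.Perm (PD G) where
  toFun := K.nxF
  invFun := K.nxI
  left_inv := by intro x; cases x <;> simp [nxF, nxI]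
  right_inv := by intro x; cases x <;> simp [nxF, nxI]

/-- the opposite side -/
def op : PD G → PD G
  | tc d => tc d.symm | tg d => gt d | bc d => bc d.symm | bg d => gb d
  | gt d => tg d | gl d => gr (K.nu.symm d.symm) | gb d => bg d | gr d => gl (K.nu d).symm

/-- the starting point -/
def src : PD G → G.Dart × Bool
  | tc d => (d.symm, false) | tg d => (d, false) | bc d => (d, true) | bg d => ((K.nu d).symm, true)
  | gt d => ((K.nu d).symm, false) | gl d => (d, false) | gb d => (d, true)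
  | gr d => ((K.nu d).symm, true)

/-- the normal vector of a face -/
noncomputable def nrm : (W × Bool) ⊕ G.Dart → E3
  | .inl (w, false) => !₂[-K.A w, -K.B w, 1]
  | .inl (w, true) => !₂[K.A w, K.B w, -1]
  | .inr d => !₂[(K.q (K.nu d).symm - K.q d).2, -(K.q (K.nu d).symm - K.q d).1, 0]

@[simp] theorem nx_tc (d : G.Dart) : K.nx (tc d) = tg d := rfl
@[simp] theorem nx_tg (d : G.Dart) : K.nx (tg d) = tc (K.nu d) := rfl
@[simp] theorem nx_bc (d : G.Dart) : K.nx (bc d) = bg (K.nu.symm d) := rfl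
@[simp] theorem nx_bg (d : G.Dart) : K.nx (bg d) = bc d := rfl
@[simp] theorem nx_gt (d : G.Dart) : K.nx (gt d) = gl d := rfl
@[simp] theorem nx_gl (d : G.Dart) : K.nx (gl d) = gb d := rfl
@[simp] theorem nx_gb (d : G.Dart) : K.nx (gb d) = gr d := rfl
@[simp] theorem nx_gr (d : G.Dart) : K.nx (gr d) = gt d := rfl

theorem nu_symm_fst (d : G.Dart) : (K.nu.symm d).fst = d.fst := by
  have := K.nu_fst (K.nu.symm d)
  rw [Equiv.apply_symm_apply] at this
  exact this.symm

theorem fc_nx (x : PD G) : fc (K.nx x) = fc x := by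
  cases x <;> simp [fc, K.nu_fst, K.nu_symm_fst]

theorem nx_nx (x : PD G) : K.nx (K.nx x) ≠ x := by
  cases x with
  | tc d => simpa using K.nu_ne d
  | tg d => simpa using K.nu_ne d
  | bc d =>
    simp only [nx_bc, nx_bg, ne_eq, PD.bc.injEq]
    intro h
    have := K.nu_ne d
    rw [Equiv.symm_apply_eq] at h
    exact this h.symm
  | bg d =>
    simp only [nx_bc, nx_bg, ne_eq, PD.bg.injEq]
    intro h
    have := K.nu_ne d
    rw [Equiv.symm_apply_eq] at h
    exact this h.symm
  | gt d => simp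
  | gl d => simp
  | gb d => simp
  | gr d => simp

theorem nx_ne (x : PD G) : K.nx x ≠ x := by
  cases x <;> simp

theorem op_op (x : PD G) : K.op (K.op x) = x := by
  cases x <;> simp [op]

theorem src_op (x : PD G) : K.src (K.op x) = K.src (K.nx x) := by
  cases x <;> simp [op, src]

theorem fc_op (x : PD G) : fc (K.op x) ≠ fc x := by
  cases x with
  | tc d =>
    simp only [op, fc, ne_eq, Sum.inl.injEq, Prod.mk.injEq, and_true]
    exact d.adj.ne'
  | bc d =>
    simp only [op, fc, ne_eq, Sum.inl.injEq, Prod.mk.injEq, and_true]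
    exact d.adj.ne'
  | gl d =>
    simp only [op, fc, ne_eq, Sum.inr.injEq]
    intro h
    have := K.nu_symm_fst d.symm
    rw [h] at this
    exact d.adj.ne this
  | gr d =>
    simp only [op, fc, ne_eq, Sum.inr.injEq]
    intro h
    have h1 := K.nu_fst d
    have h2 := (K.nu d).adj.ne
    rw [h1, show (K.nu d).toProd.2 = (K.nu d).symm.fst from rfl, h] at h2
    exact h2 rfl
  | tg d => simp [op, fc]
  | bg d => simp [op, fc]
  | gt d => simp [op, fc]
  | gb d => simp [op, fc]

theorem src_surj : Function.Surjective K.src := by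
  rintro ⟨d, β⟩
  cases β
  · exact ⟨tg d, rfl⟩
  · exact ⟨bc d, rfl⟩

theorem fc_surj (hd : ∀ w : W, ∃ d : G.Dart, d.fst = w) :
    Function.Surjective (fc : PD G → (W × Bool) ⊕ G.Dart) := by
  rintro (⟨w, β⟩ | d)
  · obtain ⟨d, rfl⟩ := hd w
    cases β
    · exact ⟨tc d, rfl⟩
    · exact ⟨bc d, rfl⟩
  · exact ⟨gt d, rfl⟩

theorem symm_ne (d : G.Dart) : d.symm ≠ d := d.symm_ne

theorem dart_eq_of {d e : G.Dart} (h1 : d.fst = e.fst) (h2 : d.snd = e.snd) : d = e :=
  SimpleGraph.Dart.ext _ _ (Prod.ext h1 h2)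

/-- the key to the injectivity: two gaps with opposite ends do not exist -/
theorem gap_key {d e : G.Dart} (h1 : d = (K.nu e).symm) (h2 : (K.nu d).symm = e) : False := by
  have e1 : K.nu e = d.symm := by rw [h1, SimpleGraph.Dart.symm_symm]
  have e2 : K.nu d = e.symm := by rw [← h2, SimpleGraph.Dart.symm_symm]
  have a1 : e.fst = d.snd := by
    have := K.nu_fst e
    rw [e1] at this
    exact this.symm
  have a2 : d.fst = e.snd := by
    have := K.nu_fst d
    rw [e2] at this
    exact this.symm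
  have : e = d.symm := dart_eq_of a1 a2.symm
  exact K.nu_ne e (by rw [e1, this])

theorem nu_key1 {d e : G.Dart} (h1 : d.symm = e) (h2 : d = (K.nu e).symm) : False := by
  refine K.nu_ne e ?_
  rw [← h1]
  rw [← h1] at h2
  rw [← SimpleGraph.Dart.symm_symm (K.nu d.symm), ← h2]

theorem nu_key2 {d e : G.Dart} (h1 : d = e) (h2 : d.symm = (K.nu e).symm) : False := by
  refine K.nu_ne e ?_
  rw [h1] at h2
  rw [← SimpleGraph.Dart.symm_symm (K.nu e), ← h2, SimpleGraph.Dart.symm_symm]

theorem dart_inj (x y : PD G) (h1 : K.src x = K.src y) (h2 : K.src (K.nx x) = K.src (K.nx y)) :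
    x = y := by
  have key := @gap_key W G K
  have k1 := @nu_key1 W G K
  have k2 := @nu_key2 W G K
  have s2 : ∀ d : G.Dart, d.symm.symm = d := fun d => SimpleGraph.Dart.symm_symm d
  cases x <;> cases y <;> simp [src] at h1 h2 ⊢ <;> (try assumption)
  case tc.tg => exact k1 h1 h2
  case tc.gt => exact k2 h2 h1
  case tg.tc => exact k1 h1.symm h2.symm
  case tg.gt => exact key h1 h2
  case bc.bg => exact k1 h2 h1
  case bc.gb => exact k2 h1 h2
  case bg.bc => exact k1 h2.symm h1.symm
  case bg.gb => exact key h2 h1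
  case gt.tc => exact k2 h2.symm h1.symm
  case gt.tg => exact key h2 h1
  case gb.bc => exact k2 h1.symm h2.symm
  case gb.bg => exact key h1 h2
  case gr.gr =>
    rename_i d e
    have := congrArg SimpleGraph.Dart.symm h1
    rw [s2, s2] at this
    exact K.nu.injective this

/-! ### Positions -/

theorem L_self' (d : G.Dart) {e : G.Dart} (he : e = d) (β : Bool) : K.L d (K.pos (e, β)) = 0 := by
  rw [he]; exact K.L_self d β

/-- the functional of a wall is nonnegative on the vertices of the wall -/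
theorem L_nonneg (d d' : G.Dart) (h : d'.fst = d.fst) (β : Bool) : 0 ≤ K.L d (K.pos (d', β)) := by
  by_cases hne : d' = d
  · rw [K.L_self' d hne]
  · exact (K.L_other d d' h hne β).le

theorem L_nonneg_symm (d d' : G.Dart) (h : d'.fst = d.fst) (β : Bool) :
    0 ≤ K.L d (K.pos (d'.symm, β)) := by
  by_cases hne : d' = d
  · rw [hne, K.L_self_symm d]
  · exact (K.L_other_symm d d' h hne β).le

theorem q_ne (d : G.Dart) : K.q d ≠ K.q d.symm := by
  intro h
  obtain ⟨k, hk, hk'⟩ := K.dir d
  rw [h, sub_self] at hk'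
  have hA : K.A d.fst - K.A d.snd = 0 := by
    have := congrArg Prod.snd hk'
    simp only [Prod.smul_snd, smul_eq_mul, Prod.snd_zero] at this
    rcases mul_eq_zero.1 this.symm with h | h
    · exact absurd h hk.ne'
    · linarith
  have hB : K.B d.fst - K.B d.snd = 0 := by
    have := congrArg Prod.fst hk'
    simp only [Prod.smul_fst, smul_eq_mul, Prod.fst_zero] at this
    rcases mul_eq_zero.1 this.symm with h | h
    · exact absurd h hk.ne'
    · linarith
  have h1 := K.L_self d false
  have h2 := K.L_other d (K.nu d) (K.nu_fst d) (K.nu_ne d) false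
  unfold L at h1 h2
  rw [hA, hB] at h1 h2
  linarith

theorem H_pos (w : W) (v : G.Dart × Bool) :
    K.H w (K.pos v) = K.Y w (K.q v.1) - K.Y v.1.fst (K.q v.1) + (if v.2 then K.h else 0) := by
  unfold H
  rw [pos_zero, pos_one, pos_two]
  unfold Y
  ring

theorem sep_pos {a b c e : ℝ} {w : W} (h : ∀ d : G.Dart, d.fst = w → ∀ t : ℝ, 0 ≤ t → t ≤ K.h →
      0 < a * (K.q d).1 + b * (K.q d).2 + c * (K.A w * (K.q d).1 + K.B w * (K.q d).2 + K.C w - t) + e ∧
      0 < a * (K.q d.symm).1 + b * (K.q d.symm).2 +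
        c * (K.A w * (K.q d.symm).1 + K.B w * (K.q d.symm).2 + K.C w - t) + e) (d : G.Dart)
      (hd : d.fst = w) (β : Bool) :
      0 < a * K.pos (d, β) 0 + b * K.pos (d, β) 1 + c * K.pos (d, β) 2 + e ∧
      0 < a * K.pos (d.symm, β) 0 + b * K.pos (d.symm, β) 1 + c * K.pos (d.symm, β) 2 + e := by
  have ht : 0 ≤ (if β then K.h else 0) ∧ (if β then K.h else 0) ≤ K.h := by
    cases β <;> simp [K.h_pos.le]
  obtain ⟨h1, h2⟩ := h d hd _ ht.1 ht.2
  rw [pos_zero, pos_one, pos_two, pos_zero, pos_one, pos_two]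
  refine ⟨?_, ?_⟩
  · simpa [Y, hd] using h1
  · have h3 := K.Y_symm' d
    have e1 : d.symm.fst = d.snd := rfl
    simp only [e1]
    rw [← h3, hd]
    simpa [Y] using h2

theorem sep_neg {a b c e : ℝ} {w : W} (h : ∀ d : G.Dart, d.fst = w → ∀ t : ℝ, 0 ≤ t → t ≤ K.h →
      a * (K.q d).1 + b * (K.q d).2 + c * (K.A w * (K.q d).1 + K.B w * (K.q d).2 + K.C w - t) + e < 0 ∧
      a * (K.q d.symm).1 + b * (K.q d.symm).2 +
        c * (K.A w * (K.q d.symm).1 + K.B w * (K.q d.symm).2 + K.C w - t) + e < 0) (d : G.Dart)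
      (hd : d.fst = w) (β : Bool) :
      a * K.pos (d, β) 0 + b * K.pos (d, β) 1 + c * K.pos (d, β) 2 + e < 0 ∧
      a * K.pos (d.symm, β) 0 + b * K.pos (d.symm, β) 1 + c * K.pos (d.symm, β) 2 + e < 0 := by
  have ht : 0 ≤ (if β then K.h else 0) ∧ (if β then K.h else 0) ≤ K.h := by
    cases β <;> simp [K.h_pos.le]
  obtain ⟨h1, h2⟩ := h d hd _ ht.1 ht.2
  rw [pos_zero, pos_one, pos_two, pos_zero, pos_one, pos_two]
  refine ⟨?_, ?_⟩
  · simpa [Y, hd] using h1
  · have h3 := K.Y_symm' d
    have e1 : d.symm.fst = d.snd := rfl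
    simp only [e1]
    rw [← h3, hd]
    simpa [Y] using h2

theorem q_eq_of_pos_eq {v v' : G.Dart × Bool} (h : K.pos v = K.pos v') : K.q v.1 = K.q v'.1 := by
  have h0 := congrArg (fun x : E3 => x 0) h
  have h1 := congrArg (fun x : E3 => x 1) h
  simp only [pos_zero, pos_one] at h0 h1
  exact Prod.ext h0 h1

theorem pos_inj : Function.Injective K.pos := by
  rintro ⟨d, β⟩ ⟨e, γ⟩ h
  by_cases hw : d.fst = e.fst
  · by_cases hde : d = e
    · subst hde
      have h2 := congrArg (K.H d.fst) h
      rw [K.H_pos_fst rfl, K.H_pos_fst rfl] at h2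
      have := K.h_pos.ne'
      cases β <;> cases γ <;> simp_all
    · exfalso
      have h1 := K.L_other e d hw hde β
      rw [h, K.L_self] at h1
      exact lt_irrefl _ h1
  · exfalso
    by_cases hadj : G.Adj d.fst e.fst
    · obtain ⟨δ, h1, h2⟩ : ∃ δ : G.Dart, δ.fst = d.fst ∧ δ.snd = e.fst :=
        ⟨⟨(d.fst, e.fst), hadj⟩, rfl, rfl⟩
      have a1 := K.L_nonneg δ d h1.symm β
      have a2 := K.L_nonneg δ.symm e (show e.fst = δ.snd from h2.symm) γ
      rw [L_symm, ← h] at a2
      have a3 : K.L δ (K.pos (d, β)) = 0 := by linarith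
      have hd : d = δ := by
        by_contra hne
        have := K.L_other δ d h1.symm hne β
        linarith
      have a4 : K.L δ.symm (K.pos (e, γ)) = 0 := by
        rw [L_symm, ← h]; linarith
      have he : e = δ.symm := by
        by_contra hne
        have := K.L_other δ.symm e (show e.fst = δ.snd from h2.symm) hne γ
        linarith
      have := K.q_eq_of_pos_eq h
      simp only at this
      rw [he, hd] at this
      exact K.q_ne δ this
    · obtain ⟨a, b, c, f, hp, hn⟩ := K.sep _ _ hw hadj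
      have h1 := (K.sep_pos hp d rfl β).1
      have h2 := (K.sep_neg hn e rfl γ).1
      rw [h] at h1
      linarith

/-! ### Planes and convexity -/

theorem inner_vec (a b c : ℝ) (x : E3) :
    inner ℝ (!₂[a, b, c] : E3) x = a * x 0 + b * x 1 + c * x 2 := by
  rw [PiLp.inner_apply, Fin.sum_univ_three]
  simp [mul_comm]

theorem inner_nrm_top (w : W) (p p' : E3) :
    inner ℝ (K.nrm (.inl (w, false))) (p - p') = - (K.H w p - K.H w p') := by
  unfold nrm H
  rw [inner_vec]
  simp only [PiLp.sub_apply]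
  ring

theorem inner_nrm_bot (w : W) (p p' : E3) :
    inner ℝ (K.nrm (.inl (w, true))) (p - p') = K.H w p - K.H w p' := by
  unfold nrm H
  rw [inner_vec]
  simp only [PiLp.sub_apply]
  ring

theorem inner_nrm_gap (d : G.Dart) (p p' : E3) :
    inner ℝ (K.nrm (.inr d)) (p - p') = - (K.Gf d p - K.Gf d p') := by
  unfold nrm Gf det2
  rw [inner_vec]
  simp only [PiLp.sub_apply, Prod.fst_sub, Prod.snd_sub]
  ring

theorem H_src {x : PD G} {w : W} {β : Bool} (hx : fc x = .inl (w, β)) :
    K.H w (K.pos (K.src x)) = if β then K.h else 0 := by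
  cases x with
  | tc d =>
    simp only [fc, Sum.inl.injEq, Prod.mk.injEq] at hx
    obtain ⟨h1, h2⟩ := hx
    subst h2
    exact K.H_pos_snd h1 false
  | tg d =>
    simp only [fc, Sum.inl.injEq, Prod.mk.injEq] at hx
    obtain ⟨h1, h2⟩ := hx
    subst h2
    exact K.H_pos_fst h1 false
  | bc d =>
    simp only [fc, Sum.inl.injEq, Prod.mk.injEq] at hx
    obtain ⟨h1, h2⟩ := hx
    subst h2
    exact K.H_pos_fst h1 true
  | bg d =>
    simp only [fc, Sum.inl.injEq, Prod.mk.injEq] at hx
    obtain ⟨h1, h2⟩ := hx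
    subst h2
    exact K.H_pos_snd (by rw [K.nu_fst]; exact h1) true
  | gt d => simp [fc] at hx
  | gl d => simp [fc] at hx
  | gb d => simp [fc] at hx
  | gr d => simp [fc] at hx

theorem Gf_src {x : PD G} {d : G.Dart} (hx : fc x = .inr d) : K.Gf d (K.pos (K.src x)) = 0 := by
  cases x with
  | gt e =>
    simp only [fc, Sum.inr.injEq] at hx
    subst hx
    exact K.Gf_self_symm e false
  | gl e =>
    simp only [fc, Sum.inr.injEq] at hx
    subst hx
    exact K.Gf_self e false
  | gb e =>
    simp only [fc, Sum.inr.injEq] at hx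
    subst hx
    exact K.Gf_self e true
  | gr e =>
    simp only [fc, Sum.inr.injEq] at hx
    subst hx
    exact K.Gf_self_symm e true
  | tc d => simp [fc] at hx
  | tg d => simp [fc] at hx
  | bc d => simp [fc] at hx
  | bg d => simp [fc] at hx

theorem plane (x y : PD G) (h : fc x = fc y) :
    inner ℝ (K.nrm (fc x)) (K.pos (K.src y) - K.pos (K.src x)) = 0 := by
  rcases hx : fc x with ⟨w, β⟩ | d
  · have h1 := K.H_src hx
    have h2 := K.H_src (h ▸ hx)
    cases β
    · rw [inner_nrm_top, h1, h2]; ring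
    · rw [inner_nrm_bot, h1, h2]; ring
  · rw [inner_nrm_gap, K.Gf_src hx, K.Gf_src (h ▸ hx)]; ring

/-- planar part of the determinant -/
def D2 (u v : E3) : ℝ := u 0 * v 1 - u 1 * v 0

theorem det3_top {w : W} {u v : E3} (hu : u 2 = K.A w * u 0 + K.B w * u 1)
    (hv : v 2 = K.A w * v 0 + K.B w * v 1) :
    det3 (K.nrm (.inl (w, false))) u v = (K.A w ^ 2 + K.B w ^ 2 + 1) * D2 u v := by
  unfold det3 nrm D2
  rw [Matrix.det_fin_three]
  simp only [Matrix.of_apply, Matrix.cons_val', Matrix.cons_val_zero, Matrix.cons_val_one,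
    Matrix.cons_val, Matrix.cons_val_fin_one]
  rw [hu, hv]
  ring

theorem det3_bot {w : W} {u v : E3} (hu : u 2 = K.A w * u 0 + K.B w * u 1)
    (hv : v 2 = K.A w * v 0 + K.B w * v 1) :
    det3 (K.nrm (.inl (w, true))) u v = - ((K.A w ^ 2 + K.B w ^ 2 + 1) * D2 u v) := by
  unfold det3 nrm D2
  rw [Matrix.det_fin_three]
  simp only [Matrix.of_apply, Matrix.cons_val', Matrix.cons_val_zero, Matrix.cons_val_one,
    Matrix.cons_val, Matrix.cons_val_fin_one]
  rw [hu, hv]
  ring

theorem sub_two {w : W} {x y : PD G} {β : Bool} (hx : fc x = .inl (w, β)) (hy : fc y = .inl (w, β)) :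
    (K.pos (K.src y) - K.pos (K.src x)) 2 = K.A w * (K.pos (K.src y) - K.pos (K.src x)) 0 +
      K.B w * (K.pos (K.src y) - K.pos (K.src x)) 1 := by
  have h1 := K.H_src hx
  have h2 := K.H_src hy
  unfold H at h1 h2
  simp only [PiLp.sub_apply]
  linarith

theorem D2_contact (d : G.Dart) : ∃ k : ℝ, 0 < k ∧ ∀ β : Bool, ∀ p : E3,
    D2 (K.pos (d, β) - K.pos (d.symm, β)) (p - K.pos (d.symm, β)) = k * K.L d p ∧
    D2 (K.pos (d.symm, β) - K.pos (d, β)) (p - K.pos (d, β)) = - (k * K.L d p) := by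
  obtain ⟨k, hk, hk'⟩ := K.dir d
  refine ⟨k, hk, fun β p => ?_⟩
  have h1 := K.L_self d β
  have h2 := K.L_self_symm d β
  have e1 : (K.q d).1 - (K.q d.symm).1 = k * (K.B d.fst - K.B d.snd) := by
    simpa using congrArg Prod.fst hk'
  have e2 : (K.q d).2 - (K.q d.symm).2 = k * (-(K.A d.fst - K.A d.snd)) := by
    simpa using congrArg Prod.snd hk'
  unfold L at h1 h2 ⊢
  unfold D2
  simp only [PiLp.sub_apply, pos_zero, pos_one] at h1 h2 ⊢
  have e3 : (K.q d.symm).1 - (K.q d).1 = - (k * (K.B d.fst - K.B d.snd)) := by linarith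
  have e4 : (K.q d.symm).2 - (K.q d).2 = - (k * (-(K.A d.fst - K.A d.snd))) := by linarith
  rw [e1, e2, e3, e4]
  refine ⟨?_, ?_⟩
  · linear_combination (-k) * h2
  · linear_combination k * h1

theorem D2_gap (d : G.Dart) (β : Bool) (p : E3) :
    D2 (K.pos ((K.nu d).symm, β) - K.pos (d, β)) (p - K.pos (d, β)) = K.Gf d p ∧
    D2 (K.pos (d, β) - K.pos ((K.nu d).symm, β)) (p - K.pos ((K.nu d).symm, β)) = - K.Gf d p := by
  constructor
  · unfold D2 Gf det2
    simp only [PiLp.sub_apply, pos_zero, pos_one, Prod.fst_sub, Prod.snd_sub]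
  · unfold D2 Gf det2
    simp only [PiLp.sub_apply, pos_zero, pos_one, Prod.fst_sub, Prod.snd_sub]
    ring

/-- the side vector of a gap is not zero -/
theorem gap_vec (d : G.Dart) : 0 < (K.q (K.nu d).symm - K.q d).1 ^ 2 +
    (K.q (K.nu d).symm - K.q d).2 ^ 2 := by
  have h := K.gap1 d (K.nu d) (K.nu_fst d) (K.nu_ne d)
  by_contra hcon
  push Not at hcon
  have h1 : (K.q (K.nu d).symm - K.q d).1 = 0 := by nlinarith [sq_nonneg (K.q (K.nu d).symm - K.q d).1, sq_nonneg (K.q (K.nu d).symm - K.q d).2]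
  have h2 : (K.q (K.nu d).symm - K.q d).2 = 0 := by nlinarith [sq_nonneg (K.q (K.nu d).symm - K.q d).1, sq_nonneg (K.q (K.nu d).symm - K.q d).2]
  unfold det2 at h
  rw [h1, h2] at h
  simp at h

theorem det3_gap {d : G.Dart} {u v : E3} {a : ℝ} (h : (u 0 * v 2 - u 2 * v 0) * - (K.q (K.nu d).symm - K.q d).1
      + (u 1 * v 2 - u 2 * v 1) * - (K.q (K.nu d).symm - K.q d).2 = a) :
    det3 (K.nrm (.inr d)) u v = - a := by
  unfold det3 nrm
  rw [Matrix.det_fin_three, ← h]
  simp only [Matrix.of_apply, Matrix.cons_val', Matrix.cons_val_zero, Matrix.cons_val_one,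
    Matrix.cons_val, Matrix.cons_val_fin_one]
  ring

theorem convex_top {w : W} {x y : PD G} (hx : fc x = .inl (w, false)) (hy : fc y = .inl (w, false))
    (h : 0 < D2 (K.pos (K.src (K.nx x)) - K.pos (K.src x)) (K.pos (K.src y) - K.pos (K.src x))) :
    0 < det3 (K.nrm (fc x)) (K.pos (K.src (K.nx x)) - K.pos (K.src x))
      (K.pos (K.src y) - K.pos (K.src x)) := by
  rw [hx, K.det3_top (K.sub_two hx (by rw [fc_nx, hx])) (K.sub_two hx hy)]
  positivity

theorem convex_bot {w : W} {x y : PD G} (hx : fc x = .inl (w, true)) (hy : fc y = .inl (w, true))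
    (h : D2 (K.pos (K.src (K.nx x)) - K.pos (K.src x)) (K.pos (K.src y) - K.pos (K.src x)) < 0) :
    0 < det3 (K.nrm (fc x)) (K.pos (K.src (K.nx x)) - K.pos (K.src x))
      (K.pos (K.src y) - K.pos (K.src x)) := by
  rw [hx, K.det3_bot (K.sub_two hx (by rw [fc_nx, hx])) (K.sub_two hx hy)]
  have : 0 < K.A w ^ 2 + K.B w ^ 2 + 1 := by positivity
  nlinarith

theorem convex_gap {d : G.Dart} {x : PD G} (y : PD G) (hx : fc x = .inr d)
    (h : ((K.pos (K.src (K.nx x)) - K.pos (K.src x)) 0 * (K.pos (K.src y) - K.pos (K.src x)) 2 -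
      (K.pos (K.src (K.nx x)) - K.pos (K.src x)) 2 * (K.pos (K.src y) - K.pos (K.src x)) 0) *
        - (K.q (K.nu d).symm - K.q d).1 +
      ((K.pos (K.src (K.nx x)) - K.pos (K.src x)) 1 * (K.pos (K.src y) - K.pos (K.src x)) 2 -
      (K.pos (K.src (K.nx x)) - K.pos (K.src x)) 2 * (K.pos (K.src y) - K.pos (K.src x)) 1) *
        - (K.q (K.nu d).symm - K.q d).2 = - (K.h * ((K.q (K.nu d).symm - K.q d).1 ^ 2 +
    (K.q (K.nu d).symm - K.q d).2 ^ 2))) :
    0 < det3 (K.nrm (fc x)) (K.pos (K.src (K.nx x)) - K.pos (K.src x))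
      (K.pos (K.src y) - K.pos (K.src x)) := by
  rw [hx, K.det3_gap h, neg_neg]
  exact mul_pos K.h_pos (K.gap_vec d)

theorem convex (x y : PD G) (h : fc x = fc y) (h1 : y ≠ x) (h2 : y ≠ K.nx x) :
    0 < det3 (K.nrm (fc x)) (K.pos (K.src (K.nx x)) - K.pos (K.src x))
      (K.pos (K.src y) - K.pos (K.src x)) := by
  cases x with
  | tc d =>
    have hd : fc (tc d) = .inl (d.fst, false) := rfl
    refine K.convex_top hd (h ▸ hd) ?_
    obtain ⟨k, hk, hk'⟩ := K.D2_contact d
    rw [show K.src (K.nx (tc d)) = (d, false) from rfl, show K.src (tc d) = (d.symm, false) from rfl,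
      (hk' false _).1]
    refine mul_pos hk ?_
    cases y with
    | tc e =>
      simp only [fc, Sum.inl.injEq, Prod.mk.injEq, and_true] at h
      exact K.L_other_symm d e h.symm (fun hh => h1 (by rw [hh])) false
    | tg e =>
      simp only [fc, Sum.inl.injEq, Prod.mk.injEq, and_true] at h
      exact K.L_other d e h.symm (fun hh => h2 (by rw [hh]; rfl)) false
    | bc e => simp [fc] at h
    | bg e => simp [fc] at h
    | gt e => simp [fc] at h
    | gl e => simp [fc] at h
    | gb e => simp [fc] at h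
    | gr e => simp [fc] at h
  | tg d =>
    have hd : fc (tg d) = .inl (d.fst, false) := rfl
    refine K.convex_top hd (h ▸ hd) ?_
    rw [show K.src (K.nx (tg d)) = ((K.nu d).symm, false) from rfl,
      show K.src (tg d) = (d, false) from rfl, (K.D2_gap d false _).1]
    cases y with
    | tc e =>
      simp only [fc, Sum.inl.injEq, Prod.mk.injEq, and_true] at h
      exact K.Gf_other_symm d e h.symm (fun hh => h2 (by rw [hh]; rfl)) false
    | tg e =>
      simp only [fc, Sum.inl.injEq, Prod.mk.injEq, and_true] at h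
      exact K.Gf_other d e h.symm (fun hh => h1 (by rw [hh])) false
    | bc e => simp [fc] at h
    | bg e => simp [fc] at h
    | gt e => simp [fc] at h
    | gl e => simp [fc] at h
    | gb e => simp [fc] at h
    | gr e => simp [fc] at h
  | bc d =>
    have hd : fc (bc d) = .inl (d.fst, true) := rfl
    refine K.convex_bot hd (h ▸ hd) ?_
    obtain ⟨k, hk, hk'⟩ := K.D2_contact d
    rw [show K.src (K.nx (bc d)) = (d.symm, true) by simp [src],
      show K.src (bc d) = (d, true) from rfl, (hk' true _).2, neg_lt_zero]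
    refine mul_pos hk ?_
    cases y with
    | bc e =>
      simp only [fc, Sum.inl.injEq, Prod.mk.injEq, and_true] at h
      exact K.L_other d e h.symm (fun hh => h1 (by rw [hh])) true
    | bg e =>
      simp only [fc, Sum.inl.injEq, Prod.mk.injEq, and_true] at h
      refine K.L_other_symm d (K.nu e) (by rw [K.nu_fst]; exact h.symm) (fun hh => h2 ?_) true
      rw [nx_bc, ← hh, Equiv.symm_apply_apply]
    | tc e => simp [fc] at h
    | tg e => simp [fc] at h
    | gt e => simp [fc] at h
    | gl e => simp [fc] at h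
    | gb e => simp [fc] at h
    | gr e => simp [fc] at h
  | bg d =>
    have hd : fc (bg d) = .inl (d.fst, true) := rfl
    refine K.convex_bot hd (h ▸ hd) ?_
    rw [show K.src (K.nx (bg d)) = (d, true) from rfl,
      show K.src (bg d) = ((K.nu d).symm, true) from rfl, (K.D2_gap d true _).2, neg_lt_zero]
    cases y with
    | bc e =>
      simp only [fc, Sum.inl.injEq, Prod.mk.injEq, and_true] at h
      exact K.Gf_other d e h.symm (fun hh => h2 (by rw [hh]; rfl)) true
    | bg e =>
      simp only [fc, Sum.inl.injEq, Prod.mk.injEq, and_true] at h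
      refine K.Gf_other_symm d (K.nu e) (by rw [K.nu_fst]; exact h.symm) (fun hh => h1 ?_) true
      rw [K.nu.injective hh]
    | tc e => simp [fc] at h
    | tg e => simp [fc] at h
    | gt e => simp [fc] at h
    | gl e => simp [fc] at h
    | gb e => simp [fc] at h
    | gr e => simp [fc] at h
  | gt d =>
    refine K.convex_gap y (d := d) rfl ?_
    cases y with
    | gt e => simp only [fc, Sum.inr.injEq] at h; exact absurd (by rw [h]) h1
    | gl e => simp only [fc, Sum.inr.injEq] at h; exact absurd (by rw [h]; rfl) h2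
    | gb e =>
      simp only [fc, Sum.inr.injEq] at h
      subst h
      simp [src]
      ring
    | gr e =>
      simp only [fc, Sum.inr.injEq] at h
      subst h
      simp [src]
      ring
    | tc e => simp [fc] at h
    | tg e => simp [fc] at h
    | bc e => simp [fc] at h
    | bg e => simp [fc] at h
  | gl d =>
    refine K.convex_gap y (d := d) rfl ?_
    cases y with
    | gl e => simp only [fc, Sum.inr.injEq] at h; exact absurd (by rw [h]) h1
    | gb e => simp only [fc, Sum.inr.injEq] at h; exact absurd (by rw [h]; rfl) h2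
    | gr e =>
      simp only [fc, Sum.inr.injEq] at h
      subst h
      simp [src]
      ring
    | gt e =>
      simp only [fc, Sum.inr.injEq] at h
      subst h
      simp [src]
      ring
    | tc e => simp [fc] at h
    | tg e => simp [fc] at h
    | bc e => simp [fc] at h
    | bg e => simp [fc] at h
  | gb d =>
    refine K.convex_gap y (d := d) rfl ?_
    cases y with
    | gb e => simp only [fc, Sum.inr.injEq] at h; exact absurd (by rw [h]) h1
    | gr e => simp only [fc, Sum.inr.injEq] at h; exact absurd (by rw [h]; rfl) h2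
    | gt e =>
      simp only [fc, Sum.inr.injEq] at h
      subst h
      simp [src]
      ring
    | gl e =>
      simp only [fc, Sum.inr.injEq] at h
      subst h
      simp [src]
      ring
    | tc e => simp [fc] at h
    | tg e => simp [fc] at h
    | bc e => simp [fc] at h
    | bg e => simp [fc] at h
  | gr d =>
    refine K.convex_gap y (d := d) rfl ?_
    cases y with
    | gr e => simp only [fc, Sum.inr.injEq] at h; exact absurd (by rw [h]) h1
    | gt e => simp only [fc, Sum.inr.injEq] at h; exact absurd (by rw [h]; rfl) h2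
    | gl e =>
      simp only [fc, Sum.inr.injEq] at h
      subst h
      simp [src]
      ring
    | gb e =>
      simp only [fc, Sum.inr.injEq] at h
      subst h
      simp [src]
      ring
    | tc e => simp [fc] at h
    | tg e => simp [fc] at h
    | bc e => simp [fc] at h
    | bg e => simp [fc] at h

/-! ### Links, connectedness, bends -/

theorem step {a b : PD G} (h : b = K.nx (K.op a)) :
    Relation.ReflTransGen (fun a b => b = K.nx (K.op a)) a b :=
  Relation.ReflTransGen.single h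

theorem base_fwd (x : PD G) : Relation.ReflTransGen (fun a b => b = K.nx (K.op a)) x
    (if (K.src x).2 then bc (K.src x).1 else tg (K.src x).1) := by
  cases x with
  | tc d => exact K.step rfl
  | tg d => exact Relation.ReflTransGen.refl
  | bc d => exact Relation.ReflTransGen.refl
  | bg d =>
    refine (K.step (b := gr d) rfl).trans ?_
    refine (K.step (b := gb (K.nu d).symm) rfl).trans ?_
    exact K.step rfl
  | gt d =>
    refine (K.step (b := tc (K.nu d)) rfl).trans ?_
    exact K.step rfl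
  | gl d =>
    refine (K.step (b := gt (K.nu.symm d.symm)) rfl).trans ?_
    refine (K.step (b := tc d.symm) ?_).trans ?_
    · simp [op]
    · exact K.step (by simp [op, src])
  | gb d => exact K.step rfl
  | gr d =>
    refine (K.step (b := gb (K.nu d).symm) rfl).trans ?_
    exact K.step rfl

theorem base_bwd (x : PD G) : Relation.ReflTransGen (fun a b => b = K.nx (K.op a))
    (if (K.src x).2 then bc (K.src x).1 else tg (K.src x).1) x := by
  cases x with
  | tc d =>
    refine (K.step (b := gl d.symm) rfl).trans ?_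
    refine (K.step (b := gt (K.nu.symm d)) ?_).trans ?_
    · simp [op]
    · exact K.step (by simp [op])
  | tg d => exact Relation.ReflTransGen.refl
  | bc d => exact Relation.ReflTransGen.refl
  | bg d =>
    refine K.step ?_
    simp [op, src]
  | gt d =>
    refine (K.step (b := gl (K.nu d).symm) rfl).trans ?_
    refine K.step ?_
    simp [op]
  | gl d => exact K.step rfl
  | gb d =>
    refine (K.step (b := bg (K.nu.symm d.symm)) rfl).trans ?_
    refine (K.step (b := gr (K.nu.symm d.symm)) rfl).trans ?_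
    refine K.step ?_
    simp [op]
  | gr d =>
    refine (K.step (b := bg d) ?_).trans ?_
    · simp [op, src]
    · exact K.step rfl

theorem link (x y : PD G) (h : K.src x = K.src y) :
    Relation.ReflTransGen (fun a b => b = K.nx (K.op a)) x y := by
  refine (K.base_fwd x).trans ?_
  rw [h]
  exact K.base_bwd y

theorem conn_symm {i j : (W × Bool) ⊕ G.Dart}
    (h : Relation.ReflTransGen (fun a b => ∃ x, fc x = a ∧ fc (K.op x) = b) i j) :
    Relation.ReflTransGen (fun a b => ∃ x, fc x = a ∧ fc (K.op x) = b) j i := by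
  induction h with
  | refl => exact Relation.ReflTransGen.refl
  | tail _ hbc ih =>
    obtain ⟨x, h1, h2⟩ := hbc
    exact (Relation.ReflTransGen.single ⟨K.op x, h2, by rw [K.op_op]; exact h1⟩).trans ih

/-- the wall of a face -/
def wall : (W × Bool) ⊕ G.Dart → W
  | .inl (w, _) => w
  | .inr d => d.fst

theorem conn_wall (hd : ∀ w : W, ∃ d : G.Dart, d.fst = w) (i : (W × Bool) ⊕ G.Dart) :
    Relation.ReflTransGen (fun a b => ∃ x, fc x = a ∧ fc (K.op x) = b) i (.inl (wall i, false)) := by
  rcases i with ⟨w, β⟩ | d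
  · cases β
    · exact Relation.ReflTransGen.refl
    · obtain ⟨d, rfl⟩ := hd w
      refine (Relation.ReflTransGen.single (b := .inr d) ⟨bg d, rfl, rfl⟩).trans ?_
      exact Relation.ReflTransGen.single ⟨gt d, rfl, rfl⟩
  · exact Relation.ReflTransGen.single ⟨gt d, rfl, rfl⟩

theorem conn_walk {w w' : W} (p : G.Walk w w') :
    Relation.ReflTransGen (fun a b => ∃ x, fc x = a ∧ fc (K.op x) = b)
      (.inl (w, false)) (.inl (w', false)) := by
  induction p with
  | nil => exact Relation.ReflTransGen.refl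
  | cons h _ ih =>
    refine (Relation.ReflTransGen.single ?_).trans ih
    exact ⟨tc ⟨(_, _), h⟩, rfl, rfl⟩

theorem conn (hconn : G.Connected) (hd : ∀ w : W, ∃ d : G.Dart, d.fst = w)
    (i j : (W × Bool) ⊕ G.Dart) :
    Relation.ReflTransGen (fun a b => ∃ x, fc x = a ∧ fc (K.op x) = b) i j := by
  obtain ⟨p⟩ := hconn.preconnected (wall i) (wall j)
  exact ((K.conn_wall hd i).trans (K.conn_walk p)).trans (K.conn_symm (K.conn_wall hd j))

theorem bent (x : PD G) : ∃ y : PD G, fc y = fc (K.op x) ∧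
    inner ℝ (K.nrm (fc x)) (K.pos (K.src y) - K.pos (K.src x)) ≠ 0 := by
  cases x with
  | tc d =>
    refine ⟨tg (K.nu d.symm), ?_, ?_⟩
    · simp [fc, op, K.nu_fst]
    · rw [show fc (tc d) = .inl (d.fst, false) from rfl, inner_nrm_top,
        K.H_src (x := tc d) (β := false) rfl]
      have h1 := K.H_sub_H d (K.pos (K.src (tg (K.nu d.symm))))
      have h2 := K.H_src (x := tg (K.nu d.symm)) (w := d.snd) (β := false)
        (by simp [fc, K.nu_fst])
      have h3 := K.L_other d.symm (K.nu d.symm) (K.nu_fst _) (K.nu_ne _) false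
      rw [K.L_symm] at h3
      rw [h2] at h1
      simp only [src, Bool.false_eq_true, if_false] at h1 h3 ⊢
      intro h4
      linarith
  | bc d =>
    refine ⟨bc (K.nu d.symm), ?_, ?_⟩
    · simp [fc, op, K.nu_fst]
    · rw [show fc (bc d) = .inl (d.fst, true) from rfl, inner_nrm_bot,
        K.H_src (x := bc d) (β := true) rfl]
      have h1 := K.H_sub_H d (K.pos (K.src (bc (K.nu d.symm))))
      have h2 := K.H_src (x := bc (K.nu d.symm)) (w := d.snd) (β := true)
        (by simp [fc, K.nu_fst])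
      have h3 := K.L_other d.symm (K.nu d.symm) (K.nu_fst _) (K.nu_ne _) true
      rw [K.L_symm] at h3
      rw [h2] at h1
      simp only [src, if_true] at h1 h3 ⊢
      intro h4
      linarith
  | tg d =>
    refine ⟨gb d, rfl, ?_⟩
    rw [show fc (tg d) = .inl (d.fst, false) from rfl, inner_nrm_top,
        K.H_src (x := tg d) (β := false) rfl]
    have h2 := K.H_pos_fst (d := d) rfl true
    rw [show K.src (gb d) = (d, true) from rfl, h2]
    have := K.h_pos
    simp
    linarith
  | bg d =>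
    refine ⟨gl d, rfl, ?_⟩
    rw [show fc (bg d) = .inl (d.fst, true) from rfl, inner_nrm_bot,
        K.H_src (x := bg d) (β := true) rfl]
    have h2 := K.H_pos_fst (d := d) rfl false
    rw [show K.src (gl d) = (d, false) from rfl, h2]
    have := K.h_pos
    simp
    linarith
  | gt d =>
    refine ⟨tg (K.nu d), by simp [fc, op, K.nu_fst], ?_⟩
    rw [show fc (gt d) = .inr d from rfl, inner_nrm_gap, K.Gf_src (x := gt d) rfl]
    have := K.Gf_other d (K.nu d) (K.nu_fst d) (K.nu_ne d) false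
    rw [show K.src (tg (K.nu d)) = (K.nu d, false) from rfl]
    intro h
    linarith
  | gb d =>
    refine ⟨bc (K.nu d), by simp [fc, op, K.nu_fst], ?_⟩
    rw [show fc (gb d) = .inr d from rfl, inner_nrm_gap, K.Gf_src (x := gb d) rfl]
    have := K.Gf_other d (K.nu d) (K.nu_fst d) (K.nu_ne d) true
    rw [show K.src (bc (K.nu d)) = (K.nu d, true) from rfl]
    intro h
    linarith
  | gl d =>
    refine ⟨gl (K.nu.symm d.symm), rfl, ?_⟩
    rw [show fc (gl d) = .inr d from rfl, inner_nrm_gap, K.Gf_src (x := gl d) rfl]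
    have := K.corner d
    rw [show K.src (gl (K.nu.symm d.symm)) = (K.nu.symm d.symm, false) from rfl, Gf_pos]
    intro h
    apply this
    unfold det2 at h ⊢
    linarith
  | gr d =>
    refine ⟨gt (K.nu d).symm, rfl, ?_⟩
    rw [show fc (gr d) = .inr d from rfl, inner_nrm_gap, K.Gf_src (x := gr d) rfl]
    have := K.corner (K.nu d).symm
    rw [SimpleGraph.Dart.symm_symm, Equiv.symm_apply_apply] at this
    rw [show K.src (gt (K.nu d).symm) = ((K.nu (K.nu d).symm).symm, false) from rfl, Gf_pos]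
    intro h
    apply this
    unfold det2 at h ⊢
    simp only [Prod.fst_sub, Prod.snd_sub] at h ⊢
    linarith

/-! ### Intersections of faces -/

/-- the corners of a face -/
def FV (i : (W × Bool) ⊕ G.Dart) : Set E3 := {p | ∃ x, fc x = i ∧ K.pos (K.src x) = p}

/-- the relative position of two faces -/
def Meet (i j : (W × Bool) ⊕ G.Dart) : Prop :=
  (convexHull ℝ (K.FV i) ∩ convexHull ℝ (K.FV j) = ∅) ∨
  (∃ x y, fc x = i ∧ fc y = j ∧ K.src x = K.src y ∧
    convexHull ℝ (K.FV i) ∩ convexHull ℝ (K.FV j) = {K.pos (K.src x)}) ∨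
  (∃ x, fc x = i ∧ fc (K.op x) = j ∧
    convexHull ℝ (K.FV i) ∩ convexHull ℝ (K.FV j) =
      segment ℝ (K.pos (K.src x)) (K.pos (K.src (K.nx x))))

theorem src_nx_op (x : PD G) : K.src (K.nx (K.op x)) = K.src x := by
  rw [← K.src_op, K.op_op]

theorem Meet.symm {i j : (W × Bool) ⊕ G.Dart} (h : K.Meet i j) : K.Meet j i := by
  rcases h with h | ⟨x, y, h1, h2, h3, h4⟩ | ⟨x, h1, h2, h3⟩
  · left; rw [Set.inter_comm]; exact h
  · right; left
    refine ⟨y, x, h2, h1, h3.symm, ?_⟩
    rw [Set.inter_comm, h4, h3]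
  · right; right
    refine ⟨K.op x, h2, by rw [K.op_op]; exact h1, ?_⟩
    rw [Set.inter_comm, h3, K.src_nx_op, K.src_op, segment_symm]

theorem meet_of_disjoint {i j : (W × Bool) ⊕ G.Dart}
    (h : ∀ p ∈ convexHull ℝ (K.FV i), p ∈ convexHull ℝ (K.FV j) → False) : K.Meet i j := by
  left
  rw [Set.eq_empty_iff_forall_notMem]
  exact fun p hp => h p hp.1 hp.2

theorem mem_FV {i : (W × Bool) ⊕ G.Dart} {x : PD G} (hx : fc x = i) : K.pos (K.src x) ∈ K.FV i :=
  ⟨x, hx, rfl⟩

theorem meet_of_vertex {i j : (W × Bool) ⊕ G.Dart} {x y : PD G} (hx : fc x = i) (hy : fc y = j)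
    (hxy : K.src x = K.src y)
    (h : ∀ p ∈ convexHull ℝ (K.FV i), p ∈ convexHull ℝ (K.FV j) → p = K.pos (K.src x)) :
    K.Meet i j := by
  right; left
  refine ⟨x, y, hx, hy, hxy, ?_⟩
  apply Set.Subset.antisymm
  · exact fun p hp => h p hp.1 hp.2
  · rintro p rfl
    refine ⟨subset_convexHull ℝ _ (K.mem_FV hx), ?_⟩
    rw [hxy]
    exact subset_convexHull ℝ _ (K.mem_FV hy)

theorem meet_of_side {i j : (W × Bool) ⊕ G.Dart} {x : PD G} (hx : fc x = i) (hy : fc (K.op x) = j)
    (h : ∀ p ∈ convexHull ℝ (K.FV i), p ∈ convexHull ℝ (K.FV j) →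
      p ∈ segment ℝ (K.pos (K.src x)) (K.pos (K.src (K.nx x)))) :
    K.Meet i j := by
  right; right
  refine ⟨x, hx, hy, ?_⟩
  apply Set.Subset.antisymm
  · exact fun p hp => h p hp.1 hp.2
  · apply Set.subset_inter
    · apply (convex_convexHull ℝ _).segment_subset
      · exact subset_convexHull ℝ _ (K.mem_FV hx)
      · exact subset_convexHull ℝ _ (K.mem_FV (by rw [K.fc_nx, hx]))
    · apply (convex_convexHull ℝ _).segment_subset
      · rw [← K.src_nx_op x]
        exact subset_convexHull ℝ _ (K.mem_FV (by rw [K.fc_nx, hy]))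
      · rw [← K.src_op x]
        exact subset_convexHull ℝ _ (K.mem_FV hy)

theorem of_mem_slab {w : W} {β : Bool} {p : E3} (h : p ∈ K.FV (.inl (w, β))) :
    ∃ d : G.Dart, d.fst = w ∧ (p = K.pos (d, β) ∨ p = K.pos (d.symm, β)) := by
  obtain ⟨x, hx, rfl⟩ := h
  cases x with
  | tc d =>
    simp only [fc, Sum.inl.injEq, Prod.mk.injEq] at hx
    obtain ⟨h1, rfl⟩ := hx
    exact ⟨d, h1, Or.inr rfl⟩
  | tg d =>
    simp only [fc, Sum.inl.injEq, Prod.mk.injEq] at hx
    obtain ⟨h1, rfl⟩ := hx
    exact ⟨d, h1, Or.inl rfl⟩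
  | bc d =>
    simp only [fc, Sum.inl.injEq, Prod.mk.injEq] at hx
    obtain ⟨h1, rfl⟩ := hx
    exact ⟨d, h1, Or.inl rfl⟩
  | bg d =>
    simp only [fc, Sum.inl.injEq, Prod.mk.injEq] at hx
    obtain ⟨h1, rfl⟩ := hx
    exact ⟨K.nu d, by rw [K.nu_fst, h1], Or.inr rfl⟩
  | gt d => simp [fc] at hx
  | gl d => simp [fc] at hx
  | gb d => simp [fc] at hx
  | gr d => simp [fc] at hx

theorem of_mem_gap {d : G.Dart} {p : E3} (h : p ∈ K.FV (.inr d)) :
    ∃ β : Bool, p = K.pos (d, β) ∨ p = K.pos ((K.nu d).symm, β) := by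
  obtain ⟨x, hx, rfl⟩ := h
  cases x with
  | gt e =>
    simp only [fc, Sum.inr.injEq] at hx
    subst hx
    exact ⟨_, Or.inr rfl⟩
  | gl e =>
    simp only [fc, Sum.inr.injEq] at hx
    subst hx
    exact ⟨_, Or.inl rfl⟩
  | gb e =>
    simp only [fc, Sum.inr.injEq] at hx
    subst hx
    exact ⟨_, Or.inl rfl⟩
  | gr e =>
    simp only [fc, Sum.inr.injEq] at hx
    subst hx
    exact ⟨_, Or.inr rfl⟩
  | tc d => simp [fc] at hx
  | tg d => simp [fc] at hx
  | bc d => simp [fc] at hx
  | bg d => simp [fc] at hx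

/-- a corner of a face is a corner of its wall -/
theorem of_mem_FV {i : (W × Bool) ⊕ G.Dart} {p : E3} (h : p ∈ K.FV i) :
    ∃ (d : G.Dart) (β : Bool), d.fst = wall i ∧ (p = K.pos (d, β) ∨ p = K.pos (d.symm, β)) := by
  rcases i with ⟨w, β⟩ | d
  · obtain ⟨d, h1, h2⟩ := K.of_mem_slab h
    exact ⟨d, β, h1, h2⟩
  · obtain ⟨β, h1 | h1⟩ := K.of_mem_gap h
    · exact ⟨d, β, rfl, Or.inl h1⟩
    · exact ⟨K.nu d, β, K.nu_fst d, Or.inr h1⟩

theorem L_FV {i : (W × Bool) ⊕ G.Dart} {δ : G.Dart} (hδ : δ.fst = wall i) {p : E3}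
    (h : p ∈ K.FV i) : 0 ≤ K.L δ p := by
  obtain ⟨d, β, h1, rfl | rfl⟩ := K.of_mem_FV h
  · exact K.L_nonneg δ d (h1.trans hδ.symm) β
  · exact K.L_nonneg_symm δ d (h1.trans hδ.symm) β

theorem H_slab {w : W} {β : Bool} {p : E3} (h : p ∈ convexHull ℝ (K.FV (.inl (w, β)))) :
    K.H w p = if β then K.h else 0 := by
  refine (K.isAff_H w).eq_const (S := K.FV (.inl (w, β))) ?_ h
  rintro y ⟨x, hx, rfl⟩
  exact K.H_src hx

theorem Gf_gap {d : G.Dart} {p : E3} (h : p ∈ convexHull ℝ (K.FV (.inr d))) :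
    K.Gf d p = 0 := by
  refine (K.isAff_Gf d).eq_const (S := K.FV (.inr d)) ?_ h
  rintro y ⟨x, hx, rfl⟩
  exact K.Gf_src hx

theorem slab_zero {w : W} {β : Bool} {δ : G.Dart} (hδ : δ.fst = w) {p : E3}
    (h : p ∈ convexHull ℝ (K.FV (.inl (w, β)))) (h0 : K.L δ p = 0) :
    p ∈ segment ℝ (K.pos (δ, β)) (K.pos (δ.symm, β)) := by
  have h1 := (K.isAff_L δ).mem_zero (S := K.FV (.inl (w, β))) (fun y hy => K.L_FV hδ hy) h h0
  refine mem_segment_of_subset_pair ?_ h1
  rintro y ⟨hy, hy0⟩
  obtain ⟨d, h2, rfl | rfl⟩ := K.of_mem_slab hy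
  · left
    by_cases hd : d = δ
    · rw [hd]
    · have := K.L_other δ d (h2.trans hδ.symm) hd β
      exact absurd hy0 this.ne'
  · right
    by_cases hd : d = δ
    · rw [hd]
    · have := K.L_other_symm δ d (h2.trans hδ.symm) hd β
      exact absurd hy0 this.ne'

theorem gap_zero {d : G.Dart} {δ : G.Dart} (hδ : δ.fst = d.fst) {p : E3}
    (h : p ∈ convexHull ℝ (K.FV (.inr d))) (h0 : K.L δ p = 0) :
    (d = δ ∧ p ∈ segment ℝ (K.pos (δ, false)) (K.pos (δ, true))) ∨
    (K.nu d = δ ∧ p ∈ segment ℝ (K.pos (δ.symm, false)) (K.pos (δ.symm, true))) := by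
  have h1 := (K.isAff_L δ).mem_zero (S := K.FV (.inr d)) (fun y hy => K.L_FV hδ hy) h h0
  have key : ∀ y ∈ {y | y ∈ K.FV (.inr d) ∧ K.L δ y = 0}, ∃ β : Bool,
      (d = δ ∧ y = K.pos (δ, β)) ∨ (K.nu d = δ ∧ y = K.pos (δ.symm, β)) := by
    rintro y ⟨hy, hy0⟩
    obtain ⟨β, rfl | rfl⟩ := K.of_mem_gap hy
    · refine ⟨β, Or.inl ?_⟩
      by_cases hd : d = δ
      · exact ⟨hd, by rw [hd]⟩
      · have := K.L_other δ d hδ.symm hd β
        exact absurd hy0 this.ne'
    · refine ⟨β, Or.inr ?_⟩
      by_cases hd : K.nu d = δ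
      · exact ⟨hd, by rw [hd]⟩
      · have := K.L_other_symm δ (K.nu d) ((K.nu_fst d).trans hδ.symm) hd β
        exact absurd hy0 this.ne'
  by_cases hd : d = δ
  · left
    refine ⟨hd, mem_segment_of_subset_pair ?_ h1⟩
    intro y hy
    obtain ⟨β, ⟨_, h2⟩ | ⟨h2, _⟩⟩ := key y hy
    · cases β
      · left; exact h2
      · right; exact h2
    · exact absurd (h2.trans hd.symm) (K.nu_ne d)
  · by_cases hn : K.nu d = δ
    · right
      refine ⟨hn, mem_segment_of_subset_pair ?_ h1⟩
      intro y hy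
      obtain ⟨β, ⟨h2, _⟩ | ⟨_, h2⟩⟩ := key y hy
      · exact absurd h2 hd
      · cases β
        · left; exact h2
        · right; exact h2
    · exfalso
      have : {y | y ∈ K.FV (.inr d) ∧ K.L δ y = 0} = ∅ := by
        rw [Set.eq_empty_iff_forall_notMem]
        intro y hy
        obtain ⟨β, ⟨h2, _⟩ | ⟨h2, _⟩⟩ := key y hy
        · exact hd h2
        · exact hn h2
      rw [this, convexHull_empty] at h1
      exact h1

theorem eq_left_of_mem_segment {f : E3 → ℝ} (hf : IsAff f) {a b x : E3}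
    (hx : x ∈ segment ℝ a b) (hab : f a ≠ f b) (h : f x = f a) : x = a := by
  obtain ⟨s, t, hs, ht, hst, rfl⟩ := hx
  rw [hf a b s t hst] at h
  have hs' : s = 1 - t := by linarith
  rw [hs'] at h
  have h2 : t * (f b - f a) = 0 := by linarith
  rcases mul_eq_zero.1 h2 with h3 | h3
  · rw [hs', h3]; simp
  · exact absurd (by linarith) hab

theorem vertical_segment {w : W} {v : G.Dart} (h0 : K.H w (K.pos (v, false)) = 0)
    (h1 : K.H w (K.pos (v, true)) = K.h) {p : E3}
    (hp : p ∈ segment ℝ (K.pos (v, false)) (K.pos (v, true))) (β : Bool)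
    (hβ : K.H w p = if β then K.h else 0) : p = K.pos (v, β) := by
  have hh := K.h_pos
  cases β
  · refine eq_left_of_mem_segment (K.isAff_H w) hp ?_ ?_
    · rw [h0, h1]; exact hh.ne
    · rw [hβ, h0]; rfl
  · rw [segment_symm] at hp
    refine eq_left_of_mem_segment (K.isAff_H w) hp ?_ ?_
    · rw [h0, h1]; exact hh.ne'
    · rw [hβ, h1]; rfl

theorem L_eq_zero {i j : (W × Bool) ⊕ G.Dart} {δ : G.Dart} (h1 : δ.fst = wall i)
    (h2 : δ.snd = wall j) {p : E3} (hp : p ∈ convexHull ℝ (K.FV i))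
    (hq : p ∈ convexHull ℝ (K.FV j)) : K.L δ p = 0 := by
  have a1 : 0 ≤ K.L δ p := (K.isAff_L δ).nonneg (fun y hy => K.L_FV h1 hy) hp
  have a2 : 0 ≤ K.L δ.symm p :=
    (K.isAff_L δ.symm).nonneg (fun y hy => K.L_FV (i := j) (δ := δ.symm) h2 hy) hq
  rw [K.L_symm] at a2
  linarith

theorem meet_adj_slab_slab (δ : G.Dart) (β γ : Bool) :
    K.Meet (.inl (δ.fst, β)) (.inl (δ.snd, γ)) := by
  by_cases hβγ : β = γ
  · subst hβγ
    have main : ∀ p ∈ convexHull ℝ (K.FV (.inl (δ.fst, β))),
        p ∈ convexHull ℝ (K.FV (.inl (δ.snd, β))) →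
        p ∈ segment ℝ (K.pos (δ, β)) (K.pos (δ.symm, β)) := by
      intro p hp hq
      exact K.slab_zero rfl hp (K.L_eq_zero (δ := δ) rfl rfl hp hq)
    cases β
    · refine K.meet_of_side (x := tc δ) rfl rfl (fun p hp hq => ?_)
      have := main p hp hq
      rw [segment_symm] at this
      exact this
    · refine K.meet_of_side (x := bc δ) rfl rfl (fun p hp hq => ?_)
      have := main p hp hq
      rw [show K.src (K.nx (bc δ)) = (δ.symm, true) by simp [src]]
      exact this
  · apply K.meet_of_disjoint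
    intro p hp hq
    have h1 := K.H_slab hp
    have h2 := K.H_slab hq
    have h3 := K.H_sub_H δ p
    rw [K.L_eq_zero (δ := δ) rfl rfl hp hq, h1, h2] at h3
    have hh := K.h_pos.ne'
    cases β <;> cases γ <;> simp_all

theorem meet_adj_slab_gap (δ : G.Dart) (β : Bool) (e : G.Dart) (he : e.fst = δ.snd) :
    K.Meet (.inl (δ.fst, β)) (.inr e) := by
  have main : ∀ p ∈ convexHull ℝ (K.FV (.inl (δ.fst, β))),
      p ∈ convexHull ℝ (K.FV (.inr e)) →
      (e = δ.symm ∧ p = K.pos (δ.symm, β)) ∨ (K.nu e = δ.symm ∧ p = K.pos (δ, β)) := by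
    intro p hp hq
    have h0 := K.L_eq_zero (δ := δ) (i := .inl (δ.fst, β)) (j := .inr e) rfl he.symm hp hq
    have hβ : K.H δ.snd p = if β then K.h else 0 := by
      rw [← K.H_slab hp]
      have := K.H_sub_H δ p
      linarith
    rcases K.gap_zero (d := e) (δ := δ.symm) he.symm hq (by rw [K.L_symm, h0, neg_zero])
      with ⟨h1, h2⟩ | ⟨h1, h2⟩
    · left
      refine ⟨h1, K.vertical_segment (w := δ.snd) ?_ ?_ h2 β hβ⟩
      · exact K.H_pos_fst (d := δ.symm) (w := δ.snd) rfl false
      · exact K.H_pos_fst (d := δ.symm) (w := δ.snd) rfl true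
    · right
      refine ⟨h1, ?_⟩
      rw [SimpleGraph.Dart.symm_symm] at h2
      refine K.vertical_segment (w := δ.snd) ?_ ?_ h2 β hβ
      · have := K.H_pos_snd (d := δ.symm) (w := δ.snd) rfl false
        rw [SimpleGraph.Dart.symm_symm] at this
        exact this
      · have := K.H_pos_snd (d := δ.symm) (w := δ.snd) rfl true
        rw [SimpleGraph.Dart.symm_symm] at this
        exact this
  by_cases h1 : e = δ.symm
  · have main' : ∀ p ∈ convexHull ℝ (K.FV (.inl (δ.fst, β))),
        p ∈ convexHull ℝ (K.FV (.inr e)) → p = K.pos (δ.symm, β) := by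
      intro p hp hq
      rcases main p hp hq with ⟨_, h⟩ | ⟨h, _⟩
      · exact h
      · exact absurd (h.trans h1.symm) (K.nu_ne e)
    cases β
    · exact K.meet_of_vertex (x := tc δ) (y := gl e) rfl rfl (by simp [src, h1]) main'
    · refine K.meet_of_vertex (x := bg (K.nu.symm δ)) (y := gb e) ?_ rfl (by simp [src, h1]) ?_
      · simp [fc, K.nu_symm_fst]
      · intro p hp hq
        rw [main' p hp hq]
        simp [src]
  · by_cases h2 : K.nu e = δ.symm
    · have main' : ∀ p ∈ convexHull ℝ (K.FV (.inl (δ.fst, β))),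
          p ∈ convexHull ℝ (K.FV (.inr e)) → p = K.pos (δ, β) := by
        intro p hp hq
        rcases main p hp hq with ⟨h, _⟩ | ⟨_, h⟩
        · exact absurd h h1
        · exact h
      cases β
      · exact K.meet_of_vertex (x := tg δ) (y := gt e) rfl rfl (by simp [src, h2]) main'
      · exact K.meet_of_vertex (x := bc δ) (y := gr e) rfl rfl (by simp [src, h2]) main'
    · apply K.meet_of_disjoint
      intro p hp hq
      rcases main p hp hq with ⟨h, _⟩ | ⟨h, _⟩
      · exact h1 h
      · exact h2 h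

theorem vertical_q {v : G.Dart} {p : E3}
    (hp : p ∈ segment ℝ (K.pos (v, false)) (K.pos (v, true))) : (p 0, p 1) = K.q v := by
  rw [← convexHull_pair] at hp
  have a0 : IsAff (fun x : E3 => x 0) := by
    have := isAff_lin 1 0 0 0
    simpa using this
  have a1 : IsAff (fun x : E3 => x 1) := by
    have := isAff_lin 0 1 0 0
    simpa using this
  have h0 := a0.eq_const (c := (K.q v).1) (by
    rintro y (rfl | rfl)
    · rw [pos_zero]
    · rw [pos_zero]) hp
  have h1 := a1.eq_const (c := (K.q v).2) (by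
    rintro y (rfl | rfl)
    · rw [pos_one]
    · rw [pos_one]) hp
  exact Prod.ext h0 h1

theorem meet_adj_gap_gap (δ d e : G.Dart) (hd : d.fst = δ.fst) (he : e.fst = δ.snd) :
    K.Meet (.inr d) (.inr e) := by
  have main : ∀ p ∈ convexHull ℝ (K.FV (.inr d)), p ∈ convexHull ℝ (K.FV (.inr e)) →
      (d = δ ∧ K.nu e = δ.symm ∧ p ∈ segment ℝ (K.pos (δ, false)) (K.pos (δ, true))) ∨
      (K.nu d = δ ∧ e = δ.symm ∧
        p ∈ segment ℝ (K.pos (δ.symm, false)) (K.pos (δ.symm, true))) := by
    intro p hp hq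
    have h0 := K.L_eq_zero (δ := δ) (i := .inr d) (j := .inr e) hd.symm he.symm hp hq
    rcases K.gap_zero (d := d) (δ := δ) hd.symm hp h0 with ⟨h1, h2⟩ | ⟨h1, h2⟩
    · rcases K.gap_zero (d := e) (δ := δ.symm) he.symm hq (by rw [K.L_symm, h0, neg_zero])
        with ⟨h3, h4⟩ | ⟨h3, h4⟩
      · exfalso
        have e1 := K.vertical_q h2
        have e2 := K.vertical_q h4
        exact K.q_ne δ (e1.symm.trans e2)
      · left; exact ⟨h1, h3, h2⟩
    · rcases K.gap_zero (d := e) (δ := δ.symm) he.symm hq (by rw [K.L_symm, h0, neg_zero])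
        with ⟨h3, h4⟩ | ⟨h3, h4⟩
      · right; exact ⟨h1, h3, h2⟩
      · exfalso
        have e1 := K.vertical_q h2
        have e2 := K.vertical_q h4
        rw [SimpleGraph.Dart.symm_symm] at e2
        exact K.q_ne δ (e2.symm.trans e1)
  by_cases h1 : d = δ ∧ K.nu e = δ.symm
  · obtain ⟨h1, h2⟩ := h1
    refine K.meet_of_side (x := gl d) rfl ?_ (fun p hp hq => ?_)
    · simp only [op, fc, Sum.inr.injEq]
      rw [h1, Equiv.symm_apply_eq, h2]
    · rcases main p hp hq with ⟨_, _, h⟩ | ⟨h, _, _⟩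
      · rw [h1]; exact h
      · exact absurd (h.trans h1.symm) (K.nu_ne d)
  · by_cases h2 : K.nu d = δ ∧ e = δ.symm
    · obtain ⟨h2, h3⟩ := h2
      refine K.meet_of_side (x := gr d) rfl ?_ (fun p hp hq => ?_)
      · simp only [op, fc, Sum.inr.injEq]
        rw [h2, h3]
      · rcases main p hp hq with ⟨h, _, _⟩ | ⟨_, _, h⟩
        · exact absurd (h2.trans h.symm) (K.nu_ne d)
        · rw [segment_symm, ← h2] at h
          exact h
    · apply K.meet_of_disjoint
      intro p hp hq
      rcases main p hp hq with ⟨a, b, _⟩ | ⟨a, b, _⟩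
      · exact h1 ⟨a, b⟩
      · exact h2 ⟨a, b⟩

theorem meet_same_slab_slab (w : W) (β γ : Bool) (h : β ≠ γ) :
    K.Meet (.inl (w, β)) (.inl (w, γ)) := by
  apply K.meet_of_disjoint
  intro p hp hq
  have h1 := K.H_slab hp
  have h2 := K.H_slab hq
  rw [h1] at h2
  have hh := K.h_pos.ne'
  cases β <;> cases γ <;> simp_all

theorem meet_same_slab_gap (β : Bool) (d : G.Dart) :
    K.Meet (.inl (d.fst, β)) (.inr d) := by
  have main : ∀ p ∈ convexHull ℝ (K.FV (.inl (d.fst, β))), p ∈ convexHull ℝ (K.FV (.inr d)) →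
      p ∈ segment ℝ (K.pos (d, β)) (K.pos ((K.nu d).symm, β)) := by
    intro p hp hq
    have h1 := K.H_slab hp
    have hh := K.h_pos
    have hv : ∀ y ∈ K.FV (.inr d), ∃ γ : Bool, (y = K.pos (d, γ) ∨ y = K.pos ((K.nu d).symm, γ)) ∧
        K.H d.fst y = if γ then K.h else 0 := by
      intro y hy
      obtain ⟨γ, hγ⟩ := K.of_mem_gap hy
      refine ⟨γ, hγ, ?_⟩
      rcases hγ with rfl | rfl
      · exact K.H_pos_fst rfl γ
      · exact K.H_pos_snd (K.nu_fst d) γ
    cases β
    · simp only [Bool.false_eq_true, if_false] at h1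
      have h2 := (K.isAff_H d.fst).mem_zero (S := K.FV (.inr d)) (fun y hy => by
        obtain ⟨γ, _, h⟩ := hv y hy
        rw [h]; split_ifs
        · exact hh.le
        · exact le_rfl) hq h1
      refine mem_segment_of_subset_pair ?_ h2
      rintro y ⟨hy, hy0⟩
      obtain ⟨γ, h3, h⟩ := hv y hy
      cases γ
      · exact h3
      · rw [h] at hy0; simp at hy0; exact absurd hy0 hh.ne'
    · simp only [if_true] at h1
      have h2 := ((K.isAff_H d.fst).const_sub K.h).mem_zero (S := K.FV (.inr d)) (fun y hy => by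
        obtain ⟨γ, _, h⟩ := hv y hy
        show 0 ≤ K.h - K.H d.fst y
        rw [h]; split_ifs
        · simp
        · simp; exact hh.le) hq (show K.h - K.H d.fst p = 0 by rw [h1]; ring)
      refine mem_segment_of_subset_pair ?_ h2
      rintro y ⟨hy, hy0⟩
      obtain ⟨γ, h3, h⟩ := hv y hy
      cases γ
      · replace hy0 : K.h - K.H d.fst y = 0 := hy0
        rw [h] at hy0; simp at hy0; exact absurd hy0 hh.ne'
      · exact h3
  cases β
  · exact K.meet_of_side (x := tg d) rfl rfl main
  · refine K.meet_of_side (x := bg d) rfl rfl (fun p hp hq => ?_)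
    have := main p hp hq
    rw [segment_symm] at this
    exact this

theorem meet_same_gap_gap (d e : G.Dart) (h : d.fst = e.fst) (hde : d ≠ e) :
    K.Meet (.inr d) (.inr e) := by
  apply K.meet_of_disjoint
  intro p hp hq
  have h1 := K.Gf_gap hp
  have h2 : 0 < K.Gf d p := by
    refine (K.isAff_Gf d).pos (S := K.FV (.inr e)) ?_ hq
    intro y hy
    obtain ⟨γ, rfl | rfl⟩ := K.of_mem_gap hy
    · exact K.Gf_other d e h.symm (Ne.symm hde) γ
    · exact K.Gf_other_symm d (K.nu e) ((K.nu_fst e).trans h.symm)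
        (fun hh => hde (K.nu.injective hh.symm)) γ
  linarith

theorem meet_far {i j : (W × Bool) ⊕ G.Dart} (h : wall i ≠ wall j) (hadj : ¬ G.Adj (wall i) (wall j)) :
    K.Meet i j := by
  apply K.meet_of_disjoint
  intro p hp hq
  obtain ⟨a, b, c, f, hpos, hneg⟩ := K.sep _ _ h hadj
  have h1 : 0 < a * p 0 + b * p 1 + c * p 2 + f := by
    refine (isAff_lin a b c f).pos (S := K.FV i) ?_ hp
    intro y hy
    obtain ⟨d, β, h1, rfl | rfl⟩ := K.of_mem_FV hy
    · exact (K.sep_pos hpos d h1 β).1
    · exact (K.sep_pos hpos d h1 β).2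
  have h2 : 0 < - (a * p 0 + b * p 1 + c * p 2 + f) := by
    refine (isAff_lin a b c f).neg.pos (S := K.FV j) ?_ hq
    intro y hy
    obtain ⟨d, β, h1, rfl | rfl⟩ := K.of_mem_FV hy
    · exact neg_pos.2 (K.sep_neg hneg d h1 β).1
    · exact neg_pos.2 (K.sep_neg hneg d h1 β).2
  linarith

theorem meet_adj {i j : (W × Bool) ⊕ G.Dart} (hadj : G.Adj (wall i) (wall j)) : K.Meet i j := by
  obtain ⟨δ, h1, h2⟩ : ∃ δ : G.Dart, δ.fst = wall i ∧ δ.snd = wall j :=
    ⟨⟨(wall i, wall j), hadj⟩, rfl, rfl⟩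
  rcases i with ⟨w, β⟩ | d
  · obtain rfl : δ.fst = w := h1
    rcases j with ⟨w', γ⟩ | e
    · obtain rfl : δ.snd = w' := h2
      exact K.meet_adj_slab_slab δ β γ
    · exact K.meet_adj_slab_gap δ β e h2.symm
  · rcases j with ⟨w', γ⟩ | e
    · obtain rfl : δ.snd = w' := h2
      exact (K.meet_adj_slab_gap δ.symm γ d h1.symm).symm
    · exact K.meet_adj_gap_gap δ d e h1.symm h2.symm

theorem inter (i j : (W × Bool) ⊕ G.Dart) (hij : i ≠ j) : K.Meet i j := by
  by_cases h : wall i = wall j
  · rcases i with ⟨w, β⟩ | d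
    · rcases j with ⟨w', γ⟩ | e
      · obtain rfl : w = w' := h
        exact K.meet_same_slab_slab w β γ (fun hh => hij (by rw [hh]))
      · obtain rfl : w = e.fst := h
        exact K.meet_same_slab_gap β e
    · rcases j with ⟨w', γ⟩ | e
      · obtain rfl : d.fst = w' := h
        exact (K.meet_same_slab_gap γ d).symm
      · exact K.meet_same_gap_gap d e h (fun hh => hij (by rw [hh]))
  · by_cases hadj : G.Adj (wall i) (wall j)
    · exact K.meet_adj hadj
    · exact K.meet_far h hadj

end PrismSystem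

open PrismSystem in
/-- A system of prisms gives a closed polyhedral surface, in which the top faces of adjacent
walls are adjacent. -/
theorem PrismSystem.exists_dartSurface {W : Type} [Fintype W] {G : SimpleGraph W}
    (K : PrismSystem W G) (hconn : G.Connected) (hne : Nonempty G.Dart) :
    ∃ g, ∃ S : DartSurface g, ∃ top : W → S.ι, ∀ w w', G.Adj w w' →
      ∃ d, S.fc d = top w ∧ S.fc (S.op d) = top w' := by
  classical
  have hd : ∀ w : W, ∃ d : G.Dart, d.fst = w := by
    intro w
    obtain ⟨d0⟩ := hne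
    by_cases hw : w = d0.fst
    · exact ⟨d0, hw.symm⟩
    · obtain ⟨p⟩ := hconn.preconnected w d0.fst
      cases p with
      | nil => exact absurd rfl hw
      | cons h _ => exact ⟨⟨(_, _), h⟩, rfl⟩
  have hcard : Fintype.card G.Dart = 2 * G.edgeFinset.card := G.dart_card_eq_twice_card_edges
  have hW : Fintype.card W ≤ G.edgeFinset.card + 1 := by
    have := hconn.card_vert_le_card_edgeSet_add_one
    rw [Nat.card_eq_fintype_card, Nat.card_eq_fintype_card] at this
    rwa [← SimpleGraph.edgeFinset_card] at this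
  let _ : Fintype (PD G) := Fintype.ofEquiv _ PD.equiv.symm
  have hcD : Fintype.card (PD G) = Fintype.card G.Dart * 8 := by
    rw [Fintype.card_congr (PD.equiv (G := G)), Fintype.card_prod, Fintype.card_fin]
  refine ⟨G.edgeFinset.card + 1 - Fintype.card W,
    { ι := (W × Bool) ⊕ G.Dart
      D := PD G
      V := G.Dart × Bool
      fc := fc
      nx := K.nx
      op := K.op
      src := K.src
      pos := K.pos
      nrm := K.nrm
      fc_nx := K.fc_nx
      nx_nx := K.nx_nx
      nx_ne := K.nx_ne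
      op_op := K.op_op
      src_op := K.src_op
      fc_op := K.fc_op
      fc_surj := fc_surj hd
      src_surj := K.src_surj
      nonempty := hne.map PD.tc
      dart_inj := K.dart_inj
      pos_inj := K.pos_inj
      plane := K.plane
      convex := K.convex
      inter := K.inter
      link := K.link
      conn := K.conn hconn hd
      bent := K.bent
      euler := ?_ }, fun w => .inl (w, false), ?_⟩
  · rw [hcD, Fintype.card_sum, Fintype.card_prod, Fintype.card_prod, Fintype.card_bool, hcard]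
    omega
  · intro w w' h
    exact ⟨PD.tc ⟨(w, w'), h⟩, rfl, rfl⟩

end Pool.Agent.Lib.MP_93b2dd_co
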