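import Mathlib
import Pool.Agent.Lib.MP_93b2dd_co.Prism

/-!
# Contact systems of affine walls
-/

namespace Pool.Agent.Lib.MP_93b2dd_co

/-- A contact system realizing the graph `G`: every vertex `w` is an affine function
`A w * x + B w * z + C w` (a non-vertical plane), every edge `w w'` is a point
`(x w w', z w w')` at which the two affine functions agree. -/
structure ContactSystem (W : Type) (G : SimpleGraph W) where
  A : W → ℝ
  B : W → ℝ
  C : W → ℝ
  x : W → W → ℝ
  z : W → W → ℝ
  x_comm : ∀ w w', G.Adj w w' → x w w' = x w' w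
  z_comm : ∀ w w', G.Adj w w' → z w w' = z w' w
  touch : ∀ w w', G.Adj w w' →
    A w * x w w' + B w * z w w' + C w = A w' * x w w' + B w' * z w w' + C w'
  above : ∀ w w' u, G.Adj w w' → G.Adj w u → u ≠ w' →
    A w' * x w u + B w' * z w u + C w' < A w * x w u + B w * z w u + C w
  sep : ∀ w w', w ≠ w' → ¬ G.Adj w w' → ∃ a b c e : ℝ,
    (∀ u, G.Adj w u →
      0 < a * x w u + b * z w u + c * (A w * x w u + B w * z w u + C w) + e) ∧
    (∀ u, G.Adj w' u →
      a * x w' u + b * z w' u + c * (A w' * x w' u + B w' * z w' u + C w') + e < 0)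
  noncol : ∀ w w' u u', G.Adj w w' → G.Adj w u → u ≠ w' → G.Adj w' u' → u' ≠ w →
    (x w u - x w w') * (z w' u' - z w w') - (z w u - z w w') * (x w' u' - x w w') ≠ 0

namespace ContactSystem

variable {W : Type} {G : SimpleGraph W}

/-- The contact point of a dart. -/
def pt (K : ContactSystem W G) (d : G.Dart) : ℝ × ℝ := (K.x d.fst d.snd, K.z d.fst d.snd)

/-- The difference of the two affine functions of a dart. -/
def lf (K : ContactSystem W G) (d : G.Dart) (v : ℝ × ℝ) : ℝ :=
  (K.A d.fst - K.A d.snd) * v.1 + (K.B d.fst - K.B d.snd) * v.2 + (K.C d.fst - K.C d.snd)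

/-- The direction of the zero line of `lf`. -/
def dv (K : ContactSystem W G) (d : G.Dart) : ℝ × ℝ :=
  (K.B d.fst - K.B d.snd, -(K.A d.fst - K.A d.snd))

theorem pt_symm (K : ContactSystem W G) (d : G.Dart) : K.pt d.symm = K.pt d := by
  unfold pt
  rw [Prod.mk.injEq]
  exact ⟨(K.x_comm _ _ d.adj).symm, (K.z_comm _ _ d.adj).symm⟩

theorem dv_symm (K : ContactSystem W G) (d : G.Dart) : K.dv d.symm = - K.dv d := by
  unfold dv
  ext
  · simp
  · simp

theorem lf_symm (K : ContactSystem W G) (d : G.Dart) (v : ℝ × ℝ) :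
    K.lf d.symm v = - K.lf d v := by
  unfold lf
  simp only [SimpleGraph.Dart.symm, Prod.fst_swap, Prod.snd_swap]
  ring

theorem lf_pt (K : ContactSystem W G) (d : G.Dart) : K.lf d (K.pt d) = 0 := by
  have := K.touch _ _ d.adj
  unfold lf pt
  simp only
  linarith

theorem ne_snd {d d' : G.Dart} (h : d'.fst = d.fst) (hne : d' ≠ d) : d'.snd ≠ d.snd := by
  intro h2
  exact hne (SimpleGraph.Dart.ext _ _ (Prod.ext h h2))

theorem lf_pos (K : ContactSystem W G) {d d' : G.Dart} (h : d'.fst = d.fst) (hne : d' ≠ d) :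
    0 < K.lf d (K.pt d') := by
  have h1 : G.Adj d.fst d'.snd := h ▸ d'.adj
  have := K.above d.fst d.snd d'.snd d.adj h1 (ne_snd h hne)
  unfold lf pt
  simp only [h]
  linarith

theorem det2_dv (K : ContactSystem W G) (d : G.Dart) (v v' : ℝ × ℝ) :
    det2 (K.dv d) (v - v') = K.lf d v - K.lf d v' := by
  unfold det2 dv lf
  simp only [Prod.fst_sub, Prod.snd_sub]
  ring

theorem det2_pos (K : ContactSystem W G) {d d' : G.Dart} (h : d'.fst = d.fst) (hne : d' ≠ d) :
    0 < det2 (K.dv d) (K.pt d' - K.pt d) := by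
  rw [K.det2_dv, K.lf_pt]
  simpa using K.lf_pos h hne

theorem noncol_same (K : ContactSystem W G) {d d' d'' : G.Dart} (h1 : d'.fst = d.fst)
    (h2 : d''.fst = d.fst) (n1 : d' ≠ d) (n2 : d'' ≠ d) (n3 : d'' ≠ d') :
    det2 (K.pt d' - K.pt d) (K.pt d'' - K.pt d) ≠ 0 := by
  intro h0
  have e1 := K.det2_pos h1 n1
  have e2 := K.det2_pos h2 n2
  have e3 := K.det2_pos (h1.symm) n1.symm
  have e4 := K.det2_pos (h2.symm) n2.symm
  have e5 := K.det2_pos (h2.trans h1.symm) n3
  have e6 := K.det2_pos (h1.trans h2.symm) n3.symm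
  generalize K.pt d = p at *
  generalize K.pt d' = p' at *
  generalize K.pt d'' = p'' at *
  generalize K.dv d = a at *
  generalize K.dv d' = a' at *
  generalize K.dv d'' = a'' at *
  obtain ⟨p1, p2⟩ := p
  obtain ⟨q1, q2⟩ := p'
  obtain ⟨r1, r2⟩ := p''
  obtain ⟨a1, a2⟩ := a
  obtain ⟨b1, b2⟩ := a'
  obtain ⟨c1, c2⟩ := a''
  simp only [det2, Prod.fst_sub, Prod.snd_sub] at *
  obtain ⟨u1, hu1⟩ : ∃ u1, u1 = q1 - p1 := ⟨_, rfl⟩
  obtain ⟨u2, hu2⟩ : ∃ u2, u2 = q2 - p2 := ⟨_, rfl⟩
  obtain ⟨v1, hv1⟩ : ∃ v1, v1 = r1 - p1 := ⟨_, rfl⟩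
  obtain ⟨v2, hv2⟩ : ∃ v2, v2 = r2 - p2 := ⟨_, rfl⟩
  rw [← hu1, ← hu2, ← hv1, ← hv2] at h0
  rw [← hu1, ← hu2] at e1
  rw [← hv1, ← hv2] at e2
  rw [show p1 - q1 = -u1 by linarith, show p2 - q2 = -u2 by linarith] at e3
  rw [show p1 - r1 = -v1 by linarith, show p2 - r2 = -v2 by linarith] at e4
  rw [show r1 - q1 = v1 - u1 by linarith, show r2 - q2 = v2 - u2 by linarith] at e5
  rw [show q1 - r1 = u1 - v1 by linarith, show q2 - r2 = u2 - v2 by linarith] at e6
  obtain ⟨s, hs⟩ : ∃ s, s = (a1 * v2 - a2 * v1) / (a1 * u2 - a2 * u1) := ⟨_, rfl⟩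
  have hspos : 0 < s := by rw [hs]; exact div_pos e2 e1
  have hv1' : v1 = s * u1 := by
    rw [hs]
    field_simp
    linear_combination (-a1) * h0
  have hv2' : v2 = s * u2 := by
    rw [hs]
    field_simp
    linear_combination (-a2) * h0
  rw [hv1', hv2'] at e4 e5 e6
  have f3 : b1 * u2 - b2 * u1 < 0 := by linarith
  have f5 : 0 < (s - 1) * (b1 * u2 - b2 * u1) := by linarith
  have f4 : 0 < - (s * (c1 * u2 - c2 * u1)) := by linarith
  have f6 : 0 < (1 - s) * (c1 * u2 - c2 * u1) := by linarith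
  have g1 : s - 1 < 0 := by
    by_contra hc
    push Not at hc
    nlinarith
  have g2 : c1 * u2 - c2 * u1 < 0 := by
    by_contra hc
    push Not at hc
    nlinarith
  nlinarith

/-- For vectors in an open half plane there is a first one in the angular order. -/
theorem exists_next [Fintype W] (K : ContactSystem W G)
    (hdeg : ∀ v, ∃ a b, a ≠ b ∧ G.Adj v a ∧ G.Adj v b) (d : G.Dart) :
    ∃ n : G.Dart, n.fst = d.fst ∧ n ≠ d ∧ ∀ d' : G.Dart, d'.fst = d.fst → d' ≠ d → d' ≠ n →
      0 < det2 (K.pt n - K.pt d) (K.pt d' - K.pt d) := by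
  classical
  let S : Finset G.Dart := Finset.univ.filter (fun e => e.fst = d.fst ∧ e ≠ d)
  have hS : S.Nonempty := by
    obtain ⟨a, b, hab, ha, hb⟩ := hdeg d.fst
    by_cases h : a = d.snd
    · refine ⟨⟨(d.fst, b), hb⟩, ?_⟩
      simp only [S, Finset.mem_filter, Finset.mem_univ, true_and, ne_eq]
      intro h2
      apply hab
      rw [h, ← h2]
    · refine ⟨⟨(d.fst, a), ha⟩, ?_⟩
      simp only [S, Finset.mem_filter, Finset.mem_univ, true_and, ne_eq]
      intro h2
      apply h
      rw [← h2]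
  let f : G.Dart → ℝ := fun e =>
    ((K.dv d).1 * (K.pt e - K.pt d).1 + (K.dv d).2 * (K.pt e - K.pt d).2) /
      det2 (K.dv d) (K.pt e - K.pt d)
  obtain ⟨n, hn, hmax⟩ := Finset.exists_max_image S f hS
  simp only [S, Finset.mem_filter, Finset.mem_univ, true_and] at hn
  refine ⟨n, hn.1, hn.2, fun d' h1 h2 h3 => ?_⟩
  have hle := hmax d' (by simp [S, h1, h2])
  have p1 := K.det2_pos hn.1 hn.2
  have p2 := K.det2_pos h1 h2
  have hne := K.noncol_same hn.1 h1 hn.2 h2 h3
  refine lt_of_le_of_ne ?_ hne.symm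
  simp only [f] at hle
  rw [div_le_div_iff₀ p2 p1] at hle
  have hd : 0 < (K.dv d).1 ^ 2 + (K.dv d).2 ^ 2 := by
    by_contra hc
    push Not at hc
    have e1 : (K.dv d).1 = 0 := by nlinarith [sq_nonneg (K.dv d).1, sq_nonneg (K.dv d).2]
    have e2 : (K.dv d).2 = 0 := by nlinarith [sq_nonneg (K.dv d).1, sq_nonneg (K.dv d).2]
    rw [det2, e1, e2] at p1
    simp at p1
  generalize K.pt n - K.pt d = u at *
  generalize K.pt d' - K.pt d = v at *
  generalize K.dv d = w at *
  have key : det2 u v * (w.1 ^ 2 + w.2 ^ 2) =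
      (w.1 * u.1 + w.2 * u.2) * det2 w v - (w.1 * v.1 + w.2 * v.2) * det2 w u := by
    unfold det2
    ring
  by_contra hc
  push Not at hc
  nlinarith

/-- The rotation of the darts at the vertices. -/
theorem exists_rotation [Fintype W] (K : ContactSystem W G)
    (hdeg : ∀ v, ∃ a b, a ≠ b ∧ G.Adj v a ∧ G.Adj v b) :
    ∃ nu : Equiv.Perm G.Dart, (∀ d, (nu d).fst = d.fst) ∧ (∀ d, nu d ≠ d) ∧
      ∀ d d' : G.Dart, d'.fst = d.fst → d' ≠ d → d' ≠ nu d →
        0 < det2 (K.pt (nu d) - K.pt d) (K.pt d' - K.pt d) := by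
  classical
  choose n h1 h2 h3 using K.exists_next hdeg
  have hinj : Function.Injective n := by
    intro d d' hdd'
    by_contra hne
    have g1 : d'.fst = d.fst := by rw [← h1 d', ← hdd', h1 d]
    have g2 := h3 d d' g1 (fun h => hne h.symm) (fun h => h2 d' (by rw [← hdd']; exact h.symm))
    have g3 := h3 d' d g1.symm hne (fun h => h2 d (by rw [hdd']; exact h.symm))
    rw [← hdd'] at g3
    unfold det2 at g2 g3
    simp only [Prod.fst_sub, Prod.snd_sub] at g2 g3
    linarith
  refine ⟨Equiv.ofBijective n (Finite.injective_iff_bijective.mp hinj), fun d => h1 d,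
    fun d => h2 d, fun d d' => h3 d d'⟩

/-- Positivity of a continuous function persists near `0`. -/
theorem ev_pos {f : ℝ → ℝ} (hf : Continuous f) (h : 0 < f 0) :
    ∀ᶠ t in nhdsWithin (0 : ℝ) (Set.Ioi 0), 0 < f t :=
  ((hf.tendsto 0).eventually (lt_mem_nhds h)).filter_mono nhdsWithin_le_nhds

/-- Non-vanishing of a continuous function persists near `0`. -/
theorem ev_ne {f : ℝ → ℝ} (hf : Continuous f) (h : f 0 ≠ 0) :
    ∀ᶠ t in nhdsWithin (0 : ℝ) (Set.Ioi 0), f t ≠ 0 :=
  ((hf.tendsto 0).eventually_ne h).filter_mono nhdsWithin_le_nhds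

/-- The perturbed points. -/
def qt (K : ContactSystem W G) (t : ℝ) (d : G.Dart) : ℝ × ℝ := K.pt d + t • K.dv d

theorem qt_symm (K : ContactSystem W G) (t : ℝ) (d : G.Dart) :
    K.qt t d.symm = K.pt d - t • K.dv d := by
  unfold qt
  rw [K.pt_symm, K.dv_symm, smul_neg, sub_eq_add_neg]

theorem lf_qt (K : ContactSystem W G) (t : ℝ) (d : G.Dart) : K.lf d (K.qt t d) = 0 := by
  have := K.lf_pt d
  unfold lf pt at this
  unfold lf qt pt dv
  simp only [Prod.fst_add, Prod.snd_add, Prod.smul_fst, Prod.smul_snd, smul_eq_mul] at *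
  linarith

theorem qt_zero (K : ContactSystem W G) (d : G.Dart) : K.qt 0 d = K.pt d := by
  simp [qt]

@[fun_prop]
theorem qt_cont (K : ContactSystem W G) (d : G.Dart) : Continuous (fun t => K.qt t d) := by
  unfold qt
  fun_prop

theorem lf_cont (K : ContactSystem W G) (d : G.Dart) : Continuous (K.lf d) := by
  unfold lf
  fun_prop

theorem det2_cont {f g : ℝ → ℝ × ℝ} (hf : Continuous f) (hg : Continuous g) :
    Continuous (fun t => det2 (f t) (g t)) := by
  unfold det2
  fun_prop

/-- A contact system of a finite graph of minimum degree at least two can be thickened to a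
prism system. -/
theorem exists_prismSystem {W : Type} [Fintype W] {G : SimpleGraph W}
    (K : ContactSystem W G) (hdeg : ∀ v, ∃ a b, a ≠ b ∧ G.Adj v a ∧ G.Adj v b) :
    Nonempty (PrismSystem W G) := by
  classical
  obtain ⟨nu, nu_fst, nu_ne, nu_det⟩ := K.exists_rotation hdeg
  choose a b c e sep1 sep2 using K.sep
  have E1 : ∀ᶠ t in nhdsWithin (0 : ℝ) (Set.Ioi 0), ∀ d d' : G.Dart, d'.fst = d.fst → d' ≠ d →
      0 < K.lf d (K.qt t d') := by
    refine Filter.eventually_all.2 fun d => Filter.eventually_all.2 fun d' =>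
      Filter.eventually_imp_distrib_left.2 fun h1 => Filter.eventually_imp_distrib_left.2
      fun h2 => ev_pos ((K.lf_cont d).comp (K.qt_cont d')) ?_
    simp only [qt_zero]
    exact K.lf_pos h1 h2
  have E2 : ∀ᶠ t in nhdsWithin (0 : ℝ) (Set.Ioi 0), ∀ d d' : G.Dart, d'.fst = d.fst → d' ≠ d →
      0 < K.lf d (K.qt t d'.symm) := by
    refine Filter.eventually_all.2 fun d => Filter.eventually_all.2 fun d' =>
      Filter.eventually_imp_distrib_left.2 fun h1 => Filter.eventually_imp_distrib_left.2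
      fun h2 => ev_pos ((K.lf_cont d).comp (K.qt_cont d'.symm)) ?_
    simp only [qt_zero, pt_symm]
    exact K.lf_pos h1 h2
  have E3 : ∀ᶠ t in nhdsWithin (0 : ℝ) (Set.Ioi 0), ∀ d d' : G.Dart, d'.fst = d.fst → d' ≠ d →
      d' ≠ nu d → 0 < det2 (K.qt t (nu d).symm - K.qt t d) (K.qt t d' - K.qt t d) := by
    refine Filter.eventually_all.2 fun d => Filter.eventually_all.2 fun d' =>
      Filter.eventually_imp_distrib_left.2 fun h1 => Filter.eventually_imp_distrib_left.2
      fun h2 => Filter.eventually_imp_distrib_left.2 fun h3 => ev_pos (det2_cont ?_ ?_) ?_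
    · fun_prop
    · fun_prop
    · simp only [qt_zero, pt_symm]
      exact nu_det d d' h1 h2 h3
  have E4 : ∀ᶠ t in nhdsWithin (0 : ℝ) (Set.Ioi 0), ∀ d d' : G.Dart, d'.fst = d.fst → d' ≠ d →
      d' ≠ nu d → 0 < det2 (K.qt t (nu d).symm - K.qt t d) (K.qt t d'.symm - K.qt t d) := by
    refine Filter.eventually_all.2 fun d => Filter.eventually_all.2 fun d' =>
      Filter.eventually_imp_distrib_left.2 fun h1 => Filter.eventually_imp_distrib_left.2
      fun h2 => Filter.eventually_imp_distrib_left.2 fun h3 => ev_pos (det2_cont ?_ ?_) ?_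
    · fun_prop
    · fun_prop
    · simp only [qt_zero, pt_symm]
      exact nu_det d d' h1 h2 h3
  have E5 : ∀ᶠ t in nhdsWithin (0 : ℝ) (Set.Ioi 0), ∀ d : G.Dart,
      det2 (K.qt t (nu.symm d.symm) - K.qt t d) (K.qt t (nu d).symm - K.qt t d) ≠ 0 := by
    refine Filter.eventually_all.2 fun d => ev_ne (det2_cont ?_ ?_) ?_
    · fun_prop
    · fun_prop
    · simp only [qt_zero, pt_symm]
      have f1 : (nu.symm d.symm).fst = d.snd := by
        have := nu_fst (nu.symm d.symm)
        rw [Equiv.apply_symm_apply] at this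
        rw [← this]
        rfl
      have f2 : nu.symm d.symm ≠ d.symm := by
        intro h
        apply nu_ne (nu.symm d.symm)
        rw [Equiv.apply_symm_apply, h]
      have a1 : G.Adj d.fst (nu d).snd := nu_fst d ▸ (nu d).adj
      have a2 : G.Adj d.snd (nu.symm d.symm).snd := f1 ▸ (nu.symm d.symm).adj
      have n2 : (nu.symm d.symm).snd ≠ d.fst := ne_snd (d := d.symm) f1 f2
      have := K.noncol d.fst d.snd (nu d).snd (nu.symm d.symm).snd d.adj a1
        (ne_snd (nu_fst d) (nu_ne d)) a2 n2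
      intro h
      apply this
      unfold det2 pt at h
      simp only [Prod.fst_sub, Prod.snd_sub, f1, nu_fst] at h
      linarith
  have E6 : ∀ᶠ t in nhdsWithin (0 : ℝ) (Set.Ioi 0), ∀ (w w' : W) (hne : w ≠ w')
      (hadj : ¬ G.Adj w w') (d : G.Dart), d.fst = w →
      0 < a w w' hne hadj * (K.qt t d).1 + b w w' hne hadj * (K.qt t d).2 +
        c w w' hne hadj * (K.A w * (K.qt t d).1 + K.B w * (K.qt t d).2 + K.C w) +
        e w w' hne hadj - |c w w' hne hadj| * t := by
    refine Filter.eventually_all.2 fun w => Filter.eventually_all.2 fun w' =>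
      Filter.eventually_all.2 fun hne => Filter.eventually_all.2 fun hadj =>
      Filter.eventually_all.2 fun d => Filter.eventually_imp_distrib_left.2 fun h1 =>
      ev_pos ?_ ?_
    · fun_prop
    · simp only [qt_zero]
      have := sep1 w w' hne hadj d.snd (h1 ▸ d.adj)
      simp only [pt, h1]
      linarith
  have E7 : ∀ᶠ t in nhdsWithin (0 : ℝ) (Set.Ioi 0), ∀ (w w' : W) (hne : w ≠ w')
      (hadj : ¬ G.Adj w w') (d : G.Dart), d.fst = w →
      0 < a w w' hne hadj * (K.qt t d.symm).1 + b w w' hne hadj * (K.qt t d.symm).2 +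
        c w w' hne hadj * (K.A w * (K.qt t d.symm).1 + K.B w * (K.qt t d.symm).2 + K.C w) +
        e w w' hne hadj - |c w w' hne hadj| * t := by
    refine Filter.eventually_all.2 fun w => Filter.eventually_all.2 fun w' =>
      Filter.eventually_all.2 fun hne => Filter.eventually_all.2 fun hadj =>
      Filter.eventually_all.2 fun d => Filter.eventually_imp_distrib_left.2 fun h1 =>
      ev_pos ?_ ?_
    · fun_prop
    · simp only [qt_zero, pt_symm]
      have := sep1 w w' hne hadj d.snd (h1 ▸ d.adj)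
      simp only [pt, h1]
      linarith
  have E8 : ∀ᶠ t in nhdsWithin (0 : ℝ) (Set.Ioi 0), ∀ (w w' : W) (hne : w ≠ w')
      (hadj : ¬ G.Adj w w') (d : G.Dart), d.fst = w' →
      0 < -(a w w' hne hadj * (K.qt t d).1 + b w w' hne hadj * (K.qt t d).2 +
        c w w' hne hadj * (K.A w' * (K.qt t d).1 + K.B w' * (K.qt t d).2 + K.C w') +
        e w w' hne hadj) - |c w w' hne hadj| * t := by
    refine Filter.eventually_all.2 fun w => Filter.eventually_all.2 fun w' =>
      Filter.eventually_all.2 fun hne => Filter.eventually_all.2 fun hadj =>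
      Filter.eventually_all.2 fun d => Filter.eventually_imp_distrib_left.2 fun h1 =>
      ev_pos ?_ ?_
    · fun_prop
    · simp only [qt_zero]
      have := sep2 w w' hne hadj d.snd (h1 ▸ d.adj)
      simp only [pt, h1]
      linarith
  have E9 : ∀ᶠ t in nhdsWithin (0 : ℝ) (Set.Ioi 0), ∀ (w w' : W) (hne : w ≠ w')
      (hadj : ¬ G.Adj w w') (d : G.Dart), d.fst = w' →
      0 < -(a w w' hne hadj * (K.qt t d.symm).1 + b w w' hne hadj * (K.qt t d.symm).2 +
        c w w' hne hadj * (K.A w' * (K.qt t d.symm).1 + K.B w' * (K.qt t d.symm).2 + K.C w') +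
        e w w' hne hadj) - |c w w' hne hadj| * t := by
    refine Filter.eventually_all.2 fun w => Filter.eventually_all.2 fun w' =>
      Filter.eventually_all.2 fun hne => Filter.eventually_all.2 fun hadj =>
      Filter.eventually_all.2 fun d => Filter.eventually_imp_distrib_left.2 fun h1 =>
      ev_pos ?_ ?_
    · fun_prop
    · simp only [qt_zero, pt_symm]
      have := sep2 w w' hne hadj d.snd (h1 ▸ d.adj)
      simp only [pt, h1]
      linarith
  have E0 : ∀ᶠ t in nhdsWithin (0 : ℝ) (Set.Ioi 0), 0 < t := self_mem_nhdsWithin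
  obtain ⟨t, t0, t1, t2, t3, t4, t5, t6, t7, t8, t9⟩ := (E0.and (E1.and (E2.and (E3.and
    (E4.and (E5.and (E6.and (E7.and (E8.and E9))))))))).exists
  refine ⟨⟨K.A, K.B, K.C, K.qt t, nu, t, t0, nu_fst, nu_ne, ?_, ?_, ?_, ?_, ?_, ?_, ?_, t5⟩⟩
  · intro d
    have := K.lf_qt t d
    unfold lf at this
    linarith
  · intro d
    refine ⟨2 * t, by positivity, ?_⟩
    rw [qt_symm]
    show K.pt d + t • K.dv d - (K.pt d - t • K.dv d) = (2 * t) • K.dv d
    rw [mul_smul, two_smul]
    abel
  · intro d d' h1 h2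
    have := t1 d d' h1 h2
    unfold lf at this
    linarith
  · intro d d' h1 h2
    have := t2 d d' h1 h2
    unfold lf at this
    linarith
  · intro d d' h1 h2
    by_cases h3 : d' = nu d
    · -- the special case
      subst h3
      have e1 : 0 < K.lf (nu d) (K.qt t d) := t1 (nu d) d (nu_fst d).symm (nu_ne d).symm
      have e2 : K.lf (nu d) (K.qt t (nu d).symm) = 0 := by
        have := K.lf_symm (nu d) (K.qt t (nu d).symm)
        rw [K.lf_qt] at this
        linarith
      have e3 := K.det2_dv (nu d) (K.qt t (nu d).symm) (K.qt t d)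
      have e4 : K.qt t (nu d) - K.qt t d = (K.qt t (nu d).symm - K.qt t d) +
          (2 * t) • K.dv (nu d) := by
        rw [qt_symm, mul_smul, two_smul]
        unfold qt
        abel
      rw [e4]
      generalize K.qt t (nu d).symm - K.qt t d = u at *
      have e5 : det2 u (u + (2 * t) • K.dv (nu d)) = 2 * t * (- det2 (K.dv (nu d)) u) := by
        unfold det2
        simp only [Prod.fst_add, Prod.snd_add, Prod.smul_fst, Prod.smul_snd, smul_eq_mul]
        ring
      rw [e5, e3, e2]
      have : 0 < 2 * t := by positivity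
      apply mul_pos this
      linarith
    · exact t3 d d' h1 h2 h3
  · intro d d' h1 h2
    by_cases h3 : d' = d
    · subst h3
      have e1 : 0 < K.lf d' (K.qt t (nu d').symm) := t2 d' (nu d') (nu_fst d') (nu_ne d')
      have e2 := K.lf_qt t d'
      have e3 := K.det2_dv d' (K.qt t (nu d').symm) (K.qt t d')
      have e4 : K.qt t d'.symm - K.qt t d' = -((2 * t) • K.dv d') := by
        rw [qt_symm, mul_smul, two_smul]
        unfold qt
        abel
      rw [e4]
      generalize K.qt t (nu d').symm - K.qt t d' = u at *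
      have e5 : det2 u (-((2 * t) • K.dv d')) = 2 * t * (det2 (K.dv d') u) := by
        unfold det2
        simp only [Prod.fst_neg, Prod.snd_neg, Prod.smul_fst, Prod.smul_snd, smul_eq_mul]
        ring
      rw [e5, e3, e2]
      have : 0 < 2 * t := by positivity
      apply mul_pos this
      linarith
    · exact t4 d d' h1 h3 h2
  · intro w w' hne hadj
    refine ⟨a w w' hne hadj, b w w' hne hadj, c w w' hne hadj, e w w' hne hadj, ?_, ?_⟩
    · intro d hd s hs0 hs1
      have g1 := t6 w w' hne hadj d hd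
      have g2 := t7 w w' hne hadj d hd
      have g3 : c w w' hne hadj * s ≤ |c w w' hne hadj| * t := by
        calc c w w' hne hadj * s ≤ |c w w' hne hadj| * s :=
              mul_le_mul_of_nonneg_right (le_abs_self _) hs0
          _ ≤ |c w w' hne hadj| * t := mul_le_mul_of_nonneg_left hs1 (abs_nonneg _)
      constructor
      · nlinarith
      · nlinarith
    · intro d hd s hs0 hs1
      have g1 := t8 w w' hne hadj d hd
      have g2 := t9 w w' hne hadj d hd
      have g3 : -(c w w' hne hadj * s) ≤ |c w w' hne hadj| * t := by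
        calc -(c w w' hne hadj * s) = (-c w w' hne hadj) * s := by ring
          _ ≤ |c w w' hne hadj| * s :=
              mul_le_mul_of_nonneg_right (neg_le_abs _) hs0
          _ ≤ |c w w' hne hadj| * t := mul_le_mul_of_nonneg_left hs1 (abs_nonneg _)
      constructor
      · nlinarith
      · nlinarith

end ContactSystem

/-- Restriction of a contact system to an induced subgraph. -/
def ContactSystem.restrict {W : Type} {G : SimpleGraph W} (K : ContactSystem W G) (s : Set W) :
    ContactSystem s (G.induce s) where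
  A w := K.A w
  B w := K.B w
  C w := K.C w
  x w w' := K.x w w'
  z w w' := K.z w w'
  x_comm w w' h := K.x_comm w w' h
  z_comm w w' h := K.z_comm w w' h
  touch w w' h := K.touch w w' h
  above w w' u h h' hne := K.above w w' u h h' (fun e => hne (Subtype.ext e))
  sep w w' hne h := by
    obtain ⟨a, b, c, e, h1, h2⟩ := K.sep w w' (fun e => hne (Subtype.ext e)) h
    exact ⟨a, b, c, e, fun u hu => h1 u hu, fun u hu => h2 u hu⟩
  noncol w w' u u' h h1 h2 h3 h4 :=
    K.noncol w w' u u' h h1 (fun e => h2 (Subtype.ext e)) h3 (fun e => h4 (Subtype.ext e))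

end Pool.Agent.Lib.MP_93b2dd_co
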