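import Mathlib
import Pool.Agent.Lib.MP_93b2dd_co.Contact

/-!
# Core systems and their realization by contact systems
-/

namespace Pool.Agent.Lib.MP_93b2dd_co

open Filter Topology

/-- Numerical data of a family of walls between cores placed along the moment curve. -/
structure CoreData (W : Type) where
  K : Type
  inn : W → K
  out : W → K
  E : W → W → Prop
  s : K → ℝ
  T : K → ℝ
  c : W → ℝ
  o : W → ℝ
  ζ : W → W → ℝ

namespace CoreData

variable {W : Type} (P : CoreData W)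

/-- length of a wall -/
noncomputable def m (w : W) : ℝ := P.s (P.inn w) - P.s (P.out w)

/-- local position of a contact -/
noncomputable def u (a b : W) : ℝ :=
  (-P.m b * P.o b + 2 * (P.T (P.inn b) - P.T (P.out b)) * P.ζ a b - P.c a) / (P.m b + P.m a)

/-- local line of a wall at its inner core -/
noncomputable def In (a : W) (v : ℝ) : ℝ := P.m a * v + P.c a

/-- local moving line of a wall at its outer core -/
noncomputable def Out (b : W) (v t : ℝ) : ℝ :=
  -P.m b * v - P.m b * P.o b + 2 * (P.T (P.inn b) - P.T (P.out b)) * t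

/-- slope correction -/
noncomputable def bet (w : W) : ℝ :=
  ((P.c w - 2 * P.T (P.inn w) * P.s (P.inn w) ^ 3) -
    (-2 * P.T (P.inn w) * P.s (P.out w) ^ 3 - P.m w * P.o w)) / P.m w

/-- coefficients of the affine functions -/
noncomputable def A (δ : ℝ) (w : W) : ℝ := (P.s (P.inn w) + P.s (P.out w)) + δ * P.bet w
noncomputable def B (δ : ℝ) (w : W) : ℝ := 2 * δ * P.T (P.inn w)
noncomputable def C (δ : ℝ) (w : W) : ℝ := -P.s (P.inn w) * P.s (P.out w) +
  δ * ((-2 * P.T (P.inn w) * P.s (P.out w) ^ 3 - P.m w * P.o w) - P.bet w * P.s (P.out w))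

/-- the affine function of a wall -/
noncomputable def Y (δ : ℝ) (w : W) (x z : ℝ) : ℝ := P.A δ w * x + P.B δ w * z + P.C δ w

/-- perturbed local position of a contact -/
noncomputable def U (δ : ℝ) (a b : W) : ℝ :=
  (-P.m b * P.o b + 2 * (P.T (P.inn b) - P.T (P.out b)) * P.ζ a b - P.c a) /
    (P.m b + P.m a + δ * (P.bet b - P.bet a))

noncomputable def X (δ : ℝ) (a b : W) : ℝ := P.s (P.inn a) - δ * P.U δ a b
noncomputable def Z (a b : W) : ℝ := P.s (P.inn a) ^ 3 + P.ζ a b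

end CoreData

/-- A core system: the inequalities which make the walls realizable. -/
structure CoreSystem (W : Type) extends CoreData W where
  cores : Set K
  inn_mem : ∀ w, inn w ∈ cores
  out_mem : ∀ w, out w ∈ cores
  E_core : ∀ a b, E a b → inn a = out b
  s_one : ∀ k ∈ cores, 1 ≤ s k
  s_gap : ∀ k ∈ cores, ∀ k' ∈ cores, k ≠ k' → 4 ≤ |s k - s k'|
  s_lt : ∀ w, s (out w) < s (inn w)
  ζ_le : ∀ a b, E a b → |ζ a b| ≤ 2
  AB : ∀ a b b', E a b → E a b' → b' ≠ b →
    toCoreData.Out b (toCoreData.u a b') (ζ a b') < toCoreData.In a (toCoreData.u a b')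
  BA : ∀ a a' b, E a b → E a' b → a' ≠ a →
    toCoreData.In a (toCoreData.u a' b) < toCoreData.In a' (toCoreData.u a' b)
  non : ∀ a b, inn a = out b → ¬ E a b →
    (∀ b', E a b' → toCoreData.Out b (toCoreData.u a b') (ζ a b') <
      toCoreData.In a (toCoreData.u a b')) ∨
    (∀ a', E a' b → toCoreData.In a (toCoreData.u a' b) < toCoreData.In a' (toCoreData.u a' b))
  outout : ∀ b b', out b = out b' → s (inn b') < s (inn b) → ∀ a, E a b →
    toCoreData.Out b' (toCoreData.u a b) (ζ a b) < toCoreData.In a (toCoreData.u a b)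
  same : ∀ b b', inn b = inn b' → out b = out b' → b ≠ b' →
    (c b' < c b ∧ o b < o b') ∨ (c b < c b' ∧ o b' < o b)
  innin : ∀ a a', inn a = inn a' → s (out a') < s (out a) →
    (∀ b, E a' b → toCoreData.In a (toCoreData.u a' b) < toCoreData.In a' (toCoreData.u a' b)) ∨
    (∃ t, |t| ≤ 2 ∧ (∀ b, E a b → ζ a b < t) ∧ (∀ b, E a' b → t < ζ a' b)) ∨
    (∃ t, |t| ≤ 2 ∧ (∀ b, E a b → t < ζ a b) ∧ (∀ b, E a' b → ζ a' b < t))
  tne1 : ∀ a b b', E a b → E a b' → b' ≠ b → ζ a b' ≠ ζ a b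
  tne2 : ∀ a a' b, E a b → E a' b → a' ≠ a → ζ a' b ≠ ζ a b
  ncol : ∀ a b a' b', E a b → E a b' → b' ≠ b → E a' b → a' ≠ a →
    (toCoreData.u a b' - toCoreData.u a b) * (ζ a' b - ζ a b) -
      (ζ a b' - ζ a b) * (toCoreData.u a' b - toCoreData.u a b) ≠ 0

namespace CoreSystem

variable {W : Type} (S : CoreSystem W)

theorem inn_ne_out (w : W) : S.inn w ≠ S.out w := by
  intro h
  have := S.s_lt w
  rw [h] at this
  exact lt_irrefl _ this

theorem m_ge (w : W) : 4 ≤ S.m w := by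
  have h := S.s_gap _ (S.inn_mem w) _ (S.out_mem w) (S.inn_ne_out w)
  have h' := S.s_lt w
  rw [abs_of_pos (by linarith)] at h
  exact h

theorem m_pos (w : W) : 0 < S.m w := lt_of_lt_of_le (by norm_num) (S.m_ge w)

theorem bet_mul (w : W) : S.bet w * S.m w =
    (S.c w - 2 * S.T (S.inn w) * S.s (S.inn w) ^ 3) -
      (-2 * S.T (S.inn w) * S.s (S.out w) ^ 3 - S.m w * S.o w) := by
  unfold CoreData.bet
  rw [div_mul_cancel₀]
  exact (S.m_pos w).ne'

theorem Y_in (δ : ℝ) (a : W) (v t : ℝ) :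
    S.Y δ a (S.s (S.inn a) - δ * v) (S.s (S.inn a) ^ 3 + t) =
      S.s (S.inn a) ^ 2 + δ * (-(S.s (S.inn a) + S.s (S.out a)) * v + S.c a
        + 2 * S.T (S.inn a) * t) - δ ^ 2 * v * S.bet a := by
  have h := S.bet_mul a
  unfold CoreData.Y CoreData.A CoreData.B CoreData.C
  unfold CoreData.m at h ⊢
  linear_combination δ * h

theorem Y_out (δ : ℝ) (b : W) (v t : ℝ) :
    S.Y δ b (S.s (S.out b) - δ * v) (S.s (S.out b) ^ 3 + t) =
      S.s (S.out b) ^ 2 + δ * (-(S.s (S.inn b) + S.s (S.out b)) * v - S.m b * S.o b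
        + 2 * S.T (S.inn b) * t) - δ ^ 2 * v * S.bet b := by
  unfold CoreData.Y CoreData.A CoreData.B CoreData.C
  ring

theorem Y_diff_in (δ : ℝ) (a w : W) (h : S.inn w = S.inn a) (v t : ℝ) :
    S.Y δ a (S.s (S.inn a) - δ * v) (S.s (S.inn a) ^ 3 + t) -
      S.Y δ w (S.s (S.inn a) - δ * v) (S.s (S.inn a) ^ 3 + t) =
        δ * (S.In a v - S.In w v - δ * v * (S.bet a - S.bet w)) := by
  rw [S.Y_in]
  conv_lhs => rw [← h]
  rw [S.Y_in]
  unfold CoreData.In CoreData.m
  rw [h]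
  ring

theorem Y_diff_out (δ : ℝ) (a b : W) (h : S.inn a = S.out b) (v t : ℝ) :
    S.Y δ a (S.s (S.inn a) - δ * v) (S.s (S.inn a) ^ 3 + t) -
      S.Y δ b (S.s (S.inn a) - δ * v) (S.s (S.inn a) ^ 3 + t) =
        δ * (S.In a v - S.Out b v t + δ * v * (S.bet b - S.bet a)) := by
  rw [S.Y_in]
  rw [h, S.Y_out]
  unfold CoreData.In CoreData.Out CoreData.m
  rw [h]
  ring

theorem In_u (a b : W) : S.In a (S.u a b) = S.Out b (S.u a b) (S.ζ a b) := by
  have h1 := S.m_pos a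
  have h2 := S.m_pos b
  unfold CoreData.In CoreData.Out CoreData.u
  field_simp
  ring

theorem U_zero (a b : W) : S.U 0 a b = S.u a b := by
  unfold CoreData.U CoreData.u
  simp

theorem continuousAt_U (a b : W) : ContinuousAt (fun δ => S.U δ a b) 0 := by
  unfold CoreData.U
  have h1 := S.m_pos a
  have h2 := S.m_pos b
  refine ContinuousAt.div continuousAt_const (by fun_prop) ?_
  simp
  positivity

theorem X_zero (a b : W) : S.X 0 a b = S.s (S.inn a) := by
  unfold CoreData.X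
  simp

theorem continuousAt_X (a b : W) : ContinuousAt (fun δ => S.X δ a b) 0 := by
  unfold CoreData.X
  have := S.continuousAt_U a b
  fun_prop

theorem continuousAt_Y (w : W) (x : ℝ → ℝ) (z : ℝ) (hx : ContinuousAt x 0) :
    ContinuousAt (fun δ => S.Y δ w (x δ) z) 0 := by
  unfold CoreData.Y CoreData.A CoreData.B CoreData.C
  fun_prop

theorem Y_zero (w : W) (x z : ℝ) :
    S.Y 0 w x z = (S.s (S.inn w) + S.s (S.out w)) * x - S.s (S.inn w) * S.s (S.out w) := by
  unfold CoreData.Y CoreData.A CoreData.B CoreData.C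
  ring

theorem ev_pos {f : ℝ → ℝ} (hf : ContinuousAt f 0) (h0 : 0 < f 0) :
    ∀ᶠ δ in 𝓝[>] (0 : ℝ), 0 < f δ :=
  (hf.eventually (lt_mem_nhds h0)).filter_mono nhdsWithin_le_nhds

theorem L1 (a b w : W) (hw : S.inn w = S.inn a) (h : S.In w (S.u a b) < S.In a (S.u a b)) :
    ∀ᶠ δ in 𝓝[>] (0 : ℝ), S.Y δ w (S.X δ a b) (S.Z a b) < S.Y δ a (S.X δ a b) (S.Z a b) := by
  have hU := S.continuousAt_U a b
  have hf : ContinuousAt (fun δ => S.In a (S.U δ a b) - S.In w (S.U δ a b)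
      - δ * S.U δ a b * (S.bet a - S.bet w)) 0 := by
    unfold CoreData.In
    fun_prop
  have h1 := ev_pos hf (by simp only [S.U_zero]; simp; linarith)
  filter_upwards [h1, self_mem_nhdsWithin] with δ h2 h3
  have h4 := S.Y_diff_in δ a w hw (S.U δ a b) (S.ζ a b)
  have h5 := mul_pos (Set.mem_Ioi.1 h3) h2
  rw [← h4] at h5
  unfold CoreData.X CoreData.Z
  linarith

theorem L2 (a b w : W) (hw : S.inn a = S.out w)
    (h : S.Out w (S.u a b) (S.ζ a b) < S.In a (S.u a b)) :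
    ∀ᶠ δ in 𝓝[>] (0 : ℝ), S.Y δ w (S.X δ a b) (S.Z a b) < S.Y δ a (S.X δ a b) (S.Z a b) := by
  have hU := S.continuousAt_U a b
  have hf : ContinuousAt (fun δ => S.In a (S.U δ a b) - S.Out w (S.U δ a b) (S.ζ a b)
      + δ * S.U δ a b * (S.bet w - S.bet a)) 0 := by
    unfold CoreData.In CoreData.Out
    fun_prop
  have h1 := ev_pos hf (by simp only [S.U_zero]; simp; linarith)
  filter_upwards [h1, self_mem_nhdsWithin] with δ h2 h3
  have h4 := S.Y_diff_out δ a w hw (S.U δ a b) (S.ζ a b)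
  have h5 := mul_pos (Set.mem_Ioi.1 h3) h2
  rw [← h4] at h5
  unfold CoreData.X CoreData.Z
  linarith

theorem touch_ev (a b : W) (hw : S.inn a = S.out b) :
    ∀ᶠ δ in 𝓝[>] (0 : ℝ), S.Y δ b (S.X δ a b) (S.Z a b) = S.Y δ a (S.X δ a b) (S.Z a b) := by
  have h1 := S.m_pos a
  have h2 := S.m_pos b
  have hf : ContinuousAt (fun δ => S.m b + S.m a + δ * (S.bet b - S.bet a)) 0 := by
    fun_prop
  have h3 := ev_pos hf (by simp; positivity)
  filter_upwards [h3] with δ h4
  have h5 := S.Y_diff_out δ a b hw (S.U δ a b) (S.ζ a b)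
  have h6 : S.In a (S.U δ a b) - S.Out b (S.U δ a b) (S.ζ a b)
      + δ * S.U δ a b * (S.bet b - S.bet a) = 0 := by
    have h7 : S.U δ a b * (S.m b + S.m a + δ * (S.bet b - S.bet a)) =
        (-S.m b * S.o b + 2 * (S.T (S.inn b) - S.T (S.out b)) * S.ζ a b - S.c a) := by
      unfold CoreData.U
      rw [div_mul_cancel₀]
      exact h4.ne'
    unfold CoreData.In CoreData.Out
    linear_combination h7
  rw [h6, mul_zero] at h5
  unfold CoreData.X CoreData.Z
  linarith

theorem L4 (a b : W) (p q r e : ℝ)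
    (h : 0 < p * S.s (S.inn a) + q * (S.s (S.inn a) ^ 3 + S.ζ a b) + r * S.s (S.inn a) ^ 2 + e) :
    ∀ᶠ δ in 𝓝[>] (0 : ℝ),
      0 < p * S.X δ a b + q * S.Z a b + r * S.Y δ a (S.X δ a b) (S.Z a b) + e := by
  have hX := S.continuousAt_X a b
  have hY := S.continuousAt_Y a (fun δ => S.X δ a b) (S.Z a b) hX
  have hf : ContinuousAt (fun δ => p * S.X δ a b + q * S.Z a b
      + r * S.Y δ a (S.X δ a b) (S.Z a b) + e) 0 := by
    fun_prop
  refine ev_pos hf ?_
  simp only [S.X_zero, S.Y_zero]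
  unfold CoreData.Z
  have : (S.s (S.inn a) + S.s (S.out a)) * S.s (S.inn a) - S.s (S.inn a) * S.s (S.out a) =
    S.s (S.inn a) ^ 2 := by ring
  rw [this]
  exact h

theorem L3 (a b w : W) (h : 0 < (S.s (S.inn a) - S.s (S.inn w)) *
      (S.s (S.inn a) - S.s (S.out w))) :
    ∀ᶠ δ in 𝓝[>] (0 : ℝ), S.Y δ w (S.X δ a b) (S.Z a b) < S.Y δ a (S.X δ a b) (S.Z a b) := by
  have hX := S.continuousAt_X a b
  have hY := S.continuousAt_Y a (fun δ => S.X δ a b) (S.Z a b) hX
  have hY' := S.continuousAt_Y w (fun δ => S.X δ a b) (S.Z a b) hX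
  have hf : ContinuousAt (fun δ => S.Y δ a (S.X δ a b) (S.Z a b) -
      S.Y δ w (S.X δ a b) (S.Z a b)) 0 := by
    fun_prop
  have h1 := ev_pos hf (by
    simp only [S.X_zero, S.Y_zero]
    nlinarith [h])
  filter_upwards [h1] with δ h2
  linarith

theorem L3' (a b w : W) (h : (S.s (S.inn a) - S.s (S.inn w)) *
      (S.s (S.inn a) - S.s (S.out w)) < 0) :
    ∀ᶠ δ in 𝓝[>] (0 : ℝ), S.Y δ a (S.X δ a b) (S.Z a b) < S.Y δ w (S.X δ a b) (S.Z a b) := by
  have hX := S.continuousAt_X a b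
  have hY := S.continuousAt_Y a (fun δ => S.X δ a b) (S.Z a b) hX
  have hY' := S.continuousAt_Y w (fun δ => S.X δ a b) (S.Z a b) hX
  have hf : ContinuousAt (fun δ => S.Y δ w (S.X δ a b) (S.Z a b) -
      S.Y δ a (S.X δ a b) (S.Z a b)) 0 := by
    fun_prop
  have h1 := ev_pos hf (by
    simp only [S.X_zero, S.Y_zero]
    nlinarith [h])
  filter_upwards [h1] with δ h2
  linarith

end CoreSystem

end Pool.Agent.Lib.MP_93b2dd_co
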