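import Mathlib

/-!
# The explicit system of walls: combinatorics
-/

namespace Pool.Agent.Lib.MP_93b2dd_co

/-- first position of depth `i` -/
def pp : ℕ → ℕ
  | 0 => 0
  | (i + 1) => pp i + i + 1

/-- position belonging to the pair of depths `h < i` (`h = i` is the position of the core) -/
def pos (i h : ℕ) : ℕ := pp i + (i - h)

theorem pp_succ (i : ℕ) : pp (i + 1) = pp i + i + 1 := rfl

theorem pp_strictMono : StrictMono pp := by
  refine strictMono_nat_of_lt_succ fun i => ?_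
  rw [pp_succ]
  omega

theorem pp_mono : Monotone pp := pp_strictMono.monotone

theorem pos_lt (i h : ℕ) : pos i h < pp (i + 1) := by
  unfold pos
  rw [pp_succ]
  omega

theorem pos_lt' {i j : ℕ} (h : ℕ) (hij : i < j) : pos i h < pp j :=
  lt_of_lt_of_le (pos_lt i h) (pp_mono hij)

theorem pp_lt_pos {i h : ℕ} (hi : h < i) : pp i < pos i h := by
  unfold pos
  omega

theorem pp_le_pos (i h : ℕ) : pp i ≤ pos i h := by
  unfold pos
  omega

theorem pos_lt_pos {i h h' : ℕ} (h1 : h' < h) (h2 : h ≤ i) : pos i h < pos i h' := by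
  unfold pos
  omega

theorem pos_le_pos {i h h' : ℕ} (h1 : h' ≤ h) : pos i h ≤ pos i h' := by
  unfold pos
  omega

theorem exists_pos {i h y : ℕ} (h1 : pp i < y) (h2 : y < pos i h) :
    ∃ h', h < h' ∧ h' < i ∧ y = pos i h' := by
  unfold pos at *
  refine ⟨i - (y - pp i), ?_, ?_, ?_⟩ <;> omega

theorem pos_inj {i h i' h' : ℕ} (hi : h ≤ i) (hi' : h' ≤ i') (he : pos i h = pos i' h') :
    i = i' ∧ h = h' := by
  have hii : i = i' := by
    rcases lt_trichotomy i i' with h1 | h1 | h1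
    · have h2 := pos_lt' h h1
      have h3 := pp_le_pos i' h'
      omega
    · exact h1
    · have h2 := pos_lt' h' h1
      have h3 := pp_le_pos i h
      omega
  subst hii
  refine ⟨rfl, ?_⟩
  unfold pos at he
  omega

/-- truncation of a sequence -/
def tr (μ : ℕ → ℕ) (q : ℕ) : ℕ → ℕ := fun x => if x < q then μ x else 0

theorem tr_of_lt {μ : ℕ → ℕ} {q x : ℕ} (h : x < q) : tr μ q x = μ x := if_pos h
theorem tr_of_le {μ : ℕ → ℕ} {q x : ℕ} (h : q ≤ x) : tr μ q x = 0 := if_neg (not_lt.2 h)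

theorem tr_tr {μ : ℕ → ℕ} {p q : ℕ} (h : q ≤ p) : tr (tr μ p) q = tr μ q := by
  funext x
  unfold tr
  by_cases h1 : x < q
  · rw [if_pos h1, if_pos h1, if_pos (lt_of_lt_of_le h1 h)]
  · rw [if_neg h1, if_neg h1]

theorem tr_eq_iff {μ μ' : ℕ → ℕ} {q : ℕ} : tr μ q = tr μ' q ↔ ∀ x < q, μ x = μ' x := by
  constructor
  · intro h x hx
    have := congrFun h x
    rwa [tr_of_lt hx, tr_of_lt hx] at this
  · intro h
    funext x
    unfold tr
    by_cases h1 : x < q
    · rw [if_pos h1, if_pos h1, h x h1]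
    · rw [if_neg h1, if_neg h1]

theorem tr_eq_self {μ : ℕ → ℕ} {q : ℕ} (h : ∀ x, q ≤ x → μ x = 0) : tr μ q = μ := by
  funext x
  unfold tr
  by_cases h1 : x < q
  · rw [if_pos h1]
  · rw [if_neg h1, h x (not_lt.1 h1)]

/-- first difference of two sequences -/
theorem exists_first_diff {μ μ' : ℕ → ℕ} {q : ℕ} (h : ¬ ∀ x < q, μ x = μ' x) :
    ∃ y < q, (∀ x < y, μ x = μ' x) ∧ μ y ≠ μ' y := by
  classical
  have h1 : ∃ y, y < q ∧ μ y ≠ μ' y := by
    push Not at h
    exact h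
  refine ⟨Nat.find h1, (Nat.find_spec h1).1, ?_, (Nat.find_spec h1).2⟩
  intro x hx
  have := Nat.find_min h1 hx
  by_contra h2
  exact this ⟨lt_trans hx (Nat.find_spec h1).1, h2⟩

/-- A wall: depths of its inner and outer core, number in its stack, digits of its node. -/
@[ext] structure Wall where
  i : ℕ
  h : ℕ
  s : ℕ
  μ : ℕ → ℕ

/-- position of a wall -/
def Wall.q (w : Wall) : ℕ := pos w.i w.h

/-- The combinatorial parameters of the construction. -/
structure Par where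
  m : ℕ
  N : ℕ → ℕ
  R : ℕ → ℕ
  bd : ℕ → ℕ
  Ψ : ℕ → ℕ → ℕ → ℕ
  M : ℕ
  M_pos : 1 ≤ M
  R_le : ∀ x, x < pp (m + 1) → R x ≤ M
  N_le : ∀ x, x < pp (m + 1) → N x ≤ M
  Ψ_mono : ∀ q r k k', k < k' → k' < bd q → Ψ q r k < Ψ q r k'
  Ψ_lt : ∀ q r k, k < bd q → Ψ q r k < N q
  count : ∀ q < pp (m + 1), ∃ M', (∀ y, q < y → y < pp (m + 1) → N y ≤ M' ∧ R y ≤ M') ∧
    (m + 1) * ((M' + 1) * (M' + 1) ^ (pp (m + 1))) ≤ bd q

namespace Par

variable (P : Par)

/-- the total number of positions -/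
def Q : ℕ := pp (P.m + 1)

/-- the walls of the system -/
structure Valid (w : Wall) : Prop where
  hi : w.h < w.i
  im : w.i ≤ P.m
  sN : w.s < P.N w.q
  μR : ∀ x, x < w.q → w.μ x ≤ P.R x
  μ0 : ∀ x, w.q ≤ x → w.μ x = 0
  μc : ∀ j, w.μ (pp j) = 0

/-- the type of walls -/
def W : Type := {w : Wall // P.Valid w}

variable {P}

theorem Valid.q_lt {w : Wall} (h : P.Valid w) : w.q < pp (P.m + 1) :=
  pos_lt' w.h (lt_of_le_of_lt h.im (Nat.lt_succ_self _))

theorem Valid.μ_le {w : Wall} (h : P.Valid w) (x : ℕ) : w.μ x ≤ P.M := by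
  by_cases hx : x < w.q
  · exact le_trans (h.μR x hx) (P.R_le x (lt_trans hx h.q_lt))
  · rw [h.μ0 x (not_lt.1 hx)]
    exact Nat.zero_le _

theorem Valid.s_lt {w : Wall} (h : P.Valid w) : w.s < P.M + 1 :=
  lt_of_lt_of_le h.sN (le_trans (P.N_le _ h.q_lt) (Nat.le_succ _))

variable (P)

instance : Finite P.W := by
  have : Function.Injective (fun w : P.W =>
      ((⟨w.1.i, Nat.lt_succ_of_le w.2.im⟩ : Fin (P.m + 1)),
      (⟨w.1.h, lt_of_lt_of_le w.2.hi (le_trans w.2.im (Nat.le_succ _))⟩ : Fin (P.m + 1)),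
      (⟨w.1.s, w.2.s_lt⟩ : Fin (P.M + 1)),
      (fun x : Fin (pp (P.m + 1)) => (⟨w.1.μ x, Nat.lt_succ_of_le (w.2.μ_le x)⟩ :
        Fin (P.M + 1))))) := by
    intro w w' h
    simp only [Prod.mk.injEq, Fin.mk.injEq] at h
    obtain ⟨h1, h2, h3, h4⟩ := h
    apply Subtype.ext
    refine Wall.ext h1 h2 h3 ?_
    funext x
    by_cases hx : x < pp (P.m + 1)
    · have := congrFun h4 ⟨x, hx⟩
      simpa using this
    · rw [w.2.μ0 x (le_trans w.2.q_lt.le (not_lt.1 hx)),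
        w'.2.μ0 x (le_trans w'.2.q_lt.le (not_lt.1 hx))]
  exact Finite.of_injective _ this

noncomputable instance : Fintype P.W := Fintype.ofFinite _

/-- the walls with the same outer depth as `b` which agree with `b` at the positions `≤ q` -/
def cluster (q : ℕ) (b : P.W) : Set P.W := {b' | b'.1.h = b.1.h ∧ ∀ x ≤ q, b'.1.μ x = b.1.μ x}

theorem ncard_cluster_le (q : ℕ) (b : P.W) (hq : ∀ i, b.1.h < i → q < pos i b.1.h)
    (hq' : q < pp (P.m + 1)) : (P.cluster q b).ncard ≤ P.bd q := by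
  obtain ⟨M', h1, h2⟩ := P.count q hq'
  refine le_trans ?_ h2
  have hs : ∀ w ∈ P.cluster q b, w.1.s < M' + 1 := by
    intro w hw
    have h3 : q < w.1.q := by
      have := hq w.1.i (by rw [← hw.1]; exact w.2.hi)
      rwa [← hw.1] at this
    exact lt_of_lt_of_le w.2.sN (le_trans (h1 _ h3 w.2.q_lt).1 (Nat.le_succ _))
  have hμ : ∀ w ∈ P.cluster q b, ∀ x, (if x ≤ q then 0 else w.1.μ x) < M' + 1 := by
    intro w hw x
    split_ifs with hx
    · exact Nat.succ_pos _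
    · by_cases hx' : x < w.1.q
      · exact Nat.lt_succ_of_le (le_trans (w.2.μR x hx')
          (h1 x (not_le.1 hx) (lt_trans hx' w.2.q_lt)).2)
      · rw [w.2.μ0 x (not_lt.1 hx')]
        exact Nat.succ_pos _
  have hc : Fintype.card (Fin (P.m + 1) × Fin (M' + 1) × (Fin (pp (P.m + 1)) → Fin (M' + 1))) =
      (P.m + 1) * ((M' + 1) * (M' + 1) ^ (pp (P.m + 1))) := by
    simp
  rw [← hc, ← Nat.card_eq_fintype_card, ← Set.ncard_univ]
  classical
  refine Set.ncard_le_ncard_of_injOn (fun w : P.W =>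
      ((⟨w.1.i, Nat.lt_succ_of_le w.2.im⟩ : Fin (P.m + 1)),
      (if hw : w ∈ P.cluster q b then (⟨w.1.s, hs w hw⟩ : Fin (M' + 1)) else 0),
      (fun x : Fin (pp (P.m + 1)) => if hw : w ∈ P.cluster q b then
        (⟨if (x : ℕ) ≤ q then 0 else w.1.μ x, hμ w hw x⟩ : Fin (M' + 1)) else 0)))
      (fun w _ => Set.mem_univ _) ?_ Set.finite_univ
  intro w hw w' hw' h
  simp only [dif_pos hw, dif_pos hw', Prod.mk.injEq, Fin.mk.injEq] at h
  obtain ⟨h3, h4, h5⟩ := h
  apply Subtype.ext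
  refine Wall.ext h3 (by rw [hw.1, hw'.1]) h4 ?_
  funext x
  by_cases hx : x < pp (P.m + 1)
  · have h6 := congrFun h5 ⟨x, hx⟩
    simp only [Fin.mk.injEq] at h6
    by_cases hxq : x ≤ q
    · rw [hw.2 x hxq, hw'.2 x hxq]
    · simpa [hxq] using h6
  · rw [w.2.μ0 x (le_trans w.2.q_lt.le (not_lt.1 hx)),
      w'.2.μ0 x (le_trans w'.2.q_lt.le (not_lt.1 hx))]

end Par

end Pool.Agent.Lib.MP_93b2dd_co
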