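import Mathlib
import Pool.Agent.Lib.MP_93b2dd_co.Walls

/-!
# The explicit system of walls: real labels, ranks and contacts
-/

namespace Pool.Agent.Lib.MP_93b2dd_co

namespace Par

variable (P : Par)

noncomputable def rho : ℝ := 1 / (1000 * P.M)

noncomputable def g (x : ℕ) : ℝ := P.rho ^ (x + 1)

noncomputable def v (μ : ℕ → ℕ) (q : ℕ) : ℝ := 1 + ∑ x ∈ Finset.range q, (μ x : ℝ) * P.g x

/-- label of a core -/
noncomputable def tau (k : ℕ × (ℕ → ℕ)) : ℝ := P.v k.2 (pp k.1) + P.g (pp k.1)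

/-- inner core of a wall -/
def inn (w : P.W) : ℕ × (ℕ → ℕ) := (w.1.i, tr w.1.μ (pp w.1.i))

/-- outer core of a wall -/
def out (w : P.W) : ℕ × (ℕ → ℕ) := (w.1.h, tr w.1.μ (pp w.1.h))

/-- label of the inner core of a wall -/
noncomputable def t (w : P.W) : ℝ := P.tau (P.inn w)

/-- tie-breaking key of a wall -/
noncomputable def kap (w : P.W) : ℝ := P.v w.1.μ w.1.q + w.1.s * P.g w.1.q

theorem M_pos' : (0 : ℝ) < P.M := by
  have := P.M_pos
  exact_mod_cast this

theorem M_one : (1 : ℝ) ≤ P.M := by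
  have := P.M_pos
  exact_mod_cast this

theorem rho_pos : 0 < P.rho := by
  have := P.M_pos'
  unfold rho
  positivity

theorem M_rho : (P.M : ℝ) * P.rho = 1 / 1000 := by
  have := P.M_pos'
  unfold rho
  field_simp

theorem rho_le : P.rho ≤ 1 / 1000 := by
  have h1 := P.M_rho
  have h2 := P.rho_pos
  have h3 := P.M_one
  nlinarith

theorem g_pos (x : ℕ) : 0 < P.g x := pow_pos P.rho_pos _

theorem g_succ (x : ℕ) : P.g (x + 1) = P.rho * P.g x := by
  unfold g
  ring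

theorem M_g_succ (x : ℕ) : (P.M : ℝ) * P.g (x + 1) = P.g x / 1000 := by
  rw [P.g_succ, ← mul_assoc, P.M_rho]
  ring

theorem g_anti : Antitone P.g := by
  refine antitone_nat_of_succ_le fun x => ?_
  rw [P.g_succ]
  have h1 := P.rho_le
  have h2 := P.g_pos x
  nlinarith

theorem g_succ_le (x : ℕ) : P.g (x + 1) ≤ P.g x / 1000 := by
  rw [P.g_succ]
  have h1 := P.rho_le
  have h2 := P.g_pos x
  nlinarith

theorem g_lt_le {x y : ℕ} (h : x < y) : P.g y ≤ P.g x / 1000 :=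
  le_trans (P.g_anti h) (P.g_succ_le x)

theorem M_g_zero : (P.M : ℝ) * P.g 0 = 1 / 1000 := by
  unfold g
  rw [zero_add, pow_one, P.M_rho]

theorem v_succ (μ : ℕ → ℕ) (q : ℕ) : P.v μ (q + 1) = P.v μ q + μ q * P.g q := by
  unfold v
  rw [Finset.sum_range_succ]
  ring

theorem v_zero (μ : ℕ → ℕ) : P.v μ 0 = 1 := by
  unfold v
  simp

theorem v_mono (μ : ℕ → ℕ) : Monotone (P.v μ) := by
  refine monotone_nat_of_le_succ fun q => ?_
  rw [P.v_succ]
  have := P.g_pos q
  have : 0 ≤ (μ q : ℝ) * P.g q := by positivity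
  linarith

theorem v_anti {μ : ℕ → ℕ} (hμ : ∀ x, μ x ≤ P.M) : Antitone (fun q => P.v μ q + 2 * P.M * P.g q) := by
  refine antitone_nat_of_succ_le fun q => ?_
  rw [P.v_succ]
  have h1 := P.M_g_succ q
  have h2 := P.g_pos q
  have h3 : (μ q : ℝ) ≤ P.M := by exact_mod_cast hμ q
  have h4 := P.M_one
  nlinarith

theorem v_congr {μ μ' : ℕ → ℕ} {q : ℕ} (h : ∀ x < q, μ x = μ' x) : P.v μ q = P.v μ' q := by
  unfold v
  congr 1
  refine Finset.sum_congr rfl fun x hx => ?_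
  rw [h x (Finset.mem_range.1 hx)]

theorem v_near {μ : ℕ → ℕ} (hμ : ∀ x, μ x ≤ P.M) {x q : ℕ} (h : x < q) :
    P.v μ q + 2 * P.M * P.g q ≤ P.v μ (x + 1) + P.g x / 500 := by
  have h1 := P.v_anti hμ (Nat.succ_le_of_lt h)
  simp only at h1
  have h2 := P.M_g_succ x
  linarith

theorem v_one_le (μ : ℕ → ℕ) (q : ℕ) : 1 ≤ P.v μ q := by
  have := P.v_mono μ (Nat.zero_le q)
  rwa [P.v_zero] at this

theorem v_le {μ : ℕ → ℕ} (hμ : ∀ x, μ x ≤ P.M) (q : ℕ) :
    P.v μ q + 2 * P.M * P.g q ≤ 1 + 1 / 500 := by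
  have h1 := P.v_anti hμ (Nat.zero_le q)
  simp only at h1
  rw [P.v_zero] at h1
  have h2 := P.M_g_zero
  linarith

/-- first difference: the labels are apart -/
theorem v_diff {μ μ' : ℕ → ℕ} {x : ℕ} (h : ∀ y < x, μ y = μ' y) (hx : μ x < μ' x) :
    P.v μ (x + 1) + P.g x ≤ P.v μ' (x + 1) := by
  rw [P.v_succ, P.v_succ, P.v_congr h]
  have h1 : (μ x : ℝ) + 1 ≤ μ' x := by exact_mod_cast hx
  have h2 := P.g_pos x
  nlinarith

theorem g_le_M (x : ℕ) : P.g x ≤ 2 * P.M * P.g x := by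
  have h1 := P.g_pos x
  have h2 := P.M_one
  nlinarith

/-- an admissible core -/
structure CoreOK (k : ℕ × (ℕ → ℕ)) : Prop where
  le : ∀ x, k.2 x ≤ P.M
  zc : ∀ j, k.2 (pp j) = 0
  z : ∀ x, pp k.1 ≤ x → k.2 x = 0
  im : k.1 ≤ P.m

theorem tau_near {k : ℕ × (ℕ → ℕ)} (hk : P.CoreOK k) {x : ℕ} (hx : x < pp k.1) :
    P.v k.2 (x + 1) ≤ P.tau k ∧ P.tau k ≤ P.v k.2 (x + 1) + P.g x / 500 := by
  have h1 := P.v_near hk.le hx
  have h2 := P.v_mono k.2 (Nat.succ_le_of_lt hx)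
  have h3 := P.g_pos (pp k.1)
  have h4 := P.g_le_M (pp k.1)
  unfold tau
  constructor
  · simp only [Nat.succ_eq_add_one] at h2
    linarith
  · linarith

theorem tau_bounds {k : ℕ × (ℕ → ℕ)} (hk : P.CoreOK k) : 1 ≤ P.tau k ∧ P.tau k ≤ 1 + 1 / 500 := by
  have h1 := P.v_le hk.le (pp k.1)
  have h2 := P.v_one_le k.2 (pp k.1)
  have h3 := P.g_pos (pp k.1)
  have h4 := P.g_le_M (pp k.1)
  unfold tau
  constructor <;> linarith

theorem tau_desc {k k' : ℕ × (ℕ → ℕ)} (hk' : P.CoreOK k') (h : k.1 < k'.1)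
    (ha : ∀ x < pp k.1, k.2 x = k'.2 x) : P.tau k' + 499 / 500 * P.g (pp k.1) ≤ P.tau k := by
  have h1 := (P.tau_near hk' (pp_strictMono h)).2
  rw [P.v_succ, hk'.zc, ← P.v_congr ha] at h1
  have : P.tau k = P.v k.2 (pp k.1) + P.g (pp k.1) := rfl
  rw [this]
  push_cast at h1
  linarith

theorem tau_diff {k k' : ℕ × (ℕ → ℕ)} (hk : P.CoreOK k) (hk' : P.CoreOK k') {x : ℕ}
    (hx : x < pp k.1) (hx' : x < pp k'.1) (ha : ∀ y < x, k.2 y = k'.2 y) (hlt : k.2 x < k'.2 x) :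
    P.tau k + 499 / 500 * P.g x ≤ P.tau k' := by
  have h1 := (P.tau_near hk hx).2
  have h2 := (P.tau_near hk' hx').1
  have h3 := P.v_diff ha hlt
  linarith

theorem g_Q_le {x : ℕ} (h : x < P.Q) : P.g P.Q ≤ P.g x / 1000 := P.g_lt_le h

theorem tau_gap {k k' : ℕ × (ℕ → ℕ)} (hk : P.CoreOK k) (hk' : P.CoreOK k') (hne : k ≠ k') :
    P.tau k + P.g P.Q ≤ P.tau k' ∨ P.tau k' + P.g P.Q ≤ P.tau k := by
  have key : ∀ {k k' : ℕ × (ℕ → ℕ)}, P.CoreOK k → P.CoreOK k' → k ≠ k' → k.1 ≤ k'.1 →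
      P.tau k + P.g P.Q ≤ P.tau k' ∨ P.tau k' + P.g P.Q ≤ P.tau k := by
    intro k k' hk hk' hne hle
    have hQ : pp k.1 < P.Q := pp_strictMono (Nat.lt_succ_of_le hk.im)
    by_cases ha : ∀ x < pp k.1, k.2 x = k'.2 x
    · rcases hle.lt_or_eq with h | h
      · right
        have h1 := P.tau_desc hk' h ha
        have h2 := P.g_Q_le hQ
        have h3 := P.g_pos (pp k.1)
        linarith
      · exfalso
        apply hne
        refine Prod.ext h ?_
        funext x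
        by_cases hx : x < pp k.1
        · exact ha x hx
        · rw [hk.z x (not_lt.1 hx), hk'.z x (by rw [← h]; exact not_lt.1 hx)]
    · obtain ⟨y, h1, h2, h3⟩ := exists_first_diff ha
      have h1' : y < pp k'.1 := lt_of_lt_of_le h1 (pp_mono hle)
      have h5 := P.g_Q_le (lt_trans h1 hQ)
      have h6 := P.g_pos y
      rcases lt_or_gt_of_ne h3 with h4 | h4
      · left
        have := P.tau_diff hk hk' h1 h1' h2 h4
        linarith
      · right
        have := P.tau_diff hk' hk h1' h1 (fun y hy => (h2 y hy).symm) h4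
        linarith
  rcases le_total k.1 k'.1 with h | h
  · exact key hk hk' hne h
  · exact (key hk' hk hne.symm h).symm

theorem inn_ok (w : P.W) : P.CoreOK (P.inn w) where
  le x := by
    unfold inn
    simp only
    unfold tr
    split_ifs
    · exact w.2.μ_le x
    · exact Nat.zero_le _
  zc j := by
    unfold inn
    simp only
    unfold tr
    split_ifs
    · exact w.2.μc j
    · rfl
  z x hx := tr_of_le hx
  im := w.2.im

theorem out_ok (w : P.W) : P.CoreOK (P.out w) where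
  le x := by
    unfold out
    simp only
    unfold tr
    split_ifs
    · exact w.2.μ_le x
    · exact Nat.zero_le _
  zc j := by
    unfold out
    simp only
    unfold tr
    split_ifs
    · exact w.2.μc j
    · rfl
  z x hx := tr_of_le hx
  im := le_trans w.2.hi.le w.2.im

theorem t_near (w : P.W) {x : ℕ} (hx : x < pp w.1.i) :
    P.v w.1.μ (x + 1) ≤ P.t w ∧ P.t w ≤ P.v w.1.μ (x + 1) + P.g x / 500 := by
  have h1 := P.tau_near (P.inn_ok w) (x := x) hx
  have h2 : P.v (P.inn w).2 (x + 1) = P.v w.1.μ (x + 1) :=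
    P.v_congr fun y hy => tr_of_lt (lt_of_lt_of_le hy hx)
  rw [h2] at h1
  exact h1

theorem t_bounds (w : P.W) : 1 ≤ P.t w ∧ P.t w ≤ 1 + 1 / 500 := P.tau_bounds (P.inn_ok w)

theorem s_le (w : P.W) : (w.1.s : ℝ) ≤ P.M := by
  have := Nat.lt_succ_iff.1 w.2.s_lt
  exact_mod_cast this

theorem kap_near (w : P.W) {x : ℕ} (hx : x < w.1.q) :
    P.v w.1.μ (x + 1) ≤ P.kap w ∧ P.kap w ≤ P.v w.1.μ (x + 1) + P.g x / 500 := by
  have h1 := P.v_near w.2.μ_le hx
  have h2 := P.v_mono w.1.μ (Nat.succ_le_of_lt hx)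
  have h3 := P.g_pos w.1.q
  have h4 := P.s_le w
  have h5 := P.M_one
  unfold kap
  constructor
  · simp only [Nat.succ_eq_add_one] at h2
    have : 0 ≤ (w.1.s : ℝ) * P.g w.1.q := by positivity
    linarith
  · nlinarith

theorem kap_bounds (w : P.W) : 1 ≤ P.kap w ∧ P.kap w ≤ 1 + 1 / 500 := by
  have h1 := P.v_le w.2.μ_le w.1.q
  have h2 := P.v_one_le w.1.μ w.1.q
  have h3 := P.g_pos w.1.q
  have h4 := P.s_le w
  have h5 := P.M_one
  unfold kap
  constructor
  · have : 0 ≤ (w.1.s : ℝ) * P.g w.1.q := by positivity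
    linarith
  · nlinarith

/-- separation of the labels `t` at the first difference -/
theorem t_diff {b b' : P.W} {x : ℕ} (hx : x < pp b.1.i) (hx' : x < pp b'.1.i)
    (ha : ∀ y < x, b.1.μ y = b'.1.μ y) (hlt : b.1.μ x < b'.1.μ x) :
    P.t b + 499 / 500 * P.g x ≤ P.t b' := by
  have h1 := (P.t_near b hx).2
  have h2 := (P.t_near b' hx').1
  have h3 := P.v_diff ha hlt
  linarith

theorem t_diff_abs {b b' : P.W} {x : ℕ} (hx : x < pp b.1.i) (hx' : x < pp b'.1.i)
    (ha : ∀ y < x, b.1.μ y = b'.1.μ y) (hne : b.1.μ x ≠ b'.1.μ x) :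
    P.t b + 499 / 500 * P.g x ≤ P.t b' ∨ P.t b' + 499 / 500 * P.g x ≤ P.t b := by
  rcases lt_or_gt_of_ne hne with h | h
  · left
    exact P.t_diff hx hx' ha h
  · right
    exact P.t_diff hx' hx (fun y hy => (ha y hy).symm) h

theorem kap_diff {b b' : P.W} {x : ℕ} (hx : x < b.1.q) (hx' : x < b'.1.q)
    (ha : ∀ y < x, b.1.μ y = b'.1.μ y) (hlt : b.1.μ x < b'.1.μ x) :
    P.kap b + 499 / 500 * P.g x ≤ P.kap b' := by
  have h1 := (P.kap_near b hx).2
  have h2 := (P.kap_near b' hx').1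
  have h3 := P.v_diff ha hlt
  linarith

/-- the order of the walls -/
def before (b' b : P.W) : Prop := P.t b' < P.t b ∨ (P.t b' = P.t b ∧ P.kap b' < P.kap b)

theorem before_trans {a b c : P.W} (h1 : P.before a b) (h2 : P.before b c) : P.before a c := by
  unfold before at *
  rcases h1 with h1 | ⟨h1, h1'⟩ <;> rcases h2 with h2 | ⟨h2, h2'⟩
  · exact Or.inl (lt_trans h1 h2)
  · exact Or.inl (h2 ▸ h1)
  · exact Or.inl (h1 ▸ h2)
  · exact Or.inr ⟨h1.trans h2, lt_trans h1' h2'⟩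

theorem before_irrefl (a : P.W) : ¬ P.before a a := by
  unfold before
  rintro (h | ⟨_, h⟩) <;> exact lt_irrefl _ h

theorem eq_of_t_eq {b b' : P.W} (h : P.t b = P.t b') : P.inn b = P.inn b' := by
  by_contra hne
  have h1 := P.g_pos P.Q
  rcases P.tau_gap (P.inn_ok b) (P.inn_ok b') hne with h2 | h2
  · unfold t at h
    linarith
  · unfold t at h
    linarith

theorem before_total {b b' : P.W} (hh : b.1.h = b'.1.h) (hne : b ≠ b') :
    P.before b b' ∨ P.before b' b := by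
  rcases lt_trichotomy (P.t b) (P.t b') with h | h | h
  · exact Or.inl (Or.inl h)
  · have h1 := P.eq_of_t_eq h
    have h2 : b.1.i = b'.1.i := congrArg Prod.fst h1
    have hq : b.1.q = b'.1.q := by unfold Wall.q; rw [h2, hh]
    rcases lt_trichotomy (P.kap b) (P.kap b') with h3 | h3 | h3
    · exact Or.inl (Or.inr ⟨h, h3⟩)
    · exfalso
      by_cases ha : ∀ x < b.1.q, b.1.μ x = b'.1.μ x
      · have hμ : b.1.μ = b'.1.μ := by
          funext x
          by_cases hx : x < b.1.q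
          · exact ha x hx
          · rw [b.2.μ0 x (not_lt.1 hx), b'.2.μ0 x (by rw [← hq]; exact not_lt.1 hx)]
        apply hne
        apply Subtype.ext
        refine Wall.ext h2 hh ?_ hμ
        unfold kap at h3
        rw [hμ, hq] at h3
        have h4 := P.g_pos b'.1.q
        have h5 : (b.1.s : ℝ) * P.g b'.1.q = b'.1.s * P.g b'.1.q := by linarith
        have h6 := mul_right_cancel₀ h4.ne' h5
        exact_mod_cast h6
      · obtain ⟨y, h4, h5, h6⟩ := exists_first_diff ha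
        have h7 := P.g_pos y
        rcases lt_or_gt_of_ne h6 with h8 | h8
        · have := P.kap_diff h4 (hq ▸ h4) h5 h8
          linarith
        · have := P.kap_diff (b := b') (b' := b) (hq ▸ h4) h4 (fun y hy => (h5 y hy).symm) h8
          linarith
    · exact Or.inr (Or.inr ⟨h.symm, h3⟩)
  · exact Or.inr (Or.inl h)

/-- rank of a wall in its cluster -/
noncomputable def rank (q : ℕ) (b : P.W) : ℕ := {b' ∈ P.cluster q b | P.before b' b}.ncard

theorem rank_lt (q : ℕ) (b : P.W) (hq : ∀ i, b.1.h < i → q < pos i b.1.h)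
    (hq' : q < pp (P.m + 1)) : P.rank q b < P.bd q := by
  refine lt_of_lt_of_le ?_ (P.ncard_cluster_le q b hq hq')
  refine Set.ncard_lt_ncard ?_ (Set.toFinite _)
  refine ⟨fun x hx => hx.1, fun h => ?_⟩
  have : b ∈ P.cluster q b := ⟨rfl, fun _ _ => rfl⟩
  exact P.before_irrefl b (h this).2

theorem cluster_eq {q : ℕ} {b b' : P.W} (h : b' ∈ P.cluster q b) :
    P.cluster q b' = P.cluster q b := by
  ext c
  unfold cluster at *
  simp only [Set.mem_ofPred_eq] at *
  constructor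
  · rintro ⟨h1, h2⟩
    exact ⟨h1.trans h.1, fun x hx => (h2 x hx).trans (h.2 x hx)⟩
  · rintro ⟨h1, h2⟩
    exact ⟨h1.trans h.1.symm, fun x hx => (h2 x hx).trans (h.2 x hx).symm⟩

theorem rank_mono {q : ℕ} {b b' : P.W} (h : b' ∈ P.cluster q b) (hb : P.before b' b) :
    P.rank q b' < P.rank q b := by
  unfold rank
  refine Set.ncard_lt_ncard ?_ (Set.toFinite _)
  rw [P.cluster_eq h]
  refine ⟨fun x hx => ⟨hx.1, P.before_trans hx.2 hb⟩, fun h' => ?_⟩
  exact P.before_irrefl b' (h' ⟨h, hb⟩).2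

/-- the contact relation -/
def E (a b : P.W) : Prop :=
  b.1.h = a.1.i ∧ a.1.μ = tr b.1.μ a.1.q ∧ a.1.s = P.Ψ a.1.q (b.1.μ a.1.q) (P.rank a.1.q b)

end Par

end Pool.Agent.Lib.MP_93b2dd_co
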