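import Mathlib
import Pool.Agent.Lib.MP_93b2dd_co.CoreSys
import Pool.Agent.Lib.MP_93b2dd_co.Labels

section

/-!
# Critical subgraphs and the Ramsey-type parameters
-/

namespace Pool.Agent.Lib.MP_93b2dd_co

/-- A finite graph which is not `C`-colourable contains a connected induced subgraph of minimum
degree at least two which is not `C`-colourable. -/
theorem exists_critical {W : Type} [Fintype W] (G : SimpleGraph W) (C : ℕ) (hC : 2 ≤ C)
    (h : ¬ G.Colorable C) :
    ∃ s : Set W, ¬ (G.induce s).Colorable C ∧ (G.induce s).Connected ∧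
      ∀ v, ∃ a b, a ≠ b ∧ (G.induce s).Adj v a ∧ (G.induce s).Adj v b := by
  classical
  have hfin : {s : Set W | ¬ (G.induce s).Colorable C}.Finite := Set.toFinite _
  have hne : {s : Set W | ¬ (G.induce s).Colorable C}.Nonempty := by
    refine ⟨Set.univ, ?_⟩
    intro hcol
    exact h (hcol.of_hom (SimpleGraph.induceUnivIso G).symm.toHom)
  obtain ⟨s, hs⟩ := hfin.exists_minimal hne
  have hs1 : ¬ (G.induce s).Colorable C := hs.prop
  have hmin : ∀ t : Set W, t ⊂ s → (G.induce t).Colorable C := by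
    intro t ht
    by_contra hcon
    exact ht.2 (hs.le_of_le hcon ht.1)
  refine ⟨s, hs1, ?_, ?_⟩
  · rw [SimpleGraph.connected_iff]
    constructor
    · by_contra hnp
      unfold SimpleGraph.Preconnected at hnp
      push Not at hnp
      obtain ⟨u, v, huv⟩ := hnp
      set A : Set W := {x | ∃ hx : x ∈ s, (G.induce s).Reachable u ⟨x, hx⟩} with hA
      have hAs : A ⊆ s := fun x hx => hx.1
      have hA1 : A ⊂ s := by
        refine ⟨hAs, fun hsub => huv ?_⟩
        obtain ⟨_, hr⟩ := hsub v.2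
        exact hr
      have hB1 : s \ A ⊂ s := by
        refine ⟨Set.sdiff_subset, fun hsub => ?_⟩
        exact (hsub u.2).2 ⟨u.2, SimpleGraph.Reachable.refl _⟩
      obtain ⟨f⟩ := hmin A hA1
      obtain ⟨g⟩ := hmin (s \ A) hB1
      apply hs1
      refine ⟨SimpleGraph.Coloring.mk
        (fun x : s => if hx : x.1 ∈ A then f ⟨x.1, hx⟩ else g ⟨x.1, x.2, hx⟩) ?_⟩
      intro x y hxy
      have hiff : x.1 ∈ A ↔ y.1 ∈ A := by
        constructor
        · rintro ⟨hx, hr⟩
          exact ⟨y.2, hr.trans (SimpleGraph.Adj.reachable hxy)⟩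
        · rintro ⟨hy, hr⟩
          exact ⟨x.2, hr.trans (SimpleGraph.Adj.reachable hxy.symm)⟩
      have hxy' : G.Adj x.1 y.1 := hxy
      by_cases hx : x.1 ∈ A
      · have hy : y.1 ∈ A := hiff.1 hx
        simp only [hx, hy, dif_pos]
        exact f.valid (v := ⟨x.1, hx⟩) (w := ⟨y.1, hy⟩) hxy'
      · have hy : y.1 ∉ A := fun hy => hx (hiff.2 hy)
        simp only [hx, hy, dif_neg, not_false_iff]
        exact g.valid (v := ⟨x.1, x.2, hx⟩) (w := ⟨y.1, y.2, hy⟩) hxy'
    · by_contra hne'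
      apply hs1
      have : IsEmpty s := not_nonempty_iff.1 hne'
      exact ⟨SimpleGraph.Coloring.mk (fun x => this.elim x) (fun {x} => this.elim x)⟩
  · intro v
    by_contra hcon
    push Not at hcon
    apply hs1
    have hlt : s \ {v.1} ⊂ s := by
      refine ⟨Set.sdiff_subset, fun hsub => ?_⟩
      exact (hsub v.2).2 rfl
    obtain ⟨f⟩ := hmin _ hlt
    have hC0 : 0 < C := by omega
    -- a colour avoiding the neighbours of `v`
    have hc : ∃ c : Fin C, ∀ w : s, (G.induce s).Adj v w → ∀ hw : w.1 ∈ s \ {v.1},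
        f ⟨w.1, hw⟩ ≠ c := by
      by_cases hex : ∃ w : s, (G.induce s).Adj v w
      · obtain ⟨w, hw⟩ := hex
        have hws : w.1 ∈ s \ {v.1} := ⟨w.2, fun he => by
          have : w = v := Subtype.ext he
          rw [this] at hw
          exact (G.induce s).loopless.irrefl _ hw⟩
        have hnt : Nontrivial (Fin C) := Fin.nontrivial_iff_two_le.2 hC
        obtain ⟨c, hc⟩ := exists_ne (f ⟨w.1, hws⟩)
        refine ⟨c, fun w' hw' hws' => ?_⟩
        have hww : w = w' := by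
          by_contra hne
          exact hcon w w' hne hw hw'
        subst hww
        exact hc.symm
      · push Not at hex
        exact ⟨⟨0, hC0⟩, fun w hw => absurd hw (hex w)⟩
    obtain ⟨c, hc⟩ := hc
    refine ⟨SimpleGraph.Coloring.mk
      (fun x : s => if hx : x.1 ∈ s \ {v.1} then f ⟨x.1, hx⟩ else c) ?_⟩
    intro x y hxy
    have hxy' : G.Adj x.1 y.1 := hxy
    have hval : ∀ z : s, z.1 ∉ s \ {v.1} → z = v := by
      intro z hz
      by_contra hne
      exact hz ⟨z.2, fun he => hne (Subtype.ext he)⟩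
    by_cases hx : x.1 ∈ s \ {v.1}
    · by_cases hy : y.1 ∈ s \ {v.1}
      · simp only [hx, hy, dif_pos]
        exact f.valid (v := ⟨x.1, hx⟩) (w := ⟨y.1, hy⟩) hxy'
      · simp only [hx, hy, dif_pos, dif_neg, not_false_iff]
        have := hval y hy
        subst this
        exact hc x hxy.symm hx
    · by_cases hy : y.1 ∈ s \ {v.1}
      · simp only [hx, hy, dif_pos, dif_neg, not_false_iff]
        have := hval x hx
        subst this
        exact (hc y hxy hy).symm
      · exfalso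
        have h1 := hval x hx
        have h2 := hval y hy
        rw [h1, h2] at hxy
        exact (G.induce s).loopless.irrefl _ hxy

/-- Parameters chosen by downward recursion: for every position `q` a family `Ψ q r`, `r < R q`, of
strictly increasing maps from `{0, …, bd q - 1}` to `{0, …, N q - 1}`, such that for every colouring
with `C` colours one of them has monochromatic image; here `bd q` may depend in a prescribed way
on the parameters of the later positions. -/
theorem exists_params (C Q : ℕ) (hC : 0 < C) (Bd : ℕ → ℕ) :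
    ∃ (N R bd : ℕ → ℕ) (Ψ : ℕ → ℕ → ℕ → ℕ),
      (∀ q, 0 < bd q) ∧
      (∀ q r k k', k < k' → k' < bd q → Ψ q r k < Ψ q r k') ∧
      (∀ q r k, k < bd q → Ψ q r k < N q) ∧
      (∀ q, ∀ col : ℕ → Fin C, ∃ r < R q, ∃ c, ∀ k < bd q, col (Ψ q r k) = c) ∧
      (∀ q < Q, ∃ M, (∀ y, q < y → y < Q → N y ≤ M ∧ R y ≤ M) ∧ Bd M ≤ bd q) := by
  classical
  -- the parameters as a function of `M`
  have hstep : ∀ M : ℕ, ∃ (R : ℕ) (ψ : ℕ → ℕ → ℕ),
      (∀ r k k', k < k' → k' < Bd M + 1 → ψ r k < ψ r k') ∧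
      (∀ r k, k < Bd M + 1 → ψ r k < C * (Bd M + 1)) ∧
      (∀ col : ℕ → Fin C, ∃ r < R, ∃ c, ∀ k < Bd M + 1, col (ψ r k) = c) := by
    intro M
    set b : ℕ := Bd M + 1 with hb
    have hle : b ≤ C * b := Nat.le_mul_of_pos_left _ hC
    let e := Fintype.equivFin (Fin b ↪o Fin (C * b))
    have hR : 0 < Fintype.card (Fin b ↪o Fin (C * b)) :=
      Fintype.card_pos_iff.2 ⟨Fin.castLEOrderEmb hle⟩
    set R : ℕ := Fintype.card (Fin b ↪o Fin (C * b)) with hRdef
    refine ⟨R, fun r k => if hk : k < b then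
      ((e.symm ⟨r % R, Nat.mod_lt _ hR⟩) ⟨k, hk⟩ : ℕ) else 0, ?_, ?_, ?_⟩
    · intro r k k' hkk hk'
      have hk : k < b := hkk.trans hk'
      simp only [hk, hk', dif_pos]
      have : (⟨k, hk⟩ : Fin b) < ⟨k', hk'⟩ := hkk
      exact (e.symm ⟨r % R, Nat.mod_lt _ hR⟩).strictMono this
    · intro r k hk
      simp only [hk, dif_pos]
      exact Fin.is_lt _
    · intro col
      have hnon : Nonempty (Fin C) := ⟨⟨0, hC⟩⟩
      obtain ⟨c, hc⟩ := Fintype.exists_le_card_fiber_of_mul_le_card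
        (f := fun x : Fin (C * b) => col x.1) (n := b) (by simp)
      let E := Finset.orderEmbOfCardLe
        (Finset.univ.filter fun x : Fin (C * b) => col x.1 = c) hc
      refine ⟨e E, (e E).2, c, ?_⟩
      intro k hk
      have h1 : (⟨(e E : ℕ) % R, Nat.mod_lt _ hR⟩ : Fin R) = e E := by
        apply Fin.ext
        exact Nat.mod_eq_of_lt (e E).2
      simp only [hk, dif_pos]
      rw [h1, Equiv.symm_apply_apply]
      have h2 := Finset.orderEmbOfCardLe_mem
        (Finset.univ.filter fun x : Fin (C * b) => col x.1 = c) hc ⟨k, hk⟩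
      exact (Finset.mem_filter.1 h2).2
  choose R ψ h1 h2 h3 using hstep
  let Mseq : ℕ → ℕ := fun p => Nat.rec 0
    (fun _ M => max M (max (C * (Bd M + 1)) (R M))) p
  have hM : ∀ p, Mseq (p + 1) = max (Mseq p) (max (C * (Bd (Mseq p) + 1)) (R (Mseq p))) :=
    fun p => rfl
  have hmono : Monotone Mseq := monotone_nat_of_le_succ fun p => by
    rw [hM]
    exact le_max_left _ _
  refine ⟨fun q => C * (Bd (Mseq (Q - 1 - q)) + 1), fun q => R (Mseq (Q - 1 - q)),
    fun q => Bd (Mseq (Q - 1 - q)) + 1, fun q => ψ (Mseq (Q - 1 - q)), ?_, ?_, ?_, ?_, ?_⟩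
  · intro q
    exact Nat.succ_pos _
  · intro q
    exact h1 _
  · intro q
    exact h2 _
  · intro q
    exact h3 _
  · intro q hq
    refine ⟨Mseq (Q - 1 - q), ?_, Nat.le_succ _⟩
    intro y hqy hyQ
    have hle : Q - 1 - y + 1 ≤ Q - 1 - q := by omega
    have h4 := hmono hle
    rw [hM] at h4
    constructor
    · exact ((le_max_left _ _).trans (le_max_right _ _)).trans h4
    · exact ((le_max_right _ _).trans (le_max_right _ _)).trans h4

end Pool.Agent.Lib.MP_93b2dd_co
end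

section

/-!
# Realization of a core system by a contact system
-/

namespace Pool.Agent.Lib.MP_93b2dd_co

open Filter Topology

namespace CoreSystem

variable {W : Type} (S : CoreSystem W)

/-- The graph of a core system. -/
def graph : SimpleGraph W := SimpleGraph.fromRel S.E

theorem E_asymm {a b : W} (h : S.E a b) : ¬ S.E b a := by
  intro h'
  have h1 := S.E_core _ _ h
  have h2 := S.E_core _ _ h'
  have h3 := S.s_lt a
  have h4 := S.s_lt b
  rw [h1] at h3
  rw [h2] at h4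
  linarith

theorem E_ne {a b : W} (h : S.E a b) : a ≠ b := by
  rintro rfl
  exact S.E_asymm h h

theorem adj_iff {a b : W} : S.graph.Adj a b ↔ S.E a b ∨ S.E b a := by
  unfold graph
  rw [SimpleGraph.fromRel_adj]
  constructor
  · exact fun h => h.2
  · intro h
    refine ⟨?_, h⟩
    rcases h with h | h
    · exact S.E_ne h
    · exact (S.E_ne h).symm

open Classical in
/-- first coordinate of the contact point of two adjacent walls -/
noncomputable def xx (δ : ℝ) (w u : W) : ℝ := if S.E w u then S.X δ w u else S.X δ u w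

open Classical in
/-- second coordinate of the contact point of two adjacent walls -/
noncomputable def zz (w u : W) : ℝ := if S.E w u then S.Z w u else S.Z u w

theorem xx_pos {δ : ℝ} {w u : W} (h : S.E w u) : S.xx δ w u = S.X δ w u := if_pos h
theorem xx_neg {δ : ℝ} {w u : W} (h : S.E u w) : S.xx δ w u = S.X δ u w := if_neg (S.E_asymm h)
theorem zz_pos {w u : W} (h : S.E w u) : S.zz w u = S.Z w u := if_pos h
theorem zz_neg {w u : W} (h : S.E u w) : S.zz w u = S.Z u w := if_neg (S.E_asymm h)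

theorem ev_of_imp {p : Prop} {q : ℝ → Prop} (h : p → ∀ᶠ δ in 𝓝[>] (0 : ℝ), q δ) :
    ∀ᶠ δ in 𝓝[>] (0 : ℝ), p → q δ := by
  by_cases hp : p
  · filter_upwards [h hp] with δ h1 _ using h1
  · exact Eventually.of_forall fun δ h1 => absurd h1 hp

/-- eventually all contact points of `w` (except the one with `w'`) are above the plane `w'` -/
def Above (w w' : W) : Prop :=
  ∀ u, S.graph.Adj w u → u ≠ w' → ∀ᶠ δ in 𝓝[>] (0 : ℝ),
    S.Y δ w' (S.xx δ w u) (S.zz w u) < S.Y δ w (S.xx δ w u) (S.zz w u)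

theorem above_of {w w' : W}
    (h1 : ∀ u, S.E w u → u ≠ w' → ∀ᶠ δ in 𝓝[>] (0 : ℝ),
      S.Y δ w' (S.X δ w u) (S.Z w u) < S.Y δ w (S.X δ w u) (S.Z w u))
    (h2 : ∀ u, S.E u w → u ≠ w' → ∀ᶠ δ in 𝓝[>] (0 : ℝ),
      S.Y δ w' (S.X δ u w) (S.Z u w) < S.Y δ u (S.X δ u w) (S.Z u w)) : S.Above w w' := by
  intro u hu hne
  rcases S.adj_iff.1 hu with h | h
  · simp only [S.xx_pos h, S.zz_pos h]
    exact h1 u h hne
  · simp only [S.xx_neg h, S.zz_neg h]
    filter_upwards [h2 u h hne, S.touch_ev u w (S.E_core _ _ h)] with δ h3 h4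
    rw [h4]
    exact h3

theorem above_of_adj {w w' : W} (h : S.graph.Adj w w') : S.Above w w' := by
  rcases S.adj_iff.1 h with h | h
  · refine S.above_of ?_ ?_
    · intro u hu hne
      exact S.L2 w u w' (S.E_core _ _ h) (S.AB _ _ _ h hu hne)
    · intro u hu hne
      refine S.L3 u w w' ?_
      have h1 := S.E_core _ _ hu
      have h2 := S.E_core _ _ h
      have h3 := S.s_lt w
      have h4 := S.s_lt w'
      rw [h1, ← h2]
      rw [← h2] at h4
      nlinarith
  · refine S.above_of ?_ ?_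
    · intro u hu hne
      refine S.L3 w u w' ?_
      have h2 := S.E_core _ _ h
      have h3 := S.s_lt w
      have h4 := S.s_lt w'
      rw [h2]
      rw [h2] at h4
      nlinarith
    · intro u hu hne
      refine S.L1 u w w' ?_ (S.BA _ _ _ h hu hne)
      rw [S.E_core _ _ h, S.E_core _ _ hu]

/-- the two walls are separated by a plane -/
def Sep (δ : ℝ) (w w' : W) : Prop := ∃ a b c e : ℝ,
  (∀ u, S.graph.Adj w u →
    0 < a * S.xx δ w u + b * S.zz w u + c * S.Y δ w (S.xx δ w u) (S.zz w u) + e) ∧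
  (∀ u, S.graph.Adj w' u →
    a * S.xx δ w' u + b * S.zz w' u + c * S.Y δ w' (S.xx δ w' u) (S.zz w' u) + e < 0)

theorem Sep.symm {δ : ℝ} {w w' : W} (h : S.Sep δ w w') : S.Sep δ w' w := by
  obtain ⟨a, b, c, e, h1, h2⟩ := h
  refine ⟨-a, -b, -c, -e, fun u hu => ?_, fun u hu => ?_⟩
  · have := h2 u hu
    linarith
  · have := h1 u hu
    linarith

theorem exists_pos_lt [Finite W] (g : W → ℝ) (p : W → Prop) (h : ∀ u, p u → 0 < g u) :
    ∃ ε : ℝ, 0 < ε ∧ ∀ u, p u → ε < g u := by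
  have h1 : ∀ᶠ ε in 𝓝[>] (0 : ℝ), ∀ u, p u → ε < g u := by
    rw [eventually_all]
    intro u
    refine ev_of_imp fun hu => ?_
    exact (gt_mem_nhds (h u hu)).filter_mono nhdsWithin_le_nhds
  obtain ⟨ε, h2, h3⟩ := (h1.and self_mem_nhdsWithin).exists
  exact ⟨ε, h3, h2⟩

theorem sep_of_above [Finite W] {w w' : W} (h : S.Above w w') (hna : ¬ S.graph.Adj w w') :
    ∀ᶠ δ in 𝓝[>] (0 : ℝ), S.Sep δ w w' := by
  have h1 : ∀ᶠ δ in 𝓝[>] (0 : ℝ), ∀ u, S.graph.Adj w u →
      S.Y δ w' (S.xx δ w u) (S.zz w u) < S.Y δ w (S.xx δ w u) (S.zz w u) := by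
    rw [eventually_all]
    intro u
    exact ev_of_imp fun hu => h u hu (by rintro rfl; exact hna hu)
  filter_upwards [h1] with δ h2
  obtain ⟨ε, h3, h4⟩ := exists_pos_lt (fun u => S.Y δ w (S.xx δ w u) (S.zz w u) -
    S.Y δ w' (S.xx δ w u) (S.zz w u)) (fun u => S.graph.Adj w u)
    (fun u hu => by have := h2 u hu; linarith)
  refine ⟨-S.A δ w', -S.B δ w', 1, -S.C δ w' - ε, fun u hu => ?_, fun u hu => ?_⟩
  · have := h4 u hu
    simp only [CoreData.Y] at this ⊢
    linarith
  · simp only [CoreData.Y]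
    linarith

theorem sep_of_below [Finite W] {w w' : W}
    (h : ∀ u, S.graph.Adj w u → ∀ᶠ δ in 𝓝[>] (0 : ℝ),
      S.Y δ w (S.xx δ w u) (S.zz w u) < S.Y δ w' (S.xx δ w u) (S.zz w u)) :
    ∀ᶠ δ in 𝓝[>] (0 : ℝ), S.Sep δ w w' := by
  have h1 : ∀ᶠ δ in 𝓝[>] (0 : ℝ), ∀ u, S.graph.Adj w u →
      S.Y δ w (S.xx δ w u) (S.zz w u) < S.Y δ w' (S.xx δ w u) (S.zz w u) := by
    rw [eventually_all]
    intro u
    exact ev_of_imp fun hu => h u hu
  filter_upwards [h1] with δ h2
  obtain ⟨ε, h3, h4⟩ := exists_pos_lt (fun u => S.Y δ w' (S.xx δ w u) (S.zz w u) -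
    S.Y δ w (S.xx δ w u) (S.zz w u)) (fun u => S.graph.Adj w u)
    (fun u hu => by have := h2 u hu; linarith)
  refine ⟨S.A δ w', S.B δ w', -1, S.C δ w' - ε, fun u hu => ?_, fun u hu => ?_⟩
  · have := h4 u hu
    simp only [CoreData.Y] at this ⊢
    linarith
  · simp only [CoreData.Y]
    linarith

theorem below_far [Finite W] {w w' : W}
    (h1 : (S.s (S.inn w) - S.s (S.inn w')) * (S.s (S.inn w) - S.s (S.out w')) < 0)
    (h2 : (S.s (S.out w) - S.s (S.inn w')) * (S.s (S.out w) - S.s (S.out w')) < 0) :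
    ∀ᶠ δ in 𝓝[>] (0 : ℝ), S.Sep δ w w' := by
  refine S.sep_of_below ?_
  intro u hu
  rcases S.adj_iff.1 hu with h | h
  · simp only [S.xx_pos h, S.zz_pos h]
    exact S.L3' w u w' h1
  · simp only [S.xx_neg h, S.zz_neg h]
    have h5 := S.E_core _ _ h
    filter_upwards [S.L3' u w w' (by rw [h5]; exact h2), S.touch_ev u w h5] with δ h3 h4
    rw [h4]
    exact h3

theorem sep_of_fun [Finite W] {w w' : W} (p q r e : ℝ)
    (h1 : ∀ u, S.E w u →
      0 < p * S.s (S.inn w) + q * (S.s (S.inn w) ^ 3 + S.ζ w u) + r * S.s (S.inn w) ^ 2 + e)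
    (h2 : ∀ u, S.E u w →
      0 < p * S.s (S.out w) + q * (S.s (S.out w) ^ 3 + S.ζ u w) + r * S.s (S.out w) ^ 2 + e)
    (h3 : ∀ u, S.E w' u →
      p * S.s (S.inn w') + q * (S.s (S.inn w') ^ 3 + S.ζ w' u) + r * S.s (S.inn w') ^ 2 + e < 0)
    (h4 : ∀ u, S.E u w' →
      p * S.s (S.out w') + q * (S.s (S.out w') ^ 3 + S.ζ u w') + r * S.s (S.out w') ^ 2 + e < 0) :
    ∀ᶠ δ in 𝓝[>] (0 : ℝ), S.Sep δ w w' := by
  have g1 : ∀ᶠ δ in 𝓝[>] (0 : ℝ), ∀ u, S.graph.Adj w u →
      0 < p * S.xx δ w u + q * S.zz w u + r * S.Y δ w (S.xx δ w u) (S.zz w u) + e := by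
    rw [eventually_all]
    intro u
    refine ev_of_imp fun hu => ?_
    rcases S.adj_iff.1 hu with h | h
    · simp only [S.xx_pos h, S.zz_pos h]
      exact S.L4 w u p q r e (h1 u h)
    · simp only [S.xx_neg h, S.zz_neg h]
      have h5 := S.E_core _ _ h
      filter_upwards [S.L4 u w p q r e (by rw [h5]; exact h2 u h), S.touch_ev u w h5] with δ h3 h4
      rw [h4]
      exact h3
  have g2 : ∀ᶠ δ in 𝓝[>] (0 : ℝ), ∀ u, S.graph.Adj w' u →
      p * S.xx δ w' u + q * S.zz w' u + r * S.Y δ w' (S.xx δ w' u) (S.zz w' u) + e < 0 := by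
    rw [eventually_all]
    intro u
    refine ev_of_imp fun hu => ?_
    rcases S.adj_iff.1 hu with h | h
    · simp only [S.xx_pos h, S.zz_pos h]
      filter_upwards [S.L4 w' u (-p) (-q) (-r) (-e) (by have := h3 u h; linarith)] with δ h6
      linarith
    · simp only [S.xx_neg h, S.zz_neg h]
      have h5 := S.E_core _ _ h
      filter_upwards [S.L4 u w' (-p) (-q) (-r) (-e) (by rw [h5]; have := h4 u h; linarith),
        S.touch_ev u w' h5] with δ h6 h7
      rw [h7]
      linarith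
  filter_upwards [g1, g2] with δ h5 h6
  exact ⟨p, q, r, e, h5, h6⟩

/-- in-wall and out-wall at a common core -/
theorem sep_inout [Finite W] {w w' : W} (h : S.inn w = S.out w') (hna : ¬ S.graph.Adj w w') :
    ∀ᶠ δ in 𝓝[>] (0 : ℝ), S.Sep δ w w' := by
  have hE : ¬ S.E w w' := fun h' => hna (S.adj_iff.2 (Or.inl h'))
  have h3 := S.s_lt w
  have h4 := S.s_lt w'
  rcases S.non w w' h hE with h1 | h1
  · refine S.sep_of_above (S.above_of ?_ ?_) hna
    · intro u hu hne
      exact S.L2 w u w' h (h1 u hu)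
    · intro u hu hne
      refine S.L3 u w w' ?_
      have h5 := S.E_core _ _ hu
      rw [h5, ← h]
      rw [← h] at h4
      nlinarith
  · have : ∀ᶠ δ in 𝓝[>] (0 : ℝ), S.Sep δ w' w := by
      refine S.sep_of_above (S.above_of ?_ ?_) (fun h => hna h.symm)
      · intro u hu hne
        refine S.L3 w' u w ?_
        rw [h]
        rw [h] at h3
        nlinarith
      · intro u hu hne
        refine S.L1 u w' w ?_ (h1 u hu)
        rw [h, S.E_core _ _ hu]
    filter_upwards [this] with δ h6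
    exact h6.symm

theorem sep_outout [Finite W] {w w' : W} (h : S.out w = S.out w')
    (hlt : S.s (S.inn w') < S.s (S.inn w)) (hna : ¬ S.graph.Adj w w') :
    ∀ᶠ δ in 𝓝[>] (0 : ℝ), S.Sep δ w w' := by
  have h3 := S.s_lt w
  have h4 := S.s_lt w'
  refine S.sep_of_above (S.above_of ?_ ?_) hna
  · intro u hu hne
    refine S.L3 w u w' ?_
    rw [← h]
    nlinarith
  · intro u hu hne
    refine S.L2 u w w' ?_ (S.outout w w' h hlt u hu)
    rw [S.E_core _ _ hu, h]

theorem sep_same [Finite W] {w w' : W} (h : S.out w = S.out w') (h' : S.inn w = S.inn w')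
    (hc : S.c w' < S.c w) (ho : S.o w < S.o w') (hna : ¬ S.graph.Adj w w') :
    ∀ᶠ δ in 𝓝[>] (0 : ℝ), S.Sep δ w w' := by
  have hm : S.m w = S.m w' := by unfold CoreData.m; rw [h, h']
  refine S.sep_of_above (S.above_of ?_ ?_) hna
  · intro u hu hne
    refine S.L1 w u w' h'.symm ?_
    unfold CoreData.In
    rw [hm]
    linarith
  · intro u hu hne
    refine S.L2 u w w' ?_ ?_
    · rw [S.E_core _ _ hu, h]
    · rw [S.In_u]
      unfold CoreData.Out
      rw [hm, h, h']
      have := mul_lt_mul_of_pos_left ho (S.m_pos w')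
      linarith

theorem sep_innin [Finite W] {w w' : W} (h : S.inn w = S.inn w')
    (hlt : S.s (S.out w') < S.s (S.out w)) (hna : ¬ S.graph.Adj w w') :
    ∀ᶠ δ in 𝓝[>] (0 : ℝ), S.Sep δ w w' := by
  have h3 := S.s_lt w
  have h4 := S.s_lt w'
  have hne : S.out w ≠ S.out w' := by
    intro h5
    rw [h5] at hlt
    exact lt_irrefl _ hlt
  have g1 := S.m_ge w
  have g2 := S.s_gap _ (S.out_mem w) _ (S.out_mem w') hne
  rw [abs_of_pos (by linarith)] at g2
  unfold CoreData.m at g1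
  rcases S.innin w w' h hlt with h1 | ⟨t, ht, h1, h2⟩ | ⟨t, ht, h1, h2⟩
  · have : ∀ᶠ δ in 𝓝[>] (0 : ℝ), S.Sep δ w' w := by
      refine S.sep_of_above (S.above_of ?_ ?_) (fun h => hna h.symm)
      · intro u hu hne
        exact S.L1 w' u w h (h1 u hu)
      · intro u hu hne
        refine S.L3 u w' w ?_
        rw [S.E_core _ _ hu]
        nlinarith
    filter_upwards [this] with δ h6
    exact h6.symm
  · -- contacts of `w` earlier than those of `w'`
    have : ∀ᶠ δ in 𝓝[>] (0 : ℝ), S.Sep δ w' w := by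
      have ht' := abs_le.1 ht
      set s0 := S.s (S.inn w) with hs0
      set s1 := S.s (S.out w) with hs1
      set s2 := S.s (S.out w') with hs2
      have e0 : S.s (S.inn w') = s0 := by rw [← h]
      -- roots
      set r1 := s2 - 2 with hr1
      set r2 := (s1 + s2) / 2 with hr2
      set g2' := s0 + r1 + r2 with hg2
      set g1' := s0 ^ 2 - g2' * s0 - r1 * r2 with hg1
      have key : ∀ x y : ℝ, -g1' * x + 1 * (x ^ 3 + y) + (-g2') * x ^ 2 +
          (-s0 ^ 3 + g1' * s0 + g2' * s0 ^ 2 - t) = (x - s0) * ((x - r1) * (x - r2)) + (y - t) := by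
        intro x y
        rw [hg1, hg2]
        ring
      refine S.sep_of_fun (-g1') 1 (-g2') (-s0 ^ 3 + g1' * s0 + g2' * s0 ^ 2 - t) ?_ ?_ ?_ ?_
      · intro u hu
        rw [key, e0]
        have := h2 u hu
        simp only [sub_self, zero_mul, zero_add]
        linarith
      · intro u hu
        rw [key]
        have := abs_le.1 (S.ζ_le _ _ hu)
        have e1 : (s2 - r1) = 2 := by rw [hr1]; ring
        have e2 : (s2 - r2) ≤ -2 := by rw [hr2]; linarith
        rw [e1]
        have e3 : 16 ≤ (s2 - s0) * (s2 - r2) := by nlinarith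
        nlinarith
      · intro u hu
        rw [key, ← hs0]
        have := h1 u hu
        simp only [sub_self, zero_mul, zero_add]
        linarith
      · intro u hu
        rw [key]
        have := abs_le.1 (S.ζ_le _ _ hu)
        have e1 : 6 ≤ (s1 - r1) := by rw [hr1]; linarith
        have e2 : 2 ≤ (s1 - r2) := by rw [hr2]; linarith
        have e3 : 12 ≤ (s1 - r1) * (s1 - r2) := by nlinarith
        nlinarith
    filter_upwards [this] with δ h6
    exact h6.symm
  · -- contacts of `w` later than those of `w'`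
    have ht' := abs_le.1 ht
    set s0 := S.s (S.inn w) with hs0
    set s1 := S.s (S.out w) with hs1
    set s2 := S.s (S.out w') with hs2
    have e0 : S.s (S.inn w') = s0 := by rw [← h]
    set r1 := (s1 + s2) / 2 with hr1
    set r2 := s1 + 2 with hr2
    set g2' := s0 + r1 + r2 with hg2
    set g1' := s0 ^ 2 - g2' * s0 - r1 * r2 with hg1
    have key : ∀ x y : ℝ, -g1' * x + 1 * (x ^ 3 + y) + (-g2') * x ^ 2 +
        (-s0 ^ 3 + g1' * s0 + g2' * s0 ^ 2 - t) = (x - s0) * ((x - r1) * (x - r2)) + (y - t) := by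
      intro x y
      rw [hg1, hg2]
      ring
    refine S.sep_of_fun (-g1') 1 (-g2') (-s0 ^ 3 + g1' * s0 + g2' * s0 ^ 2 - t) ?_ ?_ ?_ ?_
    · intro u hu
      rw [key, ← hs0]
      have := h1 u hu
      simp only [sub_self, zero_mul, zero_add]
      linarith
    · intro u hu
      rw [key]
      have := abs_le.1 (S.ζ_le _ _ hu)
      have e1 : 2 ≤ (s1 - r1) := by rw [hr1]; linarith
      have e2 : (s1 - r2) = -2 := by rw [hr2]; ring
      rw [e2]
      have e3 : 8 ≤ (s0 - s1) * (s1 - r1) := by nlinarith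
      nlinarith
    · intro u hu
      rw [key, e0]
      have := h2 u hu
      simp only [sub_self, zero_mul, zero_add]
      linarith
    · intro u hu
      rw [key]
      have := abs_le.1 (S.ζ_le _ _ hu)
      have e1 : 2 ≤ (r1 - s2) := by rw [hr1]; linarith
      have e2 : 6 ≤ (r2 - s2) := by rw [hr2]; linarith
      have e3 : 12 ≤ (s2 - r1) * (s2 - r2) := by nlinarith
      nlinarith

end CoreSystem

end Pool.Agent.Lib.MP_93b2dd_co
end

section

/-!
# Realization of a core system by a contact system, continued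
-/

namespace Pool.Agent.Lib.MP_93b2dd_co

open Filter Topology

namespace CoreSystem

variable {W : Type} (S : CoreSystem W)

theorem gap' {k k' : S.K} (hk : k ∈ S.cores) (hk' : k' ∈ S.cores) (hne : k ≠ k') :
    S.s k + 4 ≤ S.s k' ∨ S.s k' + 4 ≤ S.s k := by
  have h := S.s_gap k hk k' hk' hne
  rcases le_abs.1 h with h | h
  · right; linarith
  · left; linarith

/-- interleaved walls -/
theorem sep_cross [Finite W] {w w' : W}
    (h1 : S.s (S.out w) + 4 ≤ S.s (S.out w')) (h2 : S.s (S.out w') + 4 ≤ S.s (S.inn w))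
    (h3 : S.s (S.inn w) + 4 ≤ S.s (S.inn w')) :
    ∀ᶠ δ in 𝓝[>] (0 : ℝ), S.Sep δ w w' := by
  set a := S.s (S.out w) with ha
  set b := S.s (S.out w') with hb
  set c := S.s (S.inn w) with hc
  set d := S.s (S.inn w') with hd
  set r1 := (a + b) / 2 with hr1
  set r2 := (b + c) / 2 with hr2
  set r3 := (c + d) / 2 with hr3
  have key : ∀ x y : ℝ, (r1 * r2 + r1 * r3 + r2 * r3) * x + 1 * (x ^ 3 + y) +
      (-(r1 + r2 + r3)) * x ^ 2 + (-(r1 * r2 * r3)) =
        (x - r1) * ((x - r2) * (x - r3)) + y := by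
    intro x y
    ring
  have : ∀ᶠ δ in 𝓝[>] (0 : ℝ), S.Sep δ w' w := by
    refine S.sep_of_fun (r1 * r2 + r1 * r3 + r2 * r3) 1 (-(r1 + r2 + r3)) (-(r1 * r2 * r3))
      ?_ ?_ ?_ ?_
    · intro u hu
      rw [key, ← hd]
      have := abs_le.1 (S.ζ_le _ _ hu)
      have e1 : 2 ≤ d - r1 := by rw [hr1]; linarith
      have e2 : 2 ≤ d - r2 := by rw [hr2]; linarith
      have e3 : 2 ≤ d - r3 := by rw [hr3]; linarith
      have e4 : 4 ≤ (d - r2) * (d - r3) := by nlinarith
      nlinarith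
    · intro u hu
      rw [key, ← hb]
      have := abs_le.1 (S.ζ_le _ _ hu)
      have e1 : 2 ≤ b - r1 := by rw [hr1]; linarith
      have e2 : 2 ≤ r2 - b := by rw [hr2]; linarith
      have e3 : 2 ≤ r3 - b := by rw [hr3]; linarith
      have e4 : 4 ≤ (b - r2) * (b - r3) := by nlinarith
      nlinarith
    · intro u hu
      rw [key, ← hc]
      have := abs_le.1 (S.ζ_le _ _ hu)
      have e1 : 2 ≤ c - r1 := by rw [hr1]; linarith
      have e2 : 2 ≤ c - r2 := by rw [hr2]; linarith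
      have e3 : 2 ≤ r3 - c := by rw [hr3]; linarith
      have e4 : 4 ≤ (c - r2) * (r3 - c) := by nlinarith
      nlinarith
    · intro u hu
      rw [key, ← ha]
      have := abs_le.1 (S.ζ_le _ _ hu)
      have e1 : 2 ≤ r1 - a := by rw [hr1]; linarith
      have e2 : 2 ≤ r2 - a := by rw [hr2]; linarith
      have e3 : 2 ≤ r3 - a := by rw [hr3]; linarith
      have e4 : 4 ≤ (a - r2) * (a - r3) := by nlinarith
      nlinarith
  filter_upwards [this] with δ h6
  exact h6.symm

theorem above_far {w w' : W}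
    (h1 : 0 < (S.s (S.inn w) - S.s (S.inn w')) * (S.s (S.inn w) - S.s (S.out w')))
    (h2 : 0 < (S.s (S.out w) - S.s (S.inn w')) * (S.s (S.out w) - S.s (S.out w'))) :
    S.Above w w' := by
  refine S.above_of ?_ ?_
  · intro u hu _
    exact S.L3 w u w' h1
  · intro u hu _
    refine S.L3 u w w' ?_
    rw [S.E_core _ _ hu]
    exact h2

theorem sep_far [Finite W] {w w' : W} (hII : S.inn w ≠ S.inn w') (hIO : S.inn w ≠ S.out w')
    (hOI : S.out w ≠ S.inn w') (hOO : S.out w ≠ S.out w') (hna : ¬ S.graph.Adj w w') :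
    ∀ᶠ δ in 𝓝[>] (0 : ℝ), S.Sep δ w w' := by
  have k1 := S.m_ge w
  have k2 := S.m_ge w'
  unfold CoreData.m at k1 k2
  have hsymm : ∀ {v v' : W}, (∀ᶠ δ in 𝓝[>] (0 : ℝ), S.Sep δ v' v) →
      ∀ᶠ δ in 𝓝[>] (0 : ℝ), S.Sep δ v v' := by
    intro v v' h
    filter_upwards [h] with δ h6
    exact h6.symm
  rcases S.gap' (S.out_mem w) (S.out_mem w') hOO with hOO' | hOO'
  · -- `out w < out w'`
    rcases S.gap' (S.inn_mem w) (S.out_mem w') hIO with hIO' | hIO'
    · -- `out w < inn w < out w' < inn w'`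
      refine S.sep_of_above (S.above_far ?_ ?_) hna <;> nlinarith
    · rcases S.gap' (S.inn_mem w) (S.inn_mem w') hII with hII' | hII'
      · exact S.sep_cross (by linarith) (by linarith) (by linarith)
      · -- nested: `w'` inside `w`
        exact hsymm (S.below_far (by nlinarith) (by nlinarith))
  · rcases S.gap' (S.out_mem w) (S.inn_mem w') hOI with hOI' | hOI'
    · rcases S.gap' (S.inn_mem w) (S.inn_mem w') hII with hII' | hII'
      · exact S.below_far (by nlinarith) (by nlinarith)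
      · exact hsymm (S.sep_cross (by linarith) (by linarith) (by linarith))
    · refine S.sep_of_above (S.above_far ?_ ?_) hna <;> nlinarith

theorem sep_all [Finite W] {w w' : W} (hne : w ≠ w') (hna : ¬ S.graph.Adj w w') :
    ∀ᶠ δ in 𝓝[>] (0 : ℝ), S.Sep δ w w' := by
  have hsymm : ∀ {v v' : W}, (∀ᶠ δ in 𝓝[>] (0 : ℝ), S.Sep δ v' v) →
      ∀ᶠ δ in 𝓝[>] (0 : ℝ), S.Sep δ v v' := by
    intro v v' h
    filter_upwards [h] with δ h6
    exact h6.symm
  have hna' : ¬ S.graph.Adj w' w := fun h => hna h.symm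
  by_cases hIO : S.inn w = S.out w'
  · exact S.sep_inout hIO hna
  by_cases hOI : S.inn w' = S.out w
  · exact hsymm (S.sep_inout hOI hna')
  by_cases hOO : S.out w = S.out w'
  · by_cases hII : S.inn w = S.inn w'
    · rcases S.same w w' hII hOO hne with ⟨h1, h2⟩ | ⟨h1, h2⟩
      · exact S.sep_same hOO hII h1 h2 hna
      · exact hsymm (S.sep_same hOO.symm hII.symm h1 h2 hna')
    · rcases S.gap' (S.inn_mem w) (S.inn_mem w') hII with h | h
      · exact hsymm (S.sep_outout hOO.symm (by linarith) hna')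
      · exact S.sep_outout hOO (by linarith) hna
  · by_cases hII : S.inn w = S.inn w'
    · rcases S.gap' (S.out_mem w) (S.out_mem w') hOO with h | h
      · exact hsymm (S.sep_innin hII.symm (by linarith) hna')
      · exact S.sep_innin hII (by linarith) hna
    · exact S.sep_far hII hIO (fun h => hOI h.symm) hOO hna

theorem ev_ne {f : ℝ → ℝ} (hf : ContinuousAt f 0) (h0 : f 0 ≠ 0) :
    ∀ᶠ δ in 𝓝[>] (0 : ℝ), f δ ≠ 0 :=
  (hf.eventually_ne h0).filter_mono nhdsWithin_le_nhds

/-- near-near -/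
theorem noncol1 {a b a' b' : W} (h : S.E a b) (h1 : S.E a b') (hb : b' ≠ b) (h2 : S.E a' b)
    (ha : a' ≠ a) :
    ∀ᶠ δ in 𝓝[>] (0 : ℝ), (S.X δ a b' - S.X δ a b) * (S.Z a' b - S.Z a b) -
      (S.Z a b' - S.Z a b) * (S.X δ a' b - S.X δ a b) ≠ 0 := by
  have c1 := S.continuousAt_U a b
  have c2 := S.continuousAt_U a b'
  have c3 := S.continuousAt_U a' b
  have hc : S.inn a' = S.inn a := by rw [S.E_core _ _ h2, S.E_core _ _ h]
  have hf : ContinuousAt (fun δ => (S.U δ a b' - S.U δ a b) * (S.ζ a' b - S.ζ a b) -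
      (S.ζ a b' - S.ζ a b) * (S.U δ a' b - S.U δ a b)) 0 := by
    fun_prop
  have h0 := ev_ne hf (by
    simp only [S.U_zero]
    exact S.ncol a b a' b' h h1 hb h2 ha)
  filter_upwards [h0, self_mem_nhdsWithin] with δ h3 h4
  have h5 : (S.X δ a b' - S.X δ a b) * (S.Z a' b - S.Z a b) -
      (S.Z a b' - S.Z a b) * (S.X δ a' b - S.X δ a b) =
      -δ * ((S.U δ a b' - S.U δ a b) * (S.ζ a' b - S.ζ a b) -
      (S.ζ a b' - S.ζ a b) * (S.U δ a' b - S.U δ a b)) := by
    unfold CoreData.X CoreData.Z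
    rw [hc]
    ring
  rw [h5]
  exact mul_ne_zero (neg_ne_zero.2 (ne_of_gt h4)) h3

/-- near-far -/
theorem noncol2 {a b b' u : W} (h : S.E a b) (h1 : S.E a b') (hb : b' ≠ b) (h2 : S.E b u) :
    ∀ᶠ δ in 𝓝[>] (0 : ℝ), (S.X δ a b' - S.X δ a b) * (S.Z b u - S.Z a b) -
      (S.Z a b' - S.Z a b) * (S.X δ b u - S.X δ a b) ≠ 0 := by
  have c1 := S.continuousAt_X a b
  have c2 := S.continuousAt_X a b'
  have c3 := S.continuousAt_X b u
  have hf : ContinuousAt (fun δ => (S.X δ a b' - S.X δ a b) * (S.Z b u - S.Z a b) -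
      (S.Z a b' - S.Z a b) * (S.X δ b u - S.X δ a b)) 0 := by
    fun_prop
  refine ev_ne hf ?_
  simp only [S.X_zero]
  unfold CoreData.Z
  have h3 := S.m_pos b
  unfold CoreData.m at h3
  rw [S.E_core _ _ h]
  have h4 := S.tne1 a b b' h h1 hb
  have h5 : (S.s (S.out b) - S.s (S.out b)) * (S.s (S.inn b) ^ 3 + S.ζ b u -
      (S.s (S.out b) ^ 3 + S.ζ a b)) - (S.s (S.out b) ^ 3 + S.ζ a b' -
      (S.s (S.out b) ^ 3 + S.ζ a b)) * (S.s (S.inn b) - S.s (S.out b)) =
      -((S.ζ a b' - S.ζ a b) * (S.s (S.inn b) - S.s (S.out b))) := by ring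
  rw [h5]
  exact neg_ne_zero.2 (mul_ne_zero (sub_ne_zero.2 h4) h3.ne')

/-- far-near -/
theorem noncol3 {a b a' u : W} (h : S.E a b) (h1 : S.E u a) (h2 : S.E a' b) (ha : a' ≠ a) :
    ∀ᶠ δ in 𝓝[>] (0 : ℝ), (S.X δ u a - S.X δ a b) * (S.Z a' b - S.Z a b) -
      (S.Z u a - S.Z a b) * (S.X δ a' b - S.X δ a b) ≠ 0 := by
  have c1 := S.continuousAt_X a b
  have c2 := S.continuousAt_X u a
  have c3 := S.continuousAt_X a' b
  have hf : ContinuousAt (fun δ => (S.X δ u a - S.X δ a b) * (S.Z a' b - S.Z a b) -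
      (S.Z u a - S.Z a b) * (S.X δ a' b - S.X δ a b)) 0 := by
    fun_prop
  refine ev_ne hf ?_
  simp only [S.X_zero]
  unfold CoreData.Z
  have h3 := S.m_pos a
  unfold CoreData.m at h3
  have hc : S.inn a' = S.inn a := by rw [S.E_core _ _ h2, S.E_core _ _ h]
  rw [hc, S.E_core _ _ h1]
  have h4 := S.tne2 a a' b h h2 ha
  have h5 : (S.s (S.out a) - S.s (S.inn a)) * (S.s (S.inn a) ^ 3 + S.ζ a' b -
      (S.s (S.inn a) ^ 3 + S.ζ a b)) - (S.s (S.out a) ^ 3 + S.ζ u a -
      (S.s (S.inn a) ^ 3 + S.ζ a b)) * (S.s (S.inn a) - S.s (S.inn a)) =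
      -((S.ζ a' b - S.ζ a b) * (S.s (S.inn a) - S.s (S.out a))) := by ring
  rw [h5]
  exact neg_ne_zero.2 (mul_ne_zero (sub_ne_zero.2 h4) h3.ne')

/-- far-far -/
theorem noncol4 {a b u v : W} (h : S.E a b) (h1 : S.E u a) (h2 : S.E b v) :
    ∀ᶠ δ in 𝓝[>] (0 : ℝ), (S.X δ u a - S.X δ a b) * (S.Z b v - S.Z a b) -
      (S.Z u a - S.Z a b) * (S.X δ b v - S.X δ a b) ≠ 0 := by
  have c1 := S.continuousAt_X a b
  have c2 := S.continuousAt_X u a
  have c3 := S.continuousAt_X b v
  have hf : ContinuousAt (fun δ => (S.X δ u a - S.X δ a b) * (S.Z b v - S.Z a b) -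
      (S.Z u a - S.Z a b) * (S.X δ b v - S.X δ a b)) 0 := by
    fun_prop
  refine ev_ne hf ?_
  simp only [S.X_zero]
  unfold CoreData.Z
  have h3 := S.m_ge a
  have h4 := S.m_ge b
  unfold CoreData.m at h3 h4
  rw [← S.E_core _ _ h] at h4
  have h5 := S.s_one _ (S.out_mem a)
  have z1 := abs_le.1 (S.ζ_le _ _ h)
  have z2 := abs_le.1 (S.ζ_le _ _ h1)
  have z3 := abs_le.1 (S.ζ_le _ _ h2)
  rw [S.E_core _ _ h1]
  set s0 := S.s (S.out a)
  set s1 := S.s (S.inn a)
  set s2 := S.s (S.inn b)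
  have e1 : (s0 - s1) * (s2 ^ 3 + S.ζ b v - (s1 ^ 3 + S.ζ a b)) -
      (s0 ^ 3 + S.ζ u a - (s1 ^ 3 + S.ζ a b)) * (s2 - s1) =
      -((s1 - s0) * (s2 - s1) * (s2 - s0) * (s0 + s1 + s2)) -
        (s1 - s0) * (S.ζ b v - S.ζ a b) - (S.ζ u a - S.ζ a b) * (s2 - s1) := by ring
  rw [e1]
  have e2 : (s1 - s0) * (s2 - s1) * (s2 - s0) * 1 ≤
      (s1 - s0) * (s2 - s1) * (s2 - s0) * (s0 + s1 + s2) := by
    apply mul_le_mul_of_nonneg_left (by linarith)
    have : 0 ≤ s1 - s0 := by linarith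
    have : 0 ≤ s2 - s1 := by linarith
    have : 0 ≤ s2 - s0 := by linarith
    positivity
  have e3 : 16 ≤ (s1 - s0) * (s2 - s1) := by nlinarith
  have e4 : 16 * (s2 - s0) ≤ (s1 - s0) * (s2 - s1) * (s2 - s0) := by
    apply mul_le_mul_of_nonneg_right e3 (by linarith)
  have e5 : -4 * (s1 - s0) ≤ (s1 - s0) * (S.ζ b v - S.ζ a b) := by nlinarith
  have e6 : -4 * (s2 - s1) ≤ (S.ζ u a - S.ζ a b) * (s2 - s1) := by nlinarith
  have : -((s1 - s0) * (s2 - s1) * (s2 - s0) * (s0 + s1 + s2)) -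
        (s1 - s0) * (S.ζ b v - S.ζ a b) - (S.ζ u a - S.ζ a b) * (s2 - s1) < 0 := by
    nlinarith
  exact this.ne

theorem noncol_E {w w' u u' : W} (h : S.E w w') (h1 : S.graph.Adj w u) (hu : u ≠ w')
    (h2 : S.graph.Adj w' u') (hu' : u' ≠ w) :
    ∀ᶠ δ in 𝓝[>] (0 : ℝ), (S.xx δ w u - S.xx δ w w') * (S.zz w' u' - S.zz w w') -
      (S.zz w u - S.zz w w') * (S.xx δ w' u' - S.xx δ w w') ≠ 0 := by
  simp only [S.xx_pos h, S.zz_pos h]
  rcases S.adj_iff.1 h1 with h1 | h1
  · simp only [S.xx_pos h1, S.zz_pos h1]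
    rcases S.adj_iff.1 h2 with h2 | h2
    · simp only [S.xx_pos h2, S.zz_pos h2]
      exact S.noncol2 h h1 hu h2
    · simp only [S.xx_neg h2, S.zz_neg h2]
      exact S.noncol1 h h1 hu h2 hu'
  · simp only [S.xx_neg h1, S.zz_neg h1]
    rcases S.adj_iff.1 h2 with h2 | h2
    · simp only [S.xx_pos h2, S.zz_pos h2]
      exact S.noncol4 h h1 h2
    · simp only [S.xx_neg h2, S.zz_neg h2]
      exact S.noncol3 h h1 h2 hu'

theorem xx_comm {δ : ℝ} {w u : W} (h : S.graph.Adj w u) : S.xx δ w u = S.xx δ u w := by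
  rcases S.adj_iff.1 h with h | h
  · rw [S.xx_pos h, S.xx_neg h]
  · rw [S.xx_neg h, S.xx_pos h]

theorem zz_comm {w u : W} (h : S.graph.Adj w u) : S.zz w u = S.zz u w := by
  rcases S.adj_iff.1 h with h | h
  · rw [S.zz_pos h, S.zz_neg h]
  · rw [S.zz_neg h, S.zz_pos h]

theorem noncol_all {w w' u u' : W} (h : S.graph.Adj w w') (h1 : S.graph.Adj w u) (hu : u ≠ w')
    (h2 : S.graph.Adj w' u') (hu' : u' ≠ w) :
    ∀ᶠ δ in 𝓝[>] (0 : ℝ), (S.xx δ w u - S.xx δ w w') * (S.zz w' u' - S.zz w w') -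
      (S.zz w u - S.zz w w') * (S.xx δ w' u' - S.xx δ w w') ≠ 0 := by
  rcases S.adj_iff.1 h with hE | hE
  · exact S.noncol_E hE h1 hu h2 hu'
  · filter_upwards [S.noncol_E hE h2 hu' h1 hu] with δ h3
    intro h4
    apply h3
    rw [S.xx_comm h, S.zz_comm h] at h4
    linarith

/-- Every core system on a finite set of walls is realized by a contact system. -/
theorem exists_contactSystem [Finite W] : Nonempty (ContactSystem W S.graph) := by
  have g1 : ∀ᶠ δ in 𝓝[>] (0 : ℝ), ∀ w w' : W, S.graph.Adj w w' →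
      S.Y δ w (S.xx δ w w') (S.zz w w') = S.Y δ w' (S.xx δ w w') (S.zz w w') := by
    rw [eventually_all]; intro w
    rw [eventually_all]; intro w'
    refine ev_of_imp fun h => ?_
    rcases S.adj_iff.1 h with hE | hE
    · simp only [S.xx_pos hE, S.zz_pos hE]
      filter_upwards [S.touch_ev _ _ (S.E_core _ _ hE)] with δ h1
      exact h1.symm
    · simp only [S.xx_neg hE, S.zz_neg hE]
      exact S.touch_ev _ _ (S.E_core _ _ hE)
  have g2 : ∀ᶠ δ in 𝓝[>] (0 : ℝ), ∀ w w' u : W, (S.graph.Adj w w' ∧ S.graph.Adj w u ∧ u ≠ w') →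
      S.Y δ w' (S.xx δ w u) (S.zz w u) < S.Y δ w (S.xx δ w u) (S.zz w u) := by
    rw [eventually_all]; intro w
    rw [eventually_all]; intro w'
    rw [eventually_all]; intro u
    refine ev_of_imp fun h => ?_
    exact S.above_of_adj h.1 u h.2.1 h.2.2
  have g3 : ∀ᶠ δ in 𝓝[>] (0 : ℝ), ∀ w w' : W, (w ≠ w' ∧ ¬ S.graph.Adj w w') →
      S.Sep δ w w' := by
    rw [eventually_all]; intro w
    rw [eventually_all]; intro w'
    refine ev_of_imp fun h => ?_
    exact S.sep_all h.1 h.2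
  have g4 : ∀ᶠ δ in 𝓝[>] (0 : ℝ), ∀ w w' u u' : W,
      (S.graph.Adj w w' ∧ S.graph.Adj w u ∧ u ≠ w' ∧ S.graph.Adj w' u' ∧ u' ≠ w) →
      (S.xx δ w u - S.xx δ w w') * (S.zz w' u' - S.zz w w') -
      (S.zz w u - S.zz w w') * (S.xx δ w' u' - S.xx δ w w') ≠ 0 := by
    rw [eventually_all]; intro w
    rw [eventually_all]; intro w'
    rw [eventually_all]; intro u
    rw [eventually_all]; intro u'
    refine ev_of_imp fun h => ?_
    exact S.noncol_all h.1 h.2.1 h.2.2.1 h.2.2.2.1 h.2.2.2.2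
  obtain ⟨δ, ⟨⟨h1, h2⟩, h3⟩, h4⟩ := (((g1.and g2).and g3).and g4).exists
  exact ⟨{
    A := S.A δ
    B := S.B δ
    C := S.C δ
    x := S.xx δ
    z := S.zz
    x_comm := fun w w' h => S.xx_comm h
    z_comm := fun w w' h => S.zz_comm h
    touch := fun w w' h => h1 w w' h
    above := fun w w' u h h' hne => h2 w w' u ⟨h, h', hne⟩
    sep := fun w w' hne h => h3 w w' ⟨hne, h⟩
    noncol := fun w w' u u' a1 a2 a3 a4 a5 => h4 w w' u u' ⟨a1, a2, a3, a4, a5⟩ }⟩

end CoreSystem

end Pool.Agent.Lib.MP_93b2dd_co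
end

section

/-!
# The explicit system of walls needs many colours
-/

namespace Pool.Agent.Lib.MP_93b2dd_co

/-- dependent choice of the values of a sequence -/
theorem exists_seq (Pr : ℕ → (ℕ → ℕ) → ℕ → Prop) (h : ∀ q ν, ∃ r, Pr q ν r) :
    ∃ μ : ℕ → ℕ, ∀ q, Pr q (tr μ q) (μ q) := by
  classical
  choose f hf using h
  let F : ℕ → (ℕ → ℕ) := fun n => Nat.rec (fun _ => 0)
    (fun q F => Function.update F q (f q F)) n
  have hF0 : F 0 = fun _ => 0 := rfl
  have hFs : ∀ q, F (q + 1) = Function.update (F q) q (f q (F q)) := fun q => rfl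
  let μ : ℕ → ℕ := fun q => F (q + 1) q
  have hμ : ∀ q, μ q = f q (F q) := by
    intro q
    change F (q + 1) q = _
    rw [hFs, Function.update_self]
  have hF : ∀ q, F q = tr μ q := by
    intro q
    induction q with
    | zero =>
      rw [hF0]
      funext x
      rw [tr_of_le (Nat.zero_le x)]
    | succ q ih =>
      rw [hFs, ih]
      funext x
      by_cases hx : x = q
      · subst hx
        rw [Function.update_self, tr_of_lt (Nat.lt_succ_self x), hμ, ih]
      · rw [Function.update_of_ne hx]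
        unfold tr
        by_cases h1 : x < q
        · rw [if_pos h1, if_pos (by omega)]
        · rw [if_neg h1, if_neg (by omega)]
  refine ⟨μ, fun q => ?_⟩
  rw [hμ, hF]
  exact hf q (tr μ q)

/-- the shift graph on `m + 1 > 2 ^ C` points is not `C`-colourable -/
theorem shift_not_colorable (C m : ℕ) (hm : 2 ^ C < m + 1) (f : ℕ → ℕ → Fin C)
    (hf : ∀ h i j, h < i → i < j → j ≤ m → f i h ≠ f j i) : False := by
  classical
  let A : Fin (m + 1) → Finset (Fin C) := fun i =>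
    ((Finset.range (m + 1)).filter (fun j => (i : ℕ) < j)).image (fun j => f j i)
  have hA : Function.Injective A := by
    have key : ∀ h i : Fin (m + 1), h < i → A h ≠ A i := by
      intro h i hlt heq
      have h1 : f i h ∈ A h := by
        refine Finset.mem_image.2 ⟨i, ?_, rfl⟩
        rw [Finset.mem_filter, Finset.mem_range]
        exact ⟨i.2, hlt⟩
      rw [heq] at h1
      obtain ⟨j, h2, h3⟩ := Finset.mem_image.1 h1
      rw [Finset.mem_filter, Finset.mem_range] at h2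
      exact hf h i j hlt h2.2 (Nat.lt_succ_iff.1 h2.1) h3.symm
    intro h i heq
    by_contra hne
    rcases lt_or_gt_of_ne hne with h1 | h1
    · exact key h i h1 heq
    · exact key i h h1 heq.symm
  have h1 := Fintype.card_le_of_injective A hA
  simp only [Fintype.card_fin, Fintype.card_finset] at h1
  omega

namespace Par

variable (P : Par)

theorem not_colorable (C : ℕ) (hC : 0 < C) (hbd : ∀ q, 0 < P.bd q)
    (hcol : ∀ q, ∀ col : ℕ → Fin C, ∃ r, r ≤ P.R q ∧ ∃ c, ∀ k < P.bd q, col (P.Ψ q r k) = c)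
    (hm : 2 ^ C < P.m + 1) : ¬ (SimpleGraph.fromRel P.E).Colorable C := by
  classical
  rintro ⟨col⟩
  have : NeZero C := ⟨hC.ne'⟩
  let colW : ℕ → ℕ → ℕ → (ℕ → ℕ) → Fin C := fun i h s ν =>
    if hv : P.Valid ⟨i, h, s, ν⟩ then col ⟨_, hv⟩ else 0
  let Pr : ℕ → (ℕ → ℕ) → ℕ → Prop := fun q ν r =>
    r ≤ P.R q ∧ ((∃ j, q = pp j) → r = 0) ∧
      ∀ i h, h < i → q = pos i h → ∃ c, ∀ k < P.bd q, colW i h (P.Ψ q r k) ν = c
  have hPr : ∀ q ν, ∃ r, Pr q ν r := by
    intro q ν
    by_cases hq : ∃ i h, h < i ∧ q = pos i h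
    · obtain ⟨i, h, hlt, hq⟩ := hq
      obtain ⟨r, hr, c, hc⟩ := hcol q (fun s => colW i h s ν)
      refine ⟨r, hr, ?_, ?_⟩
      · rintro ⟨j, hj⟩
        exfalso
        have h1 : pos i h = pos j j := by
          rw [← hq, hj]
          unfold pos
          omega
        have := pos_inj hlt.le le_rfl h1
        omega
      · intro i' h' hlt' hq'
        have := pos_inj hlt.le hlt'.le (hq.symm.trans hq')
        obtain ⟨rfl, rfl⟩ := this
        exact ⟨c, hc⟩
    · refine ⟨0, Nat.zero_le _, fun _ => rfl, ?_⟩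
      intro i h hlt hq'
      exact absurd ⟨i, h, hlt, hq'⟩ hq
  obtain ⟨μ, hμ⟩ := exists_seq Pr hPr
  have hμR : ∀ q, μ q ≤ P.R q := fun q => (hμ q).1
  have hμc : ∀ j, μ (pp j) = 0 := fun j => (hμ (pp j)).2.1 ⟨j, rfl⟩
  have hμcol : ∀ i h, h < i → ∃ c, ∀ k < P.bd (pos i h),
      colW i h (P.Ψ (pos i h) (μ (pos i h)) k) (tr μ (pos i h)) = c :=
    fun i h hlt => (hμ (pos i h)).2.2 i h hlt rfl
  have hval : ∀ i h k, h < i → i ≤ P.m → k < P.bd (pos i h) →
      P.Valid ⟨i, h, P.Ψ (pos i h) (μ (pos i h)) k, tr μ (pos i h)⟩ := by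
    intro i h k hlt him hk
    refine ⟨hlt, him, P.Ψ_lt _ _ _ hk, ?_, ?_, ?_⟩
    · intro x hx
      change x < pos i h at hx
      change tr μ (pos i h) x ≤ P.R x
      rw [tr_of_lt hx]
      exact hμR x
    · intro x hx
      exact tr_of_le hx
    · intro j
      change tr μ (pos i h) (pp j) = 0
      unfold tr
      split_ifs
      · exact hμc j
      · rfl
  have hcolW : ∀ i h k (hv : P.Valid ⟨i, h, P.Ψ (pos i h) (μ (pos i h)) k, tr μ (pos i h)⟩),
      colW i h (P.Ψ (pos i h) (μ (pos i h)) k) (tr μ (pos i h)) = col ⟨_, hv⟩ := by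
    intro i h k hv
    exact dif_pos hv
  let f : ℕ → ℕ → Fin C := fun i h =>
    if hlt : h < i then (hμcol i h hlt).choose else 0
  have hf : ∀ i h, h < i → ∀ k < P.bd (pos i h),
      colW i h (P.Ψ (pos i h) (μ (pos i h)) k) (tr μ (pos i h)) = f i h := by
    intro i h hlt k hk
    have h1 : f i h = (hμcol i h hlt).choose := dif_pos hlt
    rw [h1]
    exact (hμcol i h hlt).choose_spec k hk
  refine shift_not_colorable C P.m hm f ?_
  intro h i j hhi hij hjm heq
  have him : i ≤ P.m := le_trans hij.le hjm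
  have hvb := hval j i 0 hij hjm (hbd _)
  let b : P.W := ⟨_, hvb⟩
  have hq' : pos i h < pp (P.m + 1) := pos_lt' h (Nat.lt_succ_of_le him)
  have hrank : P.rank (pos i h) b < P.bd (pos i h) := by
    refine P.rank_lt _ b ?_ hq'
    intro i' hi'
    exact lt_of_lt_of_le (pos_lt' h hi') (pp_le_pos _ _)
  have hva := hval i h _ hhi him hrank
  let a : P.W := ⟨_, hva⟩
  have hposlt : pos i h < pos j i := lt_of_lt_of_le (pos_lt' h hij) (pp_le_pos _ _)
  have hE : P.E a b := by
    refine ⟨rfl, ?_, ?_⟩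
    · change tr μ (pos i h) = tr (tr μ (pos j i)) (pos i h)
      rw [tr_tr hposlt.le]
    · change P.Ψ (pos i h) (μ (pos i h)) (P.rank (pos i h) b) =
        P.Ψ (pos i h) (tr μ (pos j i) (pos i h)) (P.rank (pos i h) b)
      rw [tr_of_lt hposlt]
  have hne : a ≠ b := by
    intro h1
    have : a.1.i = b.1.i := by rw [h1]
    change i = j at this
    omega
  have hadj : (SimpleGraph.fromRel P.E).Adj a b := by
    rw [SimpleGraph.fromRel_adj]
    exact ⟨hne, Or.inl hE⟩
  apply col.valid hadj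
  have e1 := hf i h hhi _ hrank
  have e2 := hf j i hij 0 (hbd _)
  rw [hcolW i h _ hva] at e1
  rw [hcolW j i 0 hvb] at e2
  change col a = _ at e1
  change col b = _ at e2
  rw [e1, e2, heq]

end Par

end Pool.Agent.Lib.MP_93b2dd_co
end
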