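import Mathlib
import Pool.Agent.Lib.MP_93b2dd_co.Labels
import Pool.Agent.Lib.MP_93b2dd_co.Coloring

section

/-!
# The explicit system of walls: geometry and limits
-/

namespace Pool.Agent.Lib.MP_93b2dd_co

open Filter Topology

namespace Par

variable (P : Par)

/-- place of a core on the moment curve -/
noncomputable def sk (L : ℝ) (k : ℕ × (ℕ → ℕ)) : ℝ := Real.exp (L * (3 - P.tau k))

noncomputable def lam (x : ℕ) : ℝ := P.g x / 8

/-- the core of depth `h` on the path `μ` -/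
def anc (μ : ℕ → ℕ) (h : ℕ) : ℕ × (ℕ → ℕ) := (h, tr μ (pp h))

/-- abscissa of the crossing of the lines of the levels `h` and `h - 1` -/
noncomputable def XX (μ : ℕ → ℕ) (i h : ℕ) : ℝ :=
  P.v μ (pos i h + 1) ^ 2 - P.v μ (pos i h + 1) * P.lam (pos i h)

noncomputable def e0 : ℝ := P.g P.Q ^ 2 / 100

noncomputable def f0 : ℝ := P.g P.Q / (1000 * P.M)

/-- intercepts of the lines -/
noncomputable def cc (L : ℝ) (w : P.W) : ℝ :=
  -(∑ h ∈ Finset.Ioo w.1.h w.1.i, (P.sk L (anc w.1.μ h) - P.sk L (anc w.1.μ (h - 1))) *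
    P.XX w.1.μ w.1.i h) - P.f0 * w.1.s

/-- the numerical data -/
noncomputable def data (L : ℝ) : CoreData P.W where
  K := ℕ × (ℕ → ℕ)
  inn := P.inn
  out := P.out
  E := P.E
  s := P.sk L
  T := fun k => P.sk L k * P.tau k
  c := P.cc L
  o := fun b => P.t b ^ 2 + P.e0 * P.kap b
  ζ := fun a b => P.t b - P.lam a.1.q

theorem sk_pos (L : ℝ) (k : ℕ × (ℕ → ℕ)) : 0 < P.sk L k := Real.exp_pos _

theorem tendsto_ratio {k k' : ℕ × (ℕ → ℕ)} (h : P.tau k' < P.tau k) :
    Tendsto (fun L => P.sk L k / P.sk L k') atTop (𝓝 0) := by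
  have h1 : (fun L => P.sk L k / P.sk L k') = fun L => Real.exp (-(L * (P.tau k - P.tau k'))) := by
    funext L
    unfold sk
    rw [← Real.exp_sub]
    congr 1
    ring
  rw [h1]
  refine Real.tendsto_exp_atBot.comp ?_
  refine tendsto_neg_atTop_atBot.comp ?_
  exact tendsto_id.atTop_mul_const (by linarith)

theorem tau_anc_gt (b : P.W) {h : ℕ} (hb : h < b.1.i) : P.t b < P.tau (anc b.1.μ h) := by
  have h1 := P.tau_desc (k := anc b.1.μ h) (P.inn_ok b) hb (by
    intro x hx
    change x < pp h at hx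
    change tr b.1.μ (pp h) x = tr b.1.μ (pp b.1.i) x
    rw [tr_of_lt hx, tr_of_lt (lt_trans hx (pp_strictMono hb))])
  have h2 := P.g_pos (pp h)
  have h3 : P.t b = P.tau (P.inn b) := rfl
  change P.tau (P.inn b) + 499 / 500 * P.g (pp h) ≤ P.tau (anc b.1.μ h) at h1
  linarith

theorem out_eq_anc (b : P.W) : P.out b = anc b.1.μ b.1.h := rfl
theorem inn_eq_anc (b : P.W) : P.inn b = anc b.1.μ b.1.i := rfl

theorem tau_out_gt (b : P.W) : P.t b < P.tau (P.out b) := P.tau_anc_gt b b.2.hi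

/-- agreement of an in-wall and an out-wall at a common core -/
theorem core_agree {a b : P.W} (h : P.inn a = P.out b) :
    a.1.i = b.1.h ∧ ∀ x < pp a.1.i, a.1.μ x = b.1.μ x := by
  have h1 : a.1.i = b.1.h := congrArg Prod.fst h
  have h2 : tr a.1.μ (pp a.1.i) = tr b.1.μ (pp b.1.h) := congrArg Prod.snd h
  refine ⟨h1, ?_⟩
  rw [← h1] at h2
  exact tr_eq_iff.1 h2

theorem anc_congr {μ μ' : ℕ → ℕ} {i h : ℕ} (h1 : ∀ x < pp i, μ x = μ' x) (h2 : h ≤ i) :
    anc μ h = anc μ' h := by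
  unfold anc
  congr 1
  rw [tr_eq_iff]
  exact fun x hx => h1 x (lt_of_lt_of_le hx (pp_mono h2))

theorem tau_anc_gt' {a b : P.W} (h : P.inn a = P.out b) {j : ℕ} (hj : j ≤ a.1.i) :
    P.t b < P.tau (anc a.1.μ j) := by
  obtain ⟨h1, h2⟩ := P.core_agree h
  rw [anc_congr h2 hj]
  refine P.tau_anc_gt b ?_
  rw [h1] at hj
  exact lt_of_le_of_lt hj b.2.hi

theorem lim_anc {a b : P.W} (h : P.inn a = P.out b) {j : ℕ} (hj : j ≤ a.1.i) :
    Tendsto (fun L => P.sk L (anc a.1.μ j) / P.sk L (P.inn b)) atTop (𝓝 0) :=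
  P.tendsto_ratio (P.tau_anc_gt' h hj)

theorem lim_mb (b : P.W) :
    Tendsto (fun L => (P.data L).m b / P.sk L (P.inn b)) atTop (𝓝 1) := by
  have h1 := P.tendsto_ratio (P.tau_out_gt b)
  have h2 : (fun L => (P.data L).m b / P.sk L (P.inn b)) =
      fun L => 1 - P.sk L (P.out b) / P.sk L (P.inn b) := by
    funext L
    have := (P.sk_pos L (P.inn b)).ne'
    change (P.sk L (P.inn b) - P.sk L (P.out b)) / P.sk L (P.inn b) = _
    rw [sub_div, div_self this]
  rw [h2]
  simpa using (tendsto_const_nhds (x := (1 : ℝ))).sub h1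

theorem lim_ma {a b : P.W} (h : P.inn a = P.out b) :
    Tendsto (fun L => (P.data L).m a / P.sk L (P.inn b)) atTop (𝓝 0) := by
  have h1 := P.lim_anc h (le_refl a.1.i)
  have h2 := P.lim_anc h a.2.hi.le
  have h3 : (fun L => (P.data L).m a / P.sk L (P.inn b)) =
      fun L => P.sk L (anc a.1.μ a.1.i) / P.sk L (P.inn b) -
        P.sk L (anc a.1.μ a.1.h) / P.sk L (P.inn b) := by
    funext L
    change (P.sk L (P.inn a) - P.sk L (P.out a)) / P.sk L (P.inn b) = _
    rw [sub_div]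
    rfl
  rw [h3]
  simpa using h1.sub h2

theorem lim_const {b : P.W} (x : ℝ) :
    Tendsto (fun L => x / P.sk L (P.inn b)) atTop (𝓝 0) := by
  refine tendsto_const_nhds.div_atTop ?_
  unfold sk
  refine Real.tendsto_exp_atTop.comp ?_
  refine tendsto_id.atTop_mul_const ?_
  have h1 := (P.tau_bounds (P.inn_ok b)).2
  linarith

theorem lim_ca {a b : P.W} (h : P.inn a = P.out b) :
    Tendsto (fun L => P.cc L a / P.sk L (P.inn b)) atTop (𝓝 0) := by
  have h1 : (fun L => P.cc L a / P.sk L (P.inn b)) =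
      fun L => -(∑ j ∈ Finset.Ioo a.1.h a.1.i, (P.sk L (anc a.1.μ j) / P.sk L (P.inn b) -
        P.sk L (anc a.1.μ (j - 1)) / P.sk L (P.inn b)) * P.XX a.1.μ a.1.i j) -
        P.f0 * a.1.s / P.sk L (P.inn b) := by
    funext L
    unfold cc
    rw [sub_div, neg_div, Finset.sum_div]
    congr 2
    refine Finset.sum_congr rfl fun j _ => ?_
    ring
  rw [h1]
  have h2 : Tendsto (fun L => ∑ j ∈ Finset.Ioo a.1.h a.1.i,
      (P.sk L (anc a.1.μ j) / P.sk L (P.inn b) -
        P.sk L (anc a.1.μ (j - 1)) / P.sk L (P.inn b)) * P.XX a.1.μ a.1.i j) atTop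
      (𝓝 (∑ j ∈ Finset.Ioo a.1.h a.1.i, (0 - 0) * P.XX a.1.μ a.1.i j)) := by
    refine tendsto_finsetSum _ fun j hj => ?_
    rw [Finset.mem_Ioo] at hj
    exact ((P.lim_anc h hj.2.le).sub (P.lim_anc h (by omega))).mul_const _
  have h3 := (h2.neg).sub (P.lim_const (b := b) (P.f0 * a.1.s))
  simpa using h3

theorem lim_T (b : P.W) :
    Tendsto (fun L => ((P.data L).T (P.inn b) - (P.data L).T (P.out b)) / P.sk L (P.inn b)) atTop
      (𝓝 (P.t b)) := by
  have h1 := P.tendsto_ratio (P.tau_out_gt b)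
  have h2 : (fun L => ((P.data L).T (P.inn b) - (P.data L).T (P.out b)) / P.sk L (P.inn b)) =
      fun L => P.t b - P.sk L (P.out b) / P.sk L (P.inn b) * P.tau (P.out b) := by
    funext L
    have := (P.sk_pos L (P.inn b)).ne'
    change (P.sk L (P.inn b) * P.tau (P.inn b) - P.sk L (P.out b) * P.tau (P.out b)) /
      P.sk L (P.inn b) = _
    rw [sub_div]
    have h3 : P.sk L (P.inn b) * P.tau (P.inn b) / P.sk L (P.inn b) = P.t b := by
      rw [mul_div_assoc, mul_comm, div_mul_cancel₀ _ this]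
      rfl
    rw [h3]
    ring
  rw [h2]
  simpa using (tendsto_const_nhds (x := P.t b)).sub (h1.mul_const (P.tau (P.out b)))

/-- limit of the local position of a contact -/
theorem lim_u {a b : P.W} (h : P.inn a = P.out b) :
    Tendsto (fun L => (P.data L).u a b) atTop
      (𝓝 (2 * P.t b * (P.t b - P.lam a.1.q) - (P.t b ^ 2 + P.e0 * P.kap b))) := by
  have h1 := P.lim_mb b
  have h2 := P.lim_ma h
  have h3 := P.lim_ca h
  have h4 := P.lim_T b
  have h5 : (fun L => (P.data L).u a b) = fun L =>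
      (-((P.data L).m b / P.sk L (P.inn b)) * (P.t b ^ 2 + P.e0 * P.kap b) +
        2 * (((P.data L).T (P.inn b) - (P.data L).T (P.out b)) / P.sk L (P.inn b)) *
          (P.t b - P.lam a.1.q) - P.cc L a / P.sk L (P.inn b)) /
        ((P.data L).m b / P.sk L (P.inn b) + (P.data L).m a / P.sk L (P.inn b)) := by
    funext L
    have h6 := (P.sk_pos L (P.inn b)).ne'
    have h7 : (-((P.data L).m b / P.sk L (P.inn b)) * (P.t b ^ 2 + P.e0 * P.kap b) +
        2 * (((P.data L).T (P.inn b) - (P.data L).T (P.out b)) / P.sk L (P.inn b)) *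
          (P.t b - P.lam a.1.q) - P.cc L a / P.sk L (P.inn b)) =
        (-(P.data L).m b * (P.t b ^ 2 + P.e0 * P.kap b) +
        2 * ((P.data L).T (P.inn b) - (P.data L).T (P.out b)) *
          (P.t b - P.lam a.1.q) - P.cc L a) / P.sk L (P.inn b) := by
      ring
    rw [h7, ← add_div, div_div_div_cancel_right₀ h6]
    rfl
  rw [h5]
  have h8 := (((h1.neg.mul_const (P.t b ^ 2 + P.e0 * P.kap b)).add
    ((h4.const_mul 2).mul_const (P.t b - P.lam a.1.q))).sub h3).div (h1.add h2) (by norm_num)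
  have h9 : 2 * P.t b * (P.t b - P.lam a.1.q) - (P.t b ^ 2 + P.e0 * P.kap b) =
      (-1 * (P.t b ^ 2 + P.e0 * P.kap b) + 2 * P.t b * (P.t b - P.lam a.1.q) - 0) / (1 + 0) := by
    ring
  rw [h9]
  exact h8

/-- eventually an in-wall is above an out-wall at a contact point -/
theorem ev_above {a b1 b2 : P.W} (h1 : P.inn a = P.out b1) (h2 : P.inn a = P.out b2)
    (hD : 0 < (2 * P.t b1 * (P.t b1 - P.lam a.1.q) - (P.t b1 ^ 2 + P.e0 * P.kap b1)) -
      (2 * P.t b2 * (P.t b1 - P.lam a.1.q) - (P.t b2 ^ 2 + P.e0 * P.kap b2))) :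
    ∀ᶠ L in atTop, (P.data L).Out b2 ((P.data L).u a b1) ((P.data L).ζ a b1) <
      (P.data L).In a ((P.data L).u a b1) := by
  have g1 := P.lim_u h1
  have g2 := P.lim_mb b2
  have g3 := P.lim_ma h2
  have g4 := P.lim_ca h2
  have g5 := P.lim_T b2
  have key : Tendsto (fun L => ((P.data L).m a / P.sk L (P.inn b2)) * (P.data L).u a b1 +
      P.cc L a / P.sk L (P.inn b2) + ((P.data L).m b2 / P.sk L (P.inn b2)) *
        ((P.data L).u a b1 + (P.t b2 ^ 2 + P.e0 * P.kap b2)) -
        2 * (((P.data L).T (P.inn b2) - (P.data L).T (P.out b2)) / P.sk L (P.inn b2)) *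
          (P.t b1 - P.lam a.1.q)) atTop
      (𝓝 (0 * (2 * P.t b1 * (P.t b1 - P.lam a.1.q) - (P.t b1 ^ 2 + P.e0 * P.kap b1)) + 0 +
        1 * ((2 * P.t b1 * (P.t b1 - P.lam a.1.q) - (P.t b1 ^ 2 + P.e0 * P.kap b1)) +
          (P.t b2 ^ 2 + P.e0 * P.kap b2)) - 2 * P.t b2 * (P.t b1 - P.lam a.1.q))) :=
    (((g3.mul g1).add g4).add (g2.mul (g1.add tendsto_const_nhds))).sub
      ((g5.const_mul 2).mul_const _)
  have h3 := key.eventually (lt_mem_nhds (show (0 : ℝ) < _ by linarith))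
  filter_upwards [h3] with L h4
  have h5 := P.sk_pos L (P.inn b2)
  have h6 : (P.data L).In a ((P.data L).u a b1) -
      (P.data L).Out b2 ((P.data L).u a b1) ((P.data L).ζ a b1) =
      (((P.data L).m a / P.sk L (P.inn b2)) * (P.data L).u a b1 +
      P.cc L a / P.sk L (P.inn b2) + ((P.data L).m b2 / P.sk L (P.inn b2)) *
        ((P.data L).u a b1 + (P.t b2 ^ 2 + P.e0 * P.kap b2)) -
        2 * (((P.data L).T (P.inn b2) - (P.data L).T (P.out b2)) / P.sk L (P.inn b2)) *
          (P.t b1 - P.lam a.1.q)) * P.sk L (P.inn b2) := by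
    have h7 := h5.ne'
    change ((P.data L).m a * (P.data L).u a b1 + P.cc L a) -
      (-(P.data L).m b2 * (P.data L).u a b1 - (P.data L).m b2 * (P.t b2 ^ 2 + P.e0 * P.kap b2) +
        2 * ((P.data L).T (P.inn b2) - (P.data L).T (P.out b2)) * (P.t b1 - P.lam a.1.q)) = _
    field_simp
    ring
  have h8 := mul_pos h4 h5
  rw [← h6] at h8
  linarith

end Par

end Pool.Agent.Lib.MP_93b2dd_co
end

section

/-!
# The explicit system of walls is a core system
-/

namespace Pool.Agent.Lib.MP_93b2dd_co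

open Filter Topology

namespace Par

variable (P : Par)

theorem Q_lt_of_valid (w : P.W) : w.1.q < P.Q := w.2.q_lt

theorem pp_lt_Q {i : ℕ} (h : i ≤ P.m) : pp i < P.Q := pp_strictMono (Nat.lt_succ_of_le h)

theorem g_Q_pos : 0 < P.g P.Q := P.g_pos _

theorem g_le_one (x : ℕ) : P.g x ≤ 1 / 1000 := by
  have h1 := P.g_anti (Nat.zero_le x)
  have h2 := P.M_g_zero
  have h3 := P.M_one
  have h4 := P.g_pos 0
  nlinarith

theorem e0_pos : 0 < P.e0 := by
  have := P.g_Q_pos
  unfold e0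
  positivity

theorem e0_le : P.e0 ≤ P.g P.Q / 100 := by
  have h1 := P.g_Q_pos
  have h2 := P.g_le_one P.Q
  unfold e0
  nlinarith

theorem D_pos_of_diff {b1 b2 : P.W} {x : ℕ} (hx : x < P.Q)
    (h : P.t b1 + 499 / 500 * P.g x ≤ P.t b2 ∨ P.t b2 + 499 / 500 * P.g x ≤ P.t b1) :
    0 < (2 * P.t b1 * (P.t b1 - P.lam x) - (P.t b1 ^ 2 + P.e0 * P.kap b1)) -
      (2 * P.t b2 * (P.t b1 - P.lam x) - (P.t b2 ^ 2 + P.e0 * P.kap b2)) := by
  have h1 := P.kap_bounds b1
  have h2 := P.kap_bounds b2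
  have h3 := P.g_pos x
  have h4 := P.g_Q_le hx
  have h5 := P.g_Q_pos
  have h6 : P.e0 ≤ P.g x ^ 2 / 100 := by
    unfold e0
    have : P.g P.Q ≤ P.g x := by linarith
    have := pow_le_pow_left₀ h5.le this 2
    linarith
  have h7 := P.e0_pos
  have h8 : P.e0 * (P.kap b2 - P.kap b1) ≥ -(P.g x ^ 2 / 100) := by nlinarith
  have h9 : P.lam x = P.g x / 8 := rfl
  have key : (2 * P.t b1 * (P.t b1 - P.lam x) - (P.t b1 ^ 2 + P.e0 * P.kap b1)) -
      (2 * P.t b2 * (P.t b1 - P.lam x) - (P.t b2 ^ 2 + P.e0 * P.kap b2)) =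
      (P.t b1 - P.t b2) * (P.t b1 - P.t b2 - P.g x / 4) + P.e0 * (P.kap b2 - P.kap b1) := by
    rw [h9]
    ring
  rw [key]
  have h10 : 0 < P.g x ^ 2 := by positivity
  rcases h with h | h
  · nlinarith
  · nlinarith

theorem D_pos_of_lt {b1 b2 : P.W} {x : ℕ} (h : P.t b1 < P.t b2) :
    0 < (2 * P.t b1 * (P.t b1 - P.lam x) - (P.t b1 ^ 2 + P.e0 * P.kap b1)) -
      (2 * P.t b2 * (P.t b1 - P.lam x) - (P.t b2 ^ 2 + P.e0 * P.kap b2)) := by
  have h1 := P.kap_bounds b1
  have h2 := P.kap_bounds b2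
  have h3 := P.g_pos x
  have h5 := P.g_Q_pos
  have hne : P.inn b1 ≠ P.inn b2 := by
    intro h'
    unfold t at h
    rw [h'] at h
    exact lt_irrefl _ h
  have h4 : P.t b1 + P.g P.Q ≤ P.t b2 := by
    rcases P.tau_gap (P.inn_ok b1) (P.inn_ok b2) hne with h' | h'
    · exact h'
    · unfold t at h
      linarith
  have h7 := P.e0_pos
  have h6 : P.e0 = P.g P.Q ^ 2 / 100 := rfl
  have h8 : P.e0 * (P.kap b2 - P.kap b1) ≥ -(P.g P.Q ^ 2 / 100) := by nlinarith
  have h9 : P.lam x = P.g x / 8 := rfl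
  have key : (2 * P.t b1 * (P.t b1 - P.lam x) - (P.t b1 ^ 2 + P.e0 * P.kap b1)) -
      (2 * P.t b2 * (P.t b1 - P.lam x) - (P.t b2 ^ 2 + P.e0 * P.kap b2)) =
      (P.t b2 - P.t b1) ^ 2 + (P.t b2 - P.t b1) * (P.g x / 4) +
        P.e0 * (P.kap b2 - P.kap b1) := by
    rw [h9]
    ring
  rw [key]
  have h10 : P.g P.Q ^ 2 ≤ (P.t b2 - P.t b1) ^ 2 := by
    apply pow_le_pow_left₀ h5.le
    linarith
  have h11 : 0 < (P.t b2 - P.t b1) * (P.g x / 4) := mul_pos (by linarith) (by linarith)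
  have h12 : 0 < P.g P.Q ^ 2 := by positivity
  linarith

theorem D_pos_of_before {b1 b2 : P.W} {x : ℕ} (h : P.before b1 b2) :
    0 < (2 * P.t b1 * (P.t b1 - P.lam x) - (P.t b1 ^ 2 + P.e0 * P.kap b1)) -
      (2 * P.t b2 * (P.t b1 - P.lam x) - (P.t b2 ^ 2 + P.e0 * P.kap b2)) := by
  rcases h with h | ⟨h, h'⟩
  · exact P.D_pos_of_lt h
  · rw [h]
    have := mul_pos P.e0_pos (sub_pos.2 h')
    linarith

/-- two out-walls of the core `inn a`: `q a` is a digit position of both -/
theorem q_lt_pp {a b : P.W} (h : P.inn a = P.out b) : a.1.q < pp b.1.i := by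
  obtain ⟨h1, _⟩ := P.core_agree h
  refine pos_lt' _ ?_
  rw [h1]
  exact b.2.hi

theorem E_core {a b : P.W} (h : P.E a b) : P.inn a = P.out b := by
  obtain ⟨h1, h2, _⟩ := h
  unfold inn out
  rw [h1]
  congr 1
  rw [h2]
  exact tr_tr (pp_le_pos _ _)

theorem E_agree {a b : P.W} (h : P.E a b) : ∀ x < a.1.q, b.1.μ x = a.1.μ x := by
  intro x hx
  rw [h.2.1, tr_of_lt hx]

/-- two contacts of one in-wall are far apart -/
theorem E_diff {a b b' : P.W} (h : P.E a b) (h' : P.E a b') (hne : b' ≠ b) :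
    b'.1.μ a.1.q ≠ b.1.μ a.1.q := by
  intro heq
  have hc : b' ∈ P.cluster a.1.q b := by
    refine ⟨by rw [h.1, h'.1], ?_⟩
    intro x hx
    rcases hx.lt_or_eq with hx | hx
    · rw [P.E_agree h x hx, P.E_agree h' x hx]
    · rw [hx, heq]
  have hb : ∀ {c : P.W}, P.E a c → P.rank a.1.q c < P.bd a.1.q := by
    intro c hcE
    refine P.rank_lt _ c ?_ a.2.q_lt
    intro i hi
    rw [hcE.1] at hi
    exact lt_of_lt_of_le (pos_lt' _ hi) (pp_le_pos _ _)
  have h1 := h.2.2
  have h2 := h'.2.2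
  rw [heq] at h2
  have h3 : P.Ψ a.1.q (b.1.μ a.1.q) (P.rank a.1.q b) =
    P.Ψ a.1.q (b.1.μ a.1.q) (P.rank a.1.q b') := by rw [← h1, ← h2]
  rcases P.before_total hc.1 hne with h4 | h4
  · have h5 := P.rank_mono hc h4
    have h6 := P.Ψ_mono a.1.q (b.1.μ a.1.q) _ _ h5 (hb h)
    omega
  · have h5 := P.rank_mono (b' := b) (b := b') (q := a.1.q) (by
      rw [P.cluster_eq hc]
      exact ⟨rfl, fun _ _ => rfl⟩) h4
    have h6 := P.Ψ_mono a.1.q (b.1.μ a.1.q) _ _ h5 (hb h')
    omega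

theorem E_apart {a b b' : P.W} (h : P.E a b) (h' : P.E a b') (hne : b' ≠ b) :
    P.t b' + 499 / 500 * P.g a.1.q ≤ P.t b ∨ P.t b + 499 / 500 * P.g a.1.q ≤ P.t b' := by
  refine P.t_diff_abs (P.q_lt_pp (P.E_core h')) (P.q_lt_pp (P.E_core h)) ?_ (P.E_diff h h' hne)
  intro y hy
  rw [P.E_agree h y hy, P.E_agree h' y hy]

theorem E_left_unique {a a' b : P.W} (h : P.E a b) (h' : P.E a' b) (hh : a.1.h = a'.1.h) :
    a = a' := by
  apply Subtype.ext
  have h1 : a.1.i = a'.1.i := by rw [← h.1, h'.1]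
  have hq : a.1.q = a'.1.q := by unfold Wall.q; rw [h1, hh]
  refine Wall.ext h1 hh ?_ ?_
  · rw [h.2.2, h'.2.2, hq]
  · rw [h.2.1, h'.2.1, hq]

/-- the estimate of the crossing abscissae -/
theorem X_near (b : P.W) {i h h2 : ℕ} (hi : i < b.1.i) (hle : h ≤ h2) :
    P.t b ^ 2 - 2 * P.t b * P.lam (pos i h2) + P.g (pos i h) / 10 ≤ P.XX b.1.μ i h := by
  have h1 := P.t_near b (x := pos i h) (pos_lt' _ hi)
  have h3 := P.g_pos (pos i h)
  have h4 : P.lam (pos i h) ≤ P.lam (pos i h2) := by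
    unfold lam
    have := P.g_anti (pos_le_pos (i := i) hle)
    linarith
  have h5 : P.lam (pos i h) = P.g (pos i h) / 8 := rfl
  have h6 := P.t_bounds b
  have h7 := P.v_one_le b.1.μ (pos i h + 1)
  unfold XX
  set V := P.v b.1.μ (pos i h + 1)
  set g := P.g (pos i h)
  set l2 := P.lam (pos i h2)
  rw [h5]
  have h8 : V ^ 2 - V * (g / 8) - (P.t b ^ 2 - 2 * P.t b * l2) =
    -(P.t b - V) * (P.t b + V) + (2 * P.t b - V) * (g / 8) + 2 * P.t b * (l2 - g / 8) := by ring
  have h9 : (P.t b - V) * (P.t b + V) ≤ g / 500 * 3 := by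
    apply mul_le_mul <;> linarith
  have h10 : 1 * (g / 8) ≤ (2 * P.t b - V) * (g / 8) := by
    apply mul_le_mul_of_nonneg_right <;> linarith
  have h11 : 0 ≤ 2 * P.t b * (l2 - g / 8) := by
    rw [h5] at h4
    apply mul_nonneg <;> linarith
  linarith

theorem X_near' (b : P.W) {i h h2 : ℕ} (hi : i < b.1.i) (hhi : h ≤ i) (hlt : h2 < h) :
    P.XX b.1.μ i h + P.g (pos i h) / 10 ≤ P.t b ^ 2 - 2 * P.t b * P.lam (pos i h2) := by
  have h1 := P.t_near b (x := pos i h) (pos_lt' _ hi)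
  have h3 := P.g_pos (pos i h)
  have h4 : P.lam (pos i h2) ≤ P.g (pos i h) / 8000 := by
    unfold lam
    have := P.g_lt_le (pos_lt_pos hlt hhi)
    linarith
  have h5 : P.lam (pos i h) = P.g (pos i h) / 8 := rfl
  have h6 := P.t_bounds b
  have h7 := P.v_one_le b.1.μ (pos i h + 1)
  have h12 : 0 < P.lam (pos i h2) := by
    have := P.g_pos (pos i h2)
    unfold lam
    linarith
  unfold XX
  set V := P.v b.1.μ (pos i h + 1)
  set g := P.g (pos i h)
  set l2 := P.lam (pos i h2)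
  rw [h5]
  have h8 : (P.t b ^ 2 - 2 * P.t b * l2) - (V ^ 2 - V * (g / 8)) =
    (P.t b - V) * (P.t b + V) + V * (g / 8) - 2 * P.t b * l2 := by ring
  have h9 : 0 ≤ (P.t b - V) * (P.t b + V) := by
    apply mul_nonneg <;> linarith
  have h10 : 1 * (g / 8) ≤ V * (g / 8) := by
    apply mul_le_mul_of_nonneg_right <;> linarith
  have h11 : 2 * P.t b * l2 ≤ 3 * (g / 8000) := by
    apply mul_le_mul <;> linarith
  linarith

/-- telescoping -/
theorem tele (f : ℕ → ℝ) {p q : ℕ} (h : p ≤ q) :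
    ∑ j ∈ Finset.Ioc p q, (f j - f (j - 1)) = f q - f p := by
  induction q, h using Nat.le_induction with
  | base => simp
  | succ n hn ih =>
    rw [← Finset.sum_Ioc_consecutive _ hn (Nat.le_succ n), ih]
    simp

theorem sum_ge {f y : ℕ → ℝ} {p q : ℕ} (h : p < q) {c : ℝ} (hc : 0 < c)
    (hf : ∀ j, p < j → j ≤ q → 1 ≤ f j) (hy : ∀ j, p < j → j ≤ q → c ≤ y j) :
    c ≤ ∑ j ∈ Finset.Ioc p q, f j * y j := by
  have h1 : f q * y q ≤ ∑ j ∈ Finset.Ioc p q, f j * y j := by
    refine Finset.single_le_sum (f := fun j => f j * y j) ?_ (Finset.mem_Ioc.2 ⟨h, le_rfl⟩)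
    intro j hj
    rw [Finset.mem_Ioc] at hj
    have h2 := hf j hj.1 hj.2
    have h3 := hy j hj.1 hj.2
    exact mul_nonneg (by linarith) (by linarith)
  have h2 := hf q h le_rfl
  have h3 := hy q h le_rfl
  nlinarith

theorem cc_eq (L : ℝ) {a b : P.W} (h : P.inn a = P.out b) (hμ : a.1.μ = tr b.1.μ a.1.q) :
    P.cc L a = -(∑ j ∈ Finset.Ioc a.1.h (a.1.i - 1),
      (P.sk L (anc b.1.μ j) - P.sk L (anc b.1.μ (j - 1))) * P.XX b.1.μ a.1.i j) -
        P.f0 * a.1.s := by
  unfold cc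
  have h1 : Finset.Ioo a.1.h a.1.i = Finset.Ioc a.1.h (a.1.i - 1) := by
    ext j
    rw [Finset.mem_Ioo, Finset.mem_Ioc]
    omega
  rw [h1]
  congr 2
  refine Finset.sum_congr rfl fun j hj => ?_
  rw [Finset.mem_Ioc] at hj
  obtain ⟨h2, h3⟩ := P.core_agree h
  rw [anc_congr h3 (show j ≤ a.1.i by omega), anc_congr h3 (show j - 1 ≤ a.1.i by omega)]
  congr 1
  unfold XX
  have h4 : P.v a.1.μ (pos a.1.i j + 1) = P.v b.1.μ (pos a.1.i j + 1) := by
    refine P.v_congr fun x hx => ?_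
    rw [hμ, tr_of_lt]
    exact lt_of_lt_of_le hx (pos_lt_pos hj.1 (by omega))
  rw [h4]

/-- the tolerances are satisfied -/
structure Good (L : ℝ) : Prop where
  near : ∀ a b : P.W, P.inn a = P.out b →
    |(P.data L).u a b - (P.t b ^ 2 - 2 * P.t b * P.lam a.1.q)| < P.g P.Q
  big : ∀ (b : P.W) (j : ℕ), 0 < j → j < b.1.i →
    1 ≤ P.sk L (anc b.1.μ j) - P.sk L (anc b.1.μ (j - 1))

theorem f0_mul (a a' : P.W) : |P.f0 * a.1.s - P.f0 * a'.1.s| ≤ P.g P.Q / 1000 := by
  have h1 := P.s_le a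
  have h2 := P.s_le a'
  have h3 := P.M_pos'
  have h4 := P.g_Q_pos
  have h5 : P.f0 * P.M = P.g P.Q / 1000 := by
    unfold f0
    field_simp
  have h6 : 0 < P.f0 := by
    unfold f0
    positivity
  have h7 : (0 : ℝ) ≤ a.1.s := Nat.cast_nonneg _
  have h8 : (0 : ℝ) ≤ a'.1.s := Nat.cast_nonneg _
  rw [← mul_sub, abs_mul, abs_of_pos h6, ← h5]
  refine mul_le_mul_of_nonneg_left ?_ h6.le
  rw [abs_le]
  constructor <;> linarith

theorem f0_pos : 0 < P.f0 := by
  have h3 := P.M_pos'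
  have h4 := P.g_Q_pos
  unfold f0
  positivity

/-- the line of the touched wall is the highest one -/
theorem robust {L : ℝ} (hL : P.Good L) {a a' b : P.W} (ha : P.inn a = P.out b)
    (hμ : a.1.μ = tr b.1.μ a.1.q) (hE : P.E a' b) (hne : a.1.h ≠ a'.1.h) :
    (P.data L).In a ((P.data L).u a' b) < (P.data L).In a' ((P.data L).u a' b) := by
  have ha' := P.E_core hE
  have hμ' := hE.2.1
  have h1 := hL.near a' b ha'
  rw [abs_lt] at h1
  have hai : a.1.i = b.1.h := (P.core_agree ha).1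
  have hai' : a'.1.i = b.1.h := (P.core_agree ha').1
  have hinn : P.inn a = P.inn a' := by rw [ha, ha']
  have hbi : b.1.h < b.1.i := b.2.hi
  have ea := P.cc_eq L ha hμ
  have ea' := P.cc_eq L ha' hμ'
  have oa : P.out a = anc b.1.μ a.1.h := by
    rw [P.out_eq_anc]
    exact anc_congr (P.core_agree ha).2 a.2.hi.le
  have oa' : P.out a' = anc b.1.μ a'.1.h := by
    rw [P.out_eq_anc]
    exact anc_congr (P.core_agree ha').2 a'.2.hi.le
  have hf := abs_le.1 (P.f0_mul a a')
  have hgQ := P.g_Q_pos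
  have hha := a.2.hi
  have hha' := a'.2.hi
  have hq' : a'.1.q = pos b.1.h a'.1.h := by unfold Wall.q; rw [hai']
  rw [hq'] at h1
  set u := (P.data L).u a' b with hu
  change (P.sk L (P.inn a) - P.sk L (P.out a)) * u + P.cc L a <
    (P.sk L (P.inn a') - P.sk L (P.out a')) * u + P.cc L a'
  rw [ea, ea', oa, oa', hinn, hai, hai']
  rw [hai] at hha
  rw [hai'] at hha'
  rcases lt_or_gt_of_ne hne with hlt | hlt
  · -- `a` steeper
    have e1 := Finset.sum_Ioc_consecutive (fun j => (P.sk L (anc b.1.μ j) -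
      P.sk L (anc b.1.μ (j - 1))) * P.XX b.1.μ b.1.h j) hlt.le
      (show a'.1.h ≤ b.1.h - 1 by omega)
    have e2 := tele (fun j => P.sk L (anc b.1.μ j)) hlt.le
    have e3 : P.g P.Q ≤ ∑ j ∈ Finset.Ioc a.1.h a'.1.h,
        (P.sk L (anc b.1.μ j) - P.sk L (anc b.1.μ (j - 1))) * (P.XX b.1.μ b.1.h j - u) := by
      refine sum_ge hlt hgQ ?_ ?_
      · intro j hj1 hj2
        exact hL.big b j (by omega) (by omega)
      · intro j hj1 hj2
        have e4 := P.X_near b (i := b.1.h) (h := j) (h2 := a'.1.h) hbi hj2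
        have e5 := P.g_Q_le (x := pos b.1.h j) (lt_trans (pos_lt' _ hbi) (P.pp_lt_Q b.2.im))
        linarith [h1.2]
    have e6 : ∑ j ∈ Finset.Ioc a.1.h a'.1.h,
        (P.sk L (anc b.1.μ j) - P.sk L (anc b.1.μ (j - 1))) * (P.XX b.1.μ b.1.h j - u) =
        ∑ j ∈ Finset.Ioc a.1.h a'.1.h,
        (P.sk L (anc b.1.μ j) - P.sk L (anc b.1.μ (j - 1))) * P.XX b.1.μ b.1.h j -
        (P.sk L (anc b.1.μ a'.1.h) - P.sk L (anc b.1.μ a.1.h)) * u := by
      rw [← e2, Finset.sum_mul, ← Finset.sum_sub_distrib]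
      refine Finset.sum_congr rfl fun j _ => ?_
      ring
    rw [e6] at e3
    linarith
  · -- `a` flatter
    have e1 := Finset.sum_Ioc_consecutive (fun j => (P.sk L (anc b.1.μ j) -
      P.sk L (anc b.1.μ (j - 1))) * P.XX b.1.μ b.1.h j) hlt.le
      (show a.1.h ≤ b.1.h - 1 by omega)
    have e2 := tele (fun j => P.sk L (anc b.1.μ j)) hlt.le
    have e3 : P.g P.Q ≤ ∑ j ∈ Finset.Ioc a'.1.h a.1.h,
        (P.sk L (anc b.1.μ j) - P.sk L (anc b.1.μ (j - 1))) * (u - P.XX b.1.μ b.1.h j) := by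
      refine sum_ge hlt hgQ ?_ ?_
      · intro j hj1 hj2
        exact hL.big b j (by omega) (by omega)
      · intro j hj1 hj2
        have e4 := P.X_near' b (i := b.1.h) (h := j) (h2 := a'.1.h) hbi (by omega) hj1
        have e5 := P.g_Q_le (x := pos b.1.h j) (lt_trans (pos_lt' _ hbi) (P.pp_lt_Q b.2.im))
        linarith [h1.1]
    have e6 : ∑ j ∈ Finset.Ioc a'.1.h a.1.h,
        (P.sk L (anc b.1.μ j) - P.sk L (anc b.1.μ (j - 1))) * (u - P.XX b.1.μ b.1.h j) =
        (P.sk L (anc b.1.μ a.1.h) - P.sk L (anc b.1.μ a'.1.h)) * u -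
        ∑ j ∈ Finset.Ioc a'.1.h a.1.h,
        (P.sk L (anc b.1.μ j) - P.sk L (anc b.1.μ (j - 1))) * P.XX b.1.μ b.1.h j := by
      rw [← e2, Finset.sum_mul, ← Finset.sum_sub_distrib]
      refine Finset.sum_congr rfl fun j _ => ?_
      ring
    rw [e6] at e3
    linarith

end Par

end Pool.Agent.Lib.MP_93b2dd_co
end

section

/-!
# The explicit system of walls is a core system: assembly
-/

namespace Pool.Agent.Lib.MP_93b2dd_co

open Filter Topology

namespace Par

variable (P : Par)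

theorem tendsto_sk {k : ℕ × (ℕ → ℕ)} (h : P.tau k < 3) :
    Tendsto (fun L => P.sk L k) atTop atTop := by
  unfold sk
  refine Real.tendsto_exp_atTop.comp ?_
  exact tendsto_id.atTop_mul_const (by linarith)

theorem ev_gap {k k' : ℕ × (ℕ → ℕ)} (h : P.tau k' < P.tau k) (h' : P.tau k' < 3) (c : ℝ) :
    ∀ᶠ L in atTop, c ≤ P.sk L k' - P.sk L k := by
  have h1 := P.tendsto_ratio h
  have h2 := P.tendsto_sk h'
  have h3 : Tendsto (fun L => P.sk L k' * (1 - P.sk L k / P.sk L k')) atTop atTop := by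
    refine h2.atTop_mul_pos (C := 1 - 0) (by norm_num) ?_
    exact tendsto_const_nhds.sub h1
  filter_upwards [h3.eventually_ge_atTop c] with L h4
  have h5 := (P.sk_pos L k').ne'
  have h6 : P.sk L k' * (1 - P.sk L k / P.sk L k') = P.sk L k' - P.sk L k := by
    field_simp
  linarith

theorem sk_lt {L : ℝ} (hL : 0 < L) {k k' : ℕ × (ℕ → ℕ)} :
    P.sk L k' < P.sk L k ↔ P.tau k < P.tau k' := by
  unfold sk
  rw [Real.exp_lt_exp]
  constructor
  · intro h
    have := lt_of_mul_lt_mul_left h hL.le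
    linarith
  · intro h
    exact mul_lt_mul_of_pos_left (by linarith) hL

theorem anc_ok (b : P.W) {j : ℕ} (hj : j ≤ b.1.i) : P.CoreOK (anc b.1.μ j) where
  le x := by
    change tr b.1.μ (pp j) x ≤ P.M
    unfold tr
    split_ifs
    · exact b.2.μ_le x
    · exact Nat.zero_le _
  zc i := by
    change tr b.1.μ (pp j) (pp i) = 0
    unfold tr
    split_ifs
    · exact b.2.μc i
    · rfl
  z x hx := tr_of_le hx
  im := le_trans hj b.2.im

theorem tau_anc_lt (b : P.W) {j j' : ℕ} (h : j' < j) (hj : j ≤ b.1.i) :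
    P.tau (anc b.1.μ j) < P.tau (anc b.1.μ j') := by
  have h1 := P.tau_desc (k := anc b.1.μ j') (P.anc_ok b hj) h (by
    intro x hx
    change x < pp j' at hx
    change tr b.1.μ (pp j') x = tr b.1.μ (pp j) x
    rw [tr_of_lt hx, tr_of_lt (lt_trans hx (pp_strictMono h))])
  have h2 := P.g_pos (pp j')
  change _ + 499 / 500 * P.g (pp j') ≤ _ at h1
  linarith

theorem ev_near : ∀ᶠ L in atTop, ∀ a b : P.W, P.inn a = P.out b →
    |(P.data L).u a b - (P.t b ^ 2 - 2 * P.t b * P.lam a.1.q)| < P.g P.Q := by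
  rw [eventually_all]; intro a
  rw [eventually_all]; intro b
  by_cases h : P.inn a = P.out b
  · have h1 := P.lim_u h
    have h2 := P.g_Q_pos
    have h3 : ∀ᶠ L in atTop, |(P.data L).u a b - (2 * P.t b * (P.t b - P.lam a.1.q) -
        (P.t b ^ 2 + P.e0 * P.kap b))| < P.g P.Q / 2 :=
      (Metric.tendsto_nhds.1 h1) _ (by linarith)
    filter_upwards [h3] with L h4 _
    have h5 := P.kap_bounds b
    have h6 := P.e0_le
    have h7 := P.e0_pos
    rw [abs_lt] at h4 ⊢
    have h8 : P.e0 * P.kap b ≤ P.g P.Q / 50 := by nlinarith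
    have h9 : 0 ≤ P.e0 * P.kap b := mul_nonneg h7.le (by linarith)
    constructor <;> nlinarith [h4.1, h4.2]
  · exact Eventually.of_forall fun L h' => absurd h' h

theorem ev_big : ∀ᶠ L in atTop, ∀ (b : P.W) (j : ℕ), 0 < j → j < b.1.i →
    1 ≤ P.sk L (anc b.1.μ j) - P.sk L (anc b.1.μ (j - 1)) := by
  rw [eventually_all]; intro b
  have h1 : ∀ᶠ L in atTop, ∀ j ∈ Set.Iio b.1.i, 0 < j →
      1 ≤ P.sk L (anc b.1.μ j) - P.sk L (anc b.1.μ (j - 1)) := by
    rw [Filter.eventually_all_finite (Set.finite_Iio _)]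
    intro j hj
    by_cases h0 : 0 < j
    · have hj' : j < b.1.i := hj
      have h2 := P.tau_anc_lt b (show j - 1 < j by omega) hj'.le
      have h3 := (P.tau_bounds (P.anc_ok b hj'.le)).2
      filter_upwards [P.ev_gap h2 (by linarith) 1] with L h4 _
      exact h4
    · exact Eventually.of_forall fun L h' => absurd h' h0
  filter_upwards [h1] with L h2 j h3 h4
  exact h2 j h4 h3

theorem ev_good : ∀ᶠ L in atTop, P.Good L := by
  filter_upwards [P.ev_near, P.ev_big] with L h1 h2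
  exact ⟨h1, h2⟩

/-- the cores of the system -/
def cores : Set (ℕ × (ℕ → ℕ)) := Set.range P.inn ∪ Set.range P.out

theorem core_ok {k : ℕ × (ℕ → ℕ)} (hk : k ∈ P.cores) : P.CoreOK k := by
  rcases hk with ⟨w, rfl⟩ | ⟨w, rfl⟩
  · exact P.inn_ok w
  · exact P.out_ok w

theorem ev_s_gap : ∀ᶠ L in atTop, ∀ k ∈ P.cores, ∀ k' ∈ P.cores, k ≠ k' →
    4 ≤ |P.sk L k - P.sk L k'| := by
  have hfin : P.cores.Finite := (Set.finite_range _).union (Set.finite_range _)
  rw [Filter.eventually_all_finite hfin]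
  intro k hk
  rw [Filter.eventually_all_finite hfin]
  intro k' hk'
  by_cases hne : k ≠ k'
  · have h1 := (P.tau_bounds (P.core_ok hk)).2
    have h2 := (P.tau_bounds (P.core_ok hk')).2
    have h3 := P.g_Q_pos
    rcases P.tau_gap (P.core_ok hk) (P.core_ok hk') hne with h | h
    · filter_upwards [P.ev_gap (k := k') (k' := k) (by linarith) (by linarith) 4] with L h4 _
      exact le_trans h4 (le_abs_self _)
    · filter_upwards [P.ev_gap (k := k) (k' := k') (by linarith) (by linarith) 4] with L h4 _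
      rw [abs_sub_comm]
      exact le_trans h4 (le_abs_self _)
  · exact Eventually.of_forall fun L h' => absurd h' hne

theorem ev_AB (a b b' : P.W) (h : P.E a b) (h' : P.E a b') (hne : b' ≠ b) :
    ∀ᶠ L in atTop, (P.data L).Out b ((P.data L).u a b') ((P.data L).ζ a b') <
      (P.data L).In a ((P.data L).u a b') :=
  P.ev_above (P.E_core h') (P.E_core h)
    (P.D_pos_of_diff (P.Q_lt_of_valid a) (P.E_apart h h' hne))

/-- digits of contacts of `a` and of another out-wall differing at the position `y < q a` -/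
theorem apart_of_first_diff {a b b' : P.W} (h : P.inn a = P.out b) (h' : P.E a b') {y : ℕ}
    (hy : y ≤ a.1.q) (ha : ∀ x < y, b'.1.μ x = b.1.μ x) (hne : b'.1.μ y ≠ b.1.μ y) :
    P.t b' + 499 / 500 * P.g a.1.q ≤ P.t b ∨ P.t b + 499 / 500 * P.g a.1.q ≤ P.t b' := by
  have h1 := P.q_lt_pp (P.E_core h')
  have h2 := P.q_lt_pp h
  have h3 := P.g_anti hy
  rcases P.t_diff_abs (b := b') (b' := b) (x := y) (lt_of_le_of_lt hy h1)
    (lt_of_le_of_lt hy h2) ha hne with h4 | h4
  · left; linarith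
  · right; linarith

theorem ev_non (a b : P.W) (h : P.inn a = P.out b) (hE : ¬ P.E a b) :
    ∀ᶠ L in atTop,
    (∀ b', P.E a b' → (P.data L).Out b ((P.data L).u a b') ((P.data L).ζ a b') <
      (P.data L).In a ((P.data L).u a b')) ∨
    (∀ a', P.E a' b → (P.data L).In a ((P.data L).u a' b) <
      (P.data L).In a' ((P.data L).u a' b)) := by
  by_cases hag : ∀ x < a.1.q, a.1.μ x = b.1.μ x
  · have hμ : a.1.μ = tr b.1.μ a.1.q := by
      rw [← tr_eq_self (μ := a.1.μ) (q := a.1.q) (fun x hx => a.2.μ0 x hx), tr_eq_iff]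
      exact hag
    have hs : a.1.s ≠ P.Ψ a.1.q (b.1.μ a.1.q) (P.rank a.1.q b) := fun hs =>
      hE ⟨(P.core_agree h).1.symm, hμ, hs⟩
    rcases lt_or_gt_of_ne hs with hs | hs
    · -- `a` above the touched wall: all contacts of `a` are to the right of `b`
      have key : ∀ b', P.E a b' → ∀ᶠ L in atTop,
          (P.data L).Out b ((P.data L).u a b') ((P.data L).ζ a b') <
            (P.data L).In a ((P.data L).u a b') := by
        intro b' hb'
        refine P.ev_above (P.E_core hb') h ?_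
        by_cases hd : b'.1.μ a.1.q = b.1.μ a.1.q
        · refine P.D_pos_of_before ?_
          have hc : b' ∈ P.cluster a.1.q b := by
            refine ⟨by rw [hb'.1, (P.core_agree h).1], ?_⟩
            intro x hx
            rcases hx.lt_or_eq with hx | hx
            · rw [P.E_agree hb' x hx, hag x hx]
            · rw [hx, hd]
          have hne : b' ≠ b := by
            rintro rfl
            exact hE hb'
          rcases P.before_total hc.1 hne with h4 | h4
          · exact h4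
          · exfalso
            have h5 := P.rank_mono (b' := b) (b := b') (q := a.1.q) (by
              rw [P.cluster_eq hc]
              exact ⟨rfl, fun _ _ => rfl⟩) h4
            have hb : P.rank a.1.q b' < P.bd a.1.q := by
              refine P.rank_lt _ b' ?_ a.2.q_lt
              intro i hi
              rw [hb'.1] at hi
              exact lt_of_lt_of_le (pos_lt' _ hi) (pp_le_pos _ _)
            have h6 := P.Ψ_mono a.1.q (b.1.μ a.1.q) _ _ h5 hb
            have h7 := hb'.2.2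
            rw [hd] at h7
            omega
        · refine P.D_pos_of_diff (P.Q_lt_of_valid a) ?_
          refine P.apart_of_first_diff h hb' le_rfl ?_ hd
          intro x hx
          rw [P.E_agree hb' x hx, hag x hx]
      have key' : ∀ᶠ L in atTop, ∀ b', P.E a b' →
          (P.data L).Out b ((P.data L).u a b') ((P.data L).ζ a b') <
            (P.data L).In a ((P.data L).u a b') := by
        rw [eventually_all]
        intro b'
        by_cases hb' : P.E a b'
        · filter_upwards [key b' hb'] with L hL _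
          exact hL
        · exact Eventually.of_forall fun L h' => absurd h' hb'
      filter_upwards [key'] with L hL
      exact Or.inl hL
    · -- `a` below the touched wall
      filter_upwards [P.ev_good] with L hL
      right
      intro a' ha'
      by_cases hh : a.1.h = a'.1.h
      · have hi : a.1.i = a'.1.i := by rw [(P.core_agree h).1, ha'.1]
        have hq : a.1.q = a'.1.q := by unfold Wall.q; rw [hi, hh]
        have hs' : a'.1.s < a.1.s := by
          rw [ha'.2.2, ← hq]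
          exact hs
        have e1 := P.cc_eq L h hμ
        have e2 := P.cc_eq L (P.E_core ha') ha'.2.1
        have e3 : P.inn a = P.inn a' := by rw [h, P.E_core ha']
        have e4 : P.out a = P.out a' := by
          rw [P.out_eq_anc, P.out_eq_anc, ← hh]
          refine anc_congr (i := a.1.i) ?_ a.2.hi.le
          intro x hx
          rw [(P.core_agree h).2 x hx, (P.core_agree (P.E_core ha')).2 x (by rw [← hi]; exact hx)]
        change (P.sk L (P.inn a) - P.sk L (P.out a)) * _ + P.cc L a <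
          (P.sk L (P.inn a') - P.sk L (P.out a')) * _ + P.cc L a'
        rw [e1, e2, e3, e4, hi, hh]
        have e5 := P.f0_pos
        have e6 : (a'.1.s : ℝ) < a.1.s := by exact_mod_cast hs'
        have e7 := mul_lt_mul_of_pos_left e6 e5
        linarith
      · exact P.robust hL h hμ ha' hh
  · obtain ⟨y, h1, h2, h3⟩ := exists_first_diff hag
    have key' : ∀ᶠ L in atTop, ∀ b', P.E a b' →
        (P.data L).Out b ((P.data L).u a b') ((P.data L).ζ a b') <
          (P.data L).In a ((P.data L).u a b') := by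
      rw [eventually_all]
      intro b'
      by_cases hb' : P.E a b'
      · have h4 := P.D_pos_of_diff (b1 := b') (b2 := b) (P.Q_lt_of_valid a)
          (P.apart_of_first_diff h hb' h1.le (fun x hx => by
            rw [P.E_agree hb' x (lt_trans hx h1), h2 x hx]) (by
            rw [P.E_agree hb' y h1]
            exact h3))
        filter_upwards [P.ev_above (P.E_core hb') h h4] with L hL _
        exact hL
      · exact Eventually.of_forall fun L h' => absurd h' hb'
    filter_upwards [key'] with L hL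
    exact Or.inl hL

theorem ev_outout (a b b' : P.W) (h : P.out b = P.out b') (hE : P.E a b)
    (hlt : P.t b < P.t b') :
    ∀ᶠ L in atTop, (P.data L).Out b' ((P.data L).u a b) ((P.data L).ζ a b) <
      (P.data L).In a ((P.data L).u a b) := by
  refine P.ev_above (P.E_core hE) (by rw [P.E_core hE, h]) ?_
  exact P.D_pos_of_lt hlt

theorem ev_ncol (a b a' b' : P.W) (h : P.E a b) (h' : P.E a b') (hne : b' ≠ b) (h2 : P.E a' b)
    (hne' : a' ≠ a) : ∀ᶠ L in atTop,
    ((P.data L).u a b' - (P.data L).u a b) * ((P.data L).ζ a' b - (P.data L).ζ a b) -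
      ((P.data L).ζ a b' - (P.data L).ζ a b) * ((P.data L).u a' b - (P.data L).u a b) ≠ 0 := by
  have h3 := P.lim_u (P.E_core h)
  have h4 := P.lim_u (P.E_core h')
  have h5 := P.lim_u (P.E_core h2)
  have h6 : P.lam a'.1.q ≠ P.lam a.1.q := by
    intro h7
    have h8 : P.g a'.1.q = P.g a.1.q := by
      unfold lam at h7
      linarith
    have g1 := P.g_pos a.1.q
    rcases lt_trichotomy a'.1.q a.1.q with h9 | h9 | h9
    · have := P.g_lt_le h9
      linarith
    · have h10 : a.1.i = a'.1.i := by rw [← h.1, h2.1]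
      have h11 := pos_inj a'.2.hi.le a.2.hi.le h9
      exact hne' (P.E_left_unique h h2 h11.2.symm).symm
    · have := P.g_lt_le h9
      linarith
  have hD := P.D_pos_of_diff (P.Q_lt_of_valid a) (P.E_apart h h' hne)
  have key := (((h4.sub h3).mul_const ((P.t b - P.lam a'.1.q) - (P.t b - P.lam a.1.q))).sub
    ((h5.sub h3).const_mul ((P.t b' - P.lam a.1.q) - (P.t b - P.lam a.1.q))))
  refine key.eventually_ne ?_
  have e : (2 * P.t b' * (P.t b' - P.lam a.1.q) - (P.t b' ^ 2 + P.e0 * P.kap b') -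
        (2 * P.t b * (P.t b - P.lam a.1.q) - (P.t b ^ 2 + P.e0 * P.kap b))) *
      ((P.t b - P.lam a'.1.q) - (P.t b - P.lam a.1.q)) -
      ((P.t b' - P.lam a.1.q) - (P.t b - P.lam a.1.q)) *
      (2 * P.t b * (P.t b - P.lam a'.1.q) - (P.t b ^ 2 + P.e0 * P.kap b) -
        (2 * P.t b * (P.t b - P.lam a.1.q) - (P.t b ^ 2 + P.e0 * P.kap b))) =
      (P.lam a.1.q - P.lam a'.1.q) * ((2 * P.t b' * (P.t b' - P.lam a.1.q) -
        (P.t b' ^ 2 + P.e0 * P.kap b')) - (2 * P.t b * (P.t b' - P.lam a.1.q) -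
        (P.t b ^ 2 + P.e0 * P.kap b))) := by
    ring
  rw [e]
  exact mul_ne_zero (sub_ne_zero.2 h6.symm) hD.ne'

end Par

end Pool.Agent.Lib.MP_93b2dd_co
end

section

/-!
# Contact systems with large chromatic number
-/

namespace Pool.Agent.Lib.MP_93b2dd_co

open Filter Topology

namespace Par

variable (P : Par)

theorem same_aux {L : ℝ} (hL : P.Good L) {b b' : P.W} (hinn : P.inn b = P.inn b')
    (hh : b.1.h = b'.1.h) {y : ℕ} (hy : y < b.1.q) (ha : ∀ x < y, b.1.μ x = b'.1.μ x)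
    (hlt : b.1.μ y < b'.1.μ y) : P.cc L b' < P.cc L b ∧ P.kap b < P.kap b' := by
  have hi : b.1.i = b'.1.i := congrArg Prod.fst hinn
  have hq : b.1.q = b'.1.q := by unfold Wall.q; rw [hi, hh]
  have hμ : ∀ x < pp b.1.i, b.1.μ x = b'.1.μ x := by
    have h1 : tr b.1.μ (pp b.1.i) = tr b'.1.μ (pp b'.1.i) := congrArg Prod.snd hinn
    rw [← hi] at h1
    exact tr_eq_iff.1 h1
  have hgy := P.g_pos y
  have hgQ := P.g_Q_le (lt_trans hy b.2.q_lt)
  have hgQ' := P.g_Q_pos
  refine ⟨?_, ?_⟩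
  · -- the intercepts
    have hy1 : pp b.1.i ≤ y := by
      by_contra h
      rw [hμ y (not_le.1 h)] at hlt
      exact lt_irrefl _ hlt
    have hy2 : pp b.1.i ≠ y := by
      rintro rfl
      rw [b.2.μc, b'.2.μc] at hlt
      exact lt_irrefl _ hlt
    obtain ⟨j0, hj1, hj2, hj3⟩ := exists_pos (lt_of_le_of_ne hy1 hy2) hy
    have hX : ∀ j, b.1.h < j → j < b.1.i → pos b.1.i j < y →
        P.XX b'.1.μ b.1.i j = P.XX b.1.μ b.1.i j := by
      intro j _ _ hjy
      unfold XX
      rw [P.v_congr (μ := b'.1.μ) (μ' := b.1.μ) fun x hx => (ha x (by omega)).symm]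
    have hX' : ∀ j, b.1.h < j → j < b.1.i → y ≤ pos b.1.i j →
        P.g y / 2 ≤ P.XX b'.1.μ b.1.i j - P.XX b.1.μ b.1.i j := by
      intro j _ _ hjy
      have e1 : P.v b.1.μ (pos b.1.i j + 1) ≤ P.v b.1.μ (y + 1) + P.g y / 500 := by
        rcases hjy.lt_or_eq with h | h
        · have := P.v_near b.2.μ_le (x := y) (q := pos b.1.i j + 1) (by omega)
          have h2 := P.g_pos (pos b.1.i j + 1)
          have h3 := P.M_pos'
          have h4 : 0 ≤ 2 * (P.M : ℝ) * P.g (pos b.1.i j + 1) := by positivity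
          linarith
        · rw [h]
          have := P.g_pos (pos b.1.i j)
          linarith
      have e2 : P.v b'.1.μ (y + 1) ≤ P.v b'.1.μ (pos b.1.i j + 1) :=
        P.v_mono _ (by omega)
      have e3 := P.v_diff ha hlt
      have e4 := P.v_one_le b.1.μ (pos b.1.i j + 1)
      have e5 := P.g_le_one (pos b.1.i j)
      have e6 := P.g_pos (pos b.1.i j)
      unfold XX lam
      set V := P.v b.1.μ (pos b.1.i j + 1)
      set V' := P.v b'.1.μ (pos b.1.i j + 1)
      have e7 : V' ^ 2 - V' * (P.g (pos b.1.i j) / 8) - (V ^ 2 - V * (P.g (pos b.1.i j) / 8)) =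
        (V' - V) * (V' + V - P.g (pos b.1.i j) / 8) := by ring
      rw [e7]
      have e8 : P.g y / 2 ≤ V' - V := by linarith
      have e9 : 1 ≤ V' + V - P.g (pos b.1.i j) / 8 := by linarith
      nlinarith
    have hanc : ∀ j ≤ b.1.i, anc b'.1.μ j = anc b.1.μ j := fun j hj =>
      (anc_congr hμ hj).symm
    have hdiff : P.cc L b - P.cc L b' = ∑ j ∈ Finset.Ioo b.1.h b.1.i,
        (P.sk L (anc b.1.μ j) - P.sk L (anc b.1.μ (j - 1))) *
          (P.XX b'.1.μ b.1.i j - P.XX b.1.μ b.1.i j) - (P.f0 * b.1.s - P.f0 * b'.1.s) := by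
      unfold cc
      rw [← hi, ← hh]
      have e1 : ∑ j ∈ Finset.Ioo b.1.h b.1.i,
          (P.sk L (anc b'.1.μ j) - P.sk L (anc b'.1.μ (j - 1))) * P.XX b'.1.μ b.1.i j =
          ∑ j ∈ Finset.Ioo b.1.h b.1.i,
          (P.sk L (anc b.1.μ j) - P.sk L (anc b.1.μ (j - 1))) * P.XX b'.1.μ b.1.i j := by
        refine Finset.sum_congr rfl fun j hj => ?_
        rw [Finset.mem_Ioo] at hj
        rw [hanc j (by omega), hanc (j - 1) (by omega)]
      rw [e1]
      have e2 : ∑ j ∈ Finset.Ioo b.1.h b.1.i,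
          (P.sk L (anc b.1.μ j) - P.sk L (anc b.1.μ (j - 1))) *
            (P.XX b'.1.μ b.1.i j - P.XX b.1.μ b.1.i j) =
          ∑ j ∈ Finset.Ioo b.1.h b.1.i,
          (P.sk L (anc b.1.μ j) - P.sk L (anc b.1.μ (j - 1))) * P.XX b'.1.μ b.1.i j -
          ∑ j ∈ Finset.Ioo b.1.h b.1.i,
          (P.sk L (anc b.1.μ j) - P.sk L (anc b.1.μ (j - 1))) * P.XX b.1.μ b.1.i j := by
        rw [← Finset.sum_sub_distrib]
        refine Finset.sum_congr rfl fun j _ => ?_
        ring
      rw [e2]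
      ring
    have hf := abs_le.1 (P.f0_mul b b')
    have hsum : P.g y / 2 ≤ ∑ j ∈ Finset.Ioo b.1.h b.1.i,
        (P.sk L (anc b.1.μ j) - P.sk L (anc b.1.μ (j - 1))) *
          (P.XX b'.1.μ b.1.i j - P.XX b.1.μ b.1.i j) := by
      have e1 : (P.sk L (anc b.1.μ j0) - P.sk L (anc b.1.μ (j0 - 1))) *
          (P.XX b'.1.μ b.1.i j0 - P.XX b.1.μ b.1.i j0) ≤ ∑ j ∈ Finset.Ioo b.1.h b.1.i,
          (P.sk L (anc b.1.μ j) - P.sk L (anc b.1.μ (j - 1))) *
          (P.XX b'.1.μ b.1.i j - P.XX b.1.μ b.1.i j) := by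
        refine Finset.single_le_sum (f := fun j =>
          (P.sk L (anc b.1.μ j) - P.sk L (anc b.1.μ (j - 1))) *
          (P.XX b'.1.μ b.1.i j - P.XX b.1.μ b.1.i j)) ?_ (Finset.mem_Ioo.2 ⟨hj1, hj2⟩)
        intro j hj
        rw [Finset.mem_Ioo] at hj
        have h1 := hL.big b j (by omega) hj.2
        refine mul_nonneg (by linarith) ?_
        by_cases h2 : pos b.1.i j < y
        · rw [hX j hj.1 hj.2 h2]
          linarith
        · have := hX' j hj.1 hj.2 (not_lt.1 h2)
          linarith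
      have e2 := hX' j0 hj1 hj2 hj3.le
      have e3 := hL.big b j0 (by omega) hj2
      nlinarith
    linarith
  · -- the keys
    have := P.kap_diff hy (hq ▸ hy) ha hlt
    linarith

theorem same {L : ℝ} (hL : P.Good L) {b b' : P.W} (hinn : P.inn b = P.inn b')
    (hout : P.out b = P.out b') (hne : b ≠ b') :
    (P.cc L b' < P.cc L b ∧ P.kap b < P.kap b') ∨ (P.cc L b < P.cc L b' ∧ P.kap b' < P.kap b) := by
  have hi : b.1.i = b'.1.i := congrArg Prod.fst hinn
  have hh : b.1.h = b'.1.h := congrArg Prod.fst hout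
  have hq : b.1.q = b'.1.q := by unfold Wall.q; rw [hi, hh]
  by_cases hag : ∀ x < b.1.q, b.1.μ x = b'.1.μ x
  · have hμ : b.1.μ = b'.1.μ := by
      funext x
      by_cases hx : x < b.1.q
      · exact hag x hx
      · rw [b.2.μ0 x (not_lt.1 hx), b'.2.μ0 x (by rw [← hq]; exact not_lt.1 hx)]
    have hs : b.1.s ≠ b'.1.s := fun hs => hne (Subtype.ext (Wall.ext hi hh hs hμ))
    have hc : P.cc L b - P.cc L b' = P.f0 * b'.1.s - P.f0 * b.1.s := by
      unfold cc
      rw [← hi, ← hh, ← hμ]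
      ring
    have hk : P.kap b - P.kap b' = (b.1.s - b'.1.s) * P.g b.1.q := by
      unfold kap
      rw [← hq, ← hμ]
      ring
    have h1 := P.f0_pos
    have h2 := P.g_pos b.1.q
    rcases lt_or_gt_of_ne hs with h | h
    · left
      have h3 : (b.1.s : ℝ) < b'.1.s := by exact_mod_cast h
      have h4 := mul_lt_mul_of_pos_left h3 h1
      constructor
      · linarith
      · nlinarith
    · right
      have h3 : (b'.1.s : ℝ) < b.1.s := by exact_mod_cast h
      have h4 := mul_lt_mul_of_pos_left h3 h1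
      constructor
      · linarith
      · nlinarith
  · obtain ⟨y, h1, h2, h3⟩ := exists_first_diff hag
    rcases lt_or_gt_of_ne h3 with h | h
    · left
      exact P.same_aux hL hinn hh h1 h2 h
    · right
      exact P.same_aux hL hinn.symm hh.symm (hq ▸ h1) (fun x hx => (h2 x hx).symm) h

theorem innin {L : ℝ} (hL : P.Good L) {a a' : P.W} (hinn : P.inn a = P.inn a')
    (hlt : P.tau (P.out a) < P.tau (P.out a')) :
    (∀ b, P.E a' b → (P.data L).In a ((P.data L).u a' b) < (P.data L).In a' ((P.data L).u a' b)) ∨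
    (∃ t, |t| ≤ 2 ∧ (∀ b, P.E a b → (P.data L).ζ a b < t) ∧
      (∀ b, P.E a' b → t < (P.data L).ζ a' b)) ∨
    (∃ t, |t| ≤ 2 ∧ (∀ b, P.E a b → t < (P.data L).ζ a b) ∧
      (∀ b, P.E a' b → (P.data L).ζ a' b < t)) := by
  have hi : a.1.i = a'.1.i := congrArg Prod.fst hinn
  have hμ : ∀ x < pp a.1.i, a.1.μ x = a'.1.μ x := by
    have h1 : tr a.1.μ (pp a.1.i) = tr a'.1.μ (pp a'.1.i) := congrArg Prod.snd hinn
    rw [← hi] at h1
    exact tr_eq_iff.1 h1
  have hh : a'.1.h < a.1.h := by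
    by_contra hcon
    rcases (not_lt.1 hcon).lt_or_eq with h | h
    · have h1 := P.tau_anc_lt a' (j := a'.1.h) (j' := a.1.h) h a'.2.hi.le
      rw [P.out_eq_anc, P.out_eq_anc, anc_congr hμ a.2.hi.le] at hlt
      linarith
    · rw [P.out_eq_anc, P.out_eq_anc, anc_congr hμ a.2.hi.le, h] at hlt
      exact lt_irrefl _ hlt
  have hq : a.1.q < a'.1.q := by
    unfold Wall.q
    rw [← hi]
    exact pos_lt_pos hh a.2.hi.le
  by_cases hag : ∀ x < a.1.q, a.1.μ x = a'.1.μ x
  · left
    intro b hb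
    refine P.robust hL (by rw [hinn]; exact P.E_core hb) ?_ hb hh.ne'
    rw [← tr_eq_self (μ := a.1.μ) (q := a.1.q) (fun x hx => a.2.μ0 x hx), tr_eq_iff]
    intro x hx
    rw [hag x hx, P.E_agree hb x (lt_trans hx hq)]
  · right
    obtain ⟨y, h1, h2, h3⟩ := exists_first_diff hag
    have hgy := P.g_pos y
    have h4 : ∀ b, P.E a b → P.v a.1.μ (y + 1) - P.g y / 8000 ≤ P.t b - P.lam a.1.q ∧
        P.t b - P.lam a.1.q ≤ P.v a.1.μ (y + 1) + P.g y / 500 := by
      intro b hb
      have e1 := P.t_near b (x := y) (lt_trans h1 (P.q_lt_pp (P.E_core hb)))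
      have e2 : P.v b.1.μ (y + 1) = P.v a.1.μ (y + 1) :=
        P.v_congr fun x hx => P.E_agree hb x (by omega)
      rw [e2] at e1
      have e3 := P.g_lt_le h1
      have e4 := P.g_pos a.1.q
      unfold lam
      constructor <;> linarith
    have h5 : ∀ b, P.E a' b → P.v a'.1.μ (y + 1) - P.g y / 8000 ≤ P.t b - P.lam a'.1.q ∧
        P.t b - P.lam a'.1.q ≤ P.v a'.1.μ (y + 1) + P.g y / 500 := by
      intro b hb
      have e1 := P.t_near b (x := y) (lt_trans (lt_trans h1 hq) (P.q_lt_pp (P.E_core hb)))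
      have e2 : P.v b.1.μ (y + 1) = P.v a'.1.μ (y + 1) :=
        P.v_congr fun x hx => P.E_agree hb x (by omega)
      rw [e2] at e1
      have e3 := P.g_lt_le (lt_trans h1 hq)
      have e4 := P.g_pos a'.1.q
      unfold lam
      constructor <;> linarith
    have h6 := P.v_le a.2.μ_le (y + 1)
    have h7 := P.v_le a'.2.μ_le (y + 1)
    have h8 := P.v_one_le a.1.μ (y + 1)
    have h9 := P.v_one_le a'.1.μ (y + 1)
    have h10 := P.g_pos (y + 1)
    have h11 := P.M_pos'
    have h12 : 0 ≤ 2 * (P.M : ℝ) * P.g (y + 1) := by positivity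
    have habs : |(P.v a.1.μ (y + 1) + P.v a'.1.μ (y + 1)) / 2| ≤ 2 := by
      rw [abs_le]
      constructor <;> linarith
    rcases lt_or_gt_of_ne h3 with h | h
    · left
      refine ⟨(P.v a.1.μ (y + 1) + P.v a'.1.μ (y + 1)) / 2, habs, ?_, ?_⟩
      · intro b hb
        have e1 := P.v_diff h2 h
        have e2 := (h4 b hb).2
        change P.t b - P.lam a.1.q < _
        linarith
      · intro b hb
        have e1 := P.v_diff h2 h
        have e2 := (h5 b hb).1
        change _ < P.t b - P.lam a'.1.q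
        linarith
    · right
      refine ⟨(P.v a.1.μ (y + 1) + P.v a'.1.μ (y + 1)) / 2, habs, ?_, ?_⟩
      · intro b hb
        have e1 := P.v_diff (fun x hx => (h2 x hx).symm) h
        have e2 := (h4 b hb).1
        change _ < P.t b - P.lam a.1.q
        linarith
      · intro b hb
        have e1 := P.v_diff (fun x hx => (h2 x hx).symm) h
        have e2 := (h5 b hb).2
        change P.t b - P.lam a'.1.q < _
        linarith

theorem ev_imp {p : Prop} {q : ℝ → Prop} (h : p → ∀ᶠ L in atTop, q L) :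
    ∀ᶠ L in atTop, p → q L := by
  by_cases hp : p
  · filter_upwards [h hp] with L h1 _ using h1
  · exact Eventually.of_forall fun L h1 => absurd h1 hp

/-- the explicit walls form a core system -/
theorem exists_coreSystem : ∃ S : CoreSystem P.W, S.E = P.E := by
  have g1 := P.ev_good
  have g2 := P.ev_s_gap
  have g3 : ∀ᶠ L in atTop, ∀ a b b' : P.W, (P.E a b ∧ P.E a b' ∧ b' ≠ b) →
      (P.data L).Out b ((P.data L).u a b') ((P.data L).ζ a b') <
        (P.data L).In a ((P.data L).u a b') := by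
    rw [eventually_all]; intro a
    rw [eventually_all]; intro b
    rw [eventually_all]; intro b'
    exact ev_imp fun h => P.ev_AB a b b' h.1 h.2.1 h.2.2
  have g4 : ∀ᶠ L in atTop, ∀ a b : P.W, (P.inn a = P.out b ∧ ¬ P.E a b) →
      (∀ b', P.E a b' → (P.data L).Out b ((P.data L).u a b') ((P.data L).ζ a b') <
        (P.data L).In a ((P.data L).u a b')) ∨
      (∀ a', P.E a' b → (P.data L).In a ((P.data L).u a' b) <
        (P.data L).In a' ((P.data L).u a' b)) := by
    rw [eventually_all]; intro a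
    rw [eventually_all]; intro b
    exact ev_imp fun h => P.ev_non a b h.1 h.2
  have g5 : ∀ᶠ L in atTop, ∀ a b b' : P.W, (P.out b = P.out b' ∧ P.E a b ∧ P.t b < P.t b') →
      (P.data L).Out b' ((P.data L).u a b) ((P.data L).ζ a b) <
        (P.data L).In a ((P.data L).u a b) := by
    rw [eventually_all]; intro a
    rw [eventually_all]; intro b
    rw [eventually_all]; intro b'
    exact ev_imp fun h => P.ev_outout a b b' h.1 h.2.1 h.2.2
  have g6 : ∀ᶠ L in atTop, ∀ a b a' b' : P.W,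
      (P.E a b ∧ P.E a b' ∧ b' ≠ b ∧ P.E a' b ∧ a' ≠ a) →
      ((P.data L).u a b' - (P.data L).u a b) * ((P.data L).ζ a' b - (P.data L).ζ a b) -
        ((P.data L).ζ a b' - (P.data L).ζ a b) * ((P.data L).u a' b - (P.data L).u a b) ≠ 0 := by
    rw [eventually_all]; intro a
    rw [eventually_all]; intro b
    rw [eventually_all]; intro a'
    rw [eventually_all]; intro b'
    exact ev_imp fun h => P.ev_ncol a b a' b' h.1 h.2.1 h.2.2.1 h.2.2.2.1 h.2.2.2.2
  obtain ⟨L, ⟨⟨⟨⟨⟨⟨h1, h2⟩, h3⟩, h4⟩, h5⟩, h6⟩, h7⟩⟩ :=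
    ((((((g1.and g2).and g3).and g4).and g5).and g6).and (eventually_gt_atTop (0 : ℝ))).exists
  refine ⟨{
    toCoreData := P.data L
    cores := P.cores
    inn_mem := fun w => Or.inl ⟨w, rfl⟩
    out_mem := fun w => Or.inr ⟨w, rfl⟩
    E_core := fun a b h => P.E_core h
    s_one := ?_
    s_gap := fun k hk k' hk' hne => h2 k hk k' hk' hne
    s_lt := fun w => (P.sk_lt h7).2 (P.tau_out_gt w)
    ζ_le := ?_
    AB := fun a b b' h h' hne => h3 a b b' ⟨h, h', hne⟩
    BA := ?_
    non := fun a b h hE => h4 a b ⟨h, hE⟩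
    outout := fun b b' h hlt a hE => h5 a b b' ⟨h, hE, (P.sk_lt h7).1 hlt⟩
    same := ?_
    innin := fun a a' h hlt => P.innin h1 h ((P.sk_lt h7).1 hlt)
    tne1 := ?_
    tne2 := ?_
    ncol := fun a b a' b' e1 e2 e3 e4 e5 => h6 a b a' b' ⟨e1, e2, e3, e4, e5⟩ }, rfl⟩
  · intro k hk
    change 1 ≤ P.sk L k
    unfold sk
    rw [← Real.exp_zero]
    refine Real.exp_le_exp.2 ?_
    have := (P.tau_bounds (P.core_ok hk)).2
    exact mul_nonneg h7.le (by linarith)
  · intro a b _
    change |P.t b - P.lam a.1.q| ≤ 2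
    have e1 := P.t_bounds b
    have e2 := P.g_le_one a.1.q
    have e3 := P.g_pos a.1.q
    unfold lam
    rw [abs_le]
    constructor <;> linarith
  · intro a a' b hE hE' hne
    have hh : a.1.h ≠ a'.1.h := fun h => hne (P.E_left_unique hE hE' h).symm
    exact P.robust h1 (P.E_core hE) hE.2.1 hE' hh
  · intro b b' hi ho hne
    have e1 : P.t b = P.t b' := by unfold t; rw [show P.inn b = P.inn b' from hi]
    have e2 := P.e0_pos
    rcases P.same h1 hi ho hne with ⟨e3, e4⟩ | ⟨e3, e4⟩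
    · left
      refine ⟨e3, ?_⟩
      change P.t b ^ 2 + P.e0 * P.kap b < P.t b' ^ 2 + P.e0 * P.kap b'
      rw [e1]
      have := mul_lt_mul_of_pos_left e4 e2
      linarith
    · right
      refine ⟨e3, ?_⟩
      change P.t b' ^ 2 + P.e0 * P.kap b' < P.t b ^ 2 + P.e0 * P.kap b
      rw [e1]
      have := mul_lt_mul_of_pos_left e4 e2
      linarith
  · intro a b b' hE hE' hne heq
    have e1 := P.E_apart hE hE' hne
    have e2 := P.g_pos a.1.q
    change P.t b' - P.lam a.1.q = P.t b - P.lam a.1.q at heq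
    rcases e1 with e1 | e1 <;> linarith
  · intro a a' b hE hE' hne heq
    change P.t b - P.lam a'.1.q = P.t b - P.lam a.1.q at heq
    have e1 : P.g a'.1.q = P.g a.1.q := by
      unfold lam at heq
      linarith
    have e2 := P.g_pos a.1.q
    rcases lt_trichotomy a'.1.q a.1.q with h9 | h9 | h9
    · have := P.g_lt_le h9
      linarith
    · have h11 := pos_inj a'.2.hi.le a.2.hi.le h9
      exact hne (P.E_left_unique hE hE' h11.2.symm).symm
    · have := P.g_lt_le h9
      linarith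

end Par

/-- For every `C` there is a contact system whose graph is not `C`-colourable. -/
theorem exists_contactSystem_not_colorable (C : ℕ) (hC : 0 < C) :
    ∃ (W : Type) (_ : Fintype W) (G : SimpleGraph W),
      Nonempty (ContactSystem W G) ∧ ¬ G.Colorable C := by
  let m := 2 ^ C
  obtain ⟨N, R, bd, Ψ, h1, h2, h3, h4, h5⟩ := exists_params C (pp (m + 1)) hC
    (fun M' => (m + 1) * ((M' + 1) * (M' + 1) ^ (pp (m + 1))))
  let M := 1 + ∑ x ∈ Finset.range (pp (m + 1)), (R x + N x)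
  have hM : ∀ x, x < pp (m + 1) → R x + N x ≤ M := by
    intro x hx
    have := Finset.single_le_sum (f := fun x => R x + N x) (fun _ _ => Nat.zero_le _)
      (Finset.mem_range.2 hx)
    omega
  let P : Par := {
    m := m
    N := N
    R := R
    bd := bd
    Ψ := Ψ
    M := M
    M_pos := by omega
    R_le := fun x hx => by have := hM x hx; omega
    N_le := fun x hx => by have := hM x hx; omega
    Ψ_mono := h2
    Ψ_lt := h3
    count := fun q hq => h5 q hq }
  obtain ⟨S, hS⟩ := P.exists_coreSystem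
  refine ⟨P.W, inferInstance, S.graph, S.exists_contactSystem, ?_⟩
  have h6 : S.graph = SimpleGraph.fromRel P.E := by
    unfold CoreSystem.graph
    rw [hS]
  rw [h6]
  refine P.not_colorable C hC h1 ?_ (Nat.lt_succ_self _)
  intro q col
  obtain ⟨r, hr, c, hc⟩ := h4 q col
  exact ⟨r, hr.le, c, hc⟩

end Pool.Agent.Lib.MP_93b2dd_co
end
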